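import Mathlib
import Pool.Agent.W544.EG.Defs

/-!
# Invariant metrics on compact homogeneous spaces `G/H`: definitions

`G` is a compact connected Lie group, i.e. (Peter–Weyl) a closed connected subgroup of some `U(N)`,
`H` a closed subgroup of `G`.  Functions on `G/H` are functions on `G` which are invariant under
right translations by `H`, tangent vectors of `G/H` at `xH` are the `x X`, `X` in an
`Ad(H)`-invariant complement of the Lie algebra of `H` in the Lie algebra of `G`.
-/

open Matrix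
open scoped Matrix.Norms.Frobenius ContDiff

namespace Pool.Agent.Y896.HS

open Pool.Agent.W544.EG (Mat LieAlg)

variable {N k : ℕ} {G H : Subgroup (unitaryGroup (Fin N) ℂ)}

/-- A `G`-invariant Riemannian metric on `G/H`, given by an orthonormal basis `X` of an
`Ad(H)`-invariant complement of the Lie algebra of `H` in the Lie algebra of `G`; the inner product
is `Ad(H)`-invariant, i.e. the matrices of `Ad(h)`, `h ∈ H`, with respect to the basis are
orthogonal.  (As `H` is compact, all `G`-invariant metrics on `G/H` are given in this way.) -/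
structure InvMetric (G H : Subgroup (unitaryGroup (Fin N) ℂ)) (k : ℕ) where
  /-- the orthonormal basis -/
  X : Fin k → Mat N
  mem : ∀ i, X i ∈ LieAlg G
  indep : LinearIndependent ℝ X
  disj : ∀ Y ∈ Submodule.span ℝ (Set.range X), Y ∈ LieAlg H → Y = 0
  sup : ∀ Z ∈ LieAlg G, ∃ Y ∈ Submodule.span ℝ (Set.range X), Z - Y ∈ LieAlg H
  inv : ∀ h ∈ H, ∃ O ∈ Matrix.orthogonalGroup (Fin k) ℝ, ∀ j,
    (h : Mat N) * X j * star (h : Mat N) = ∑ i, O i j • X i

/-- `Joined g x y ℓ`: there is a piecewise `C¹` curve in `G/H` from `xH` to `yH` of length `ℓ`.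
A `C¹` curve in `G/H` is given by its horizontal lift `c` to `G`: the velocity is
`c'(t) = c(t) · ∑ vᵢ(t) Xᵢ`, of length `√∑ vᵢ(t)²`; moving along a fibre `xH` costs nothing. -/
inductive Joined (g : InvMetric G H k) : Mat N → Mat N → ℝ → Prop
  | curve (c : ℝ → Mat N) (v : ℝ → EuclideanSpace ℝ (Fin k)) (hv : Continuous v)
      (hG : ∀ t ∈ Set.Icc (0 : ℝ) 1, ∃ u ∈ G, ((u : unitaryGroup (Fin N) ℂ) : Mat N) = c t)
      (hc : ∀ t ∈ Set.Icc (0 : ℝ) 1, HasDerivAt c (c t * ∑ i, v t i • g.X i) t) :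
      Joined g (c 0) (c 1) (∫ t in (0 : ℝ)..1, ‖v t‖)
  | fibre (x : Mat N) (h : unitaryGroup (Fin N) ℂ) (hh : h ∈ H) : Joined g x (x * (h : Mat N)) 0
  | trans {x y z : Mat N} {a b : ℝ} (h : Joined g x y a) (h' : Joined g y z b) :
      Joined g x z (a + b)

/-- the Riemannian distance of `xH` and `yH` in `G/H` -/
noncomputable def dist (g : InvMetric G H k) (x y : Mat N) : ℝ := sInf {ℓ | Joined g x y ℓ}

/-- the diameter of `(G/H, g)` -/
noncomputable def diam (g : InvMetric G H k) : ℝ :=
  sSup {d | ∃ x ∈ G, ∃ y ∈ G, d = dist g (x : unitaryGroup (Fin N) ℂ) (y : unitaryGroup (Fin N) ℂ)}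

/-- `lam` is an eigenvalue of the Laplace–Beltrami operator `Δ f = - ∑ Xᵢ² f` of `(G/H, g)`, where
`(Xᵢ f)(x) = d/dt f (x exp (t Xᵢ))` (compact groups are unimodular, so this is the Laplace–Beltrami
operator on the right `H`-invariant functions on `G`, i.e. on the functions on `G/H`).  The
eigenfunction is the restriction of a smooth function of the matrix. -/
def IsEigenvalue (g : InvMetric G H k) (lam : ℝ) : Prop :=
  ∃ f : Mat N → ℝ, ContDiff ℝ ∞ f ∧
    (∀ x ∈ G, ∀ h ∈ H, f ((x : Mat N) * (h : Mat N)) = f (x : Mat N)) ∧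
    (∃ x ∈ G, f ((x : unitaryGroup (Fin N) ℂ) : Mat N) ≠ 0) ∧
    ∀ x ∈ G, -∑ i, iteratedDeriv 2
      (fun t : ℝ => f (((x : unitaryGroup (Fin N) ℂ) : Mat N) * NormedSpace.exp (t • g.X i))) 0 =
        lam * f ((x : unitaryGroup (Fin N) ℂ) : Mat N)

/-- the smallest positive eigenvalue of the Laplace–Beltrami operator of `(G/H, g)` -/
noncomputable def lambda1 (g : InvMetric G H k) : ℝ := sInf {lam | 0 < lam ∧ IsEigenvalue g lam}

end Pool.Agent.Y896.HS
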