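import Mathlib
import Pool.Agent.Y896.HS.Defs
import Pool.Agent.W544.EG.MatG

/-!
# EGS for homogeneous spaces: interfaces between the parts of the proof
-/

open Matrix MeasureTheory
open scoped Matrix.Norms.Frobenius ContDiff

namespace Pool.Agent.Y896.HS

open Pool.Agent.W544.EG (Mat LieAlg Gs BL IsLen)

variable {N k : ℕ} {G H : Subgroup (unitaryGroup (Fin N) ℂ)}

/-- linear combinations of the basis -/
noncomputable def comb (g : InvMetric G H k) : EuclideanSpace ℝ (Fin k) →ₗ[ℝ] Mat N where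
  toFun a := ∑ i, a i • g.X i
  map_add' a b := by
    simp only [PiLp.add_apply, add_smul, Finset.sum_add_distrib]
  map_smul' c a := by
    simp only [PiLp.smul_apply, smul_eq_mul, mul_smul, Finset.smul_sum, RingHom.id_apply]

/-- the coordinates: a linear map with `crd (∑ aᵢ Xᵢ) = a`, vanishing on the Lie algebra of `H` -/
noncomputable def crd (g : InvMetric G H k) : Mat N →ₗ[ℝ] EuclideanSpace ℝ (Fin k) :=
  Classical.epsilon fun p : Mat N →ₗ[ℝ] EuclideanSpace ℝ (Fin k) =>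
    (∀ a, p (comb g a) = a) ∧ ∀ Z ∈ LieAlg H, p Z = 0

/-- the horizontal length -/
noncomputable def qn (g : InvMetric G H k) (X : Mat N) : ℝ := ‖crd g X‖

/-- products `exp (X₁) ⋯ exp (Xₗ) h`, `Xᵢ` in the Lie algebra of `G`, `h ∈ H`, of total horizontal
length `≤ t` -/
def HB (g : InvMetric G H k) (t : ℝ) : Set (Mat N) :=
  {x | ∃ l : List (Mat N), (∀ X ∈ l, X ∈ LieAlg G) ∧ (l.map (qn g)).sum ≤ t ∧
    ∃ h ∈ H, x = (l.map NormedSpace.exp).prod * (h : Mat N)}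

/-- basic properties of the coordinates -/
def S_B : Prop :=
  ∀ (N k : ℕ) (G H : Subgroup (unitaryGroup (Fin N) ℂ))
    (_ : IsClosed (H : Set (unitaryGroup (Fin N) ℂ))) (g : InvMetric G H k),
    (∀ a, crd g (comb g a) = a) ∧ (∀ Z ∈ LieAlg H, crd g Z = 0) ∧
    (∀ X ∈ LieAlg G, X - comb g (crd g X) ∈ LieAlg H) ∧
    (∀ h ∈ H, ∀ X ∈ LieAlg G, qn g ((h : Mat N) * X * star (h : Mat N)) = qn g X)

/-- SR: a right `H`-invariant function on `G` which is 1-Lipschitz along the one-parameter groups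
`exp (t Xᵢ)` and has variance `≥ V` gives a positive eigenvalue `≤ 2 k / V` of `G/H` -/
def S_R : Prop :=
  ∀ (N k : ℕ) (G H : Subgroup (unitaryGroup (Fin N) ℂ))
    (_ : IsClosed (G : Set (unitaryGroup (Fin N) ℂ)))
    (_ : IsConnected (G : Set (unitaryGroup (Fin N) ℂ))) (_ : H ≤ G) (g : InvMetric G H k)
    [MeasurableSpace G] [BorelSpace G] (μ : Measure G) [IsProbabilityMeasure μ]
    [μ.IsMulRightInvariant] [μ.IsOpenPosMeasure] (f : G → ℝ) (_ : Continuous f)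
    (_ : ∀ x y : G, ∀ h ∈ H, ((y : unitaryGroup (Fin N) ℂ) : Mat N) =
      ((x : unitaryGroup (Fin N) ℂ) : Mat N) * (h : Mat N) → f y = f x)
    (_ : ∀ (x y : G) (i : Fin k) (t : ℝ),
      ((y : unitaryGroup (Fin N) ℂ) : Mat N) =
        ((x : unitaryGroup (Fin N) ℂ) : Mat N) * NormedSpace.exp (t • g.X i) → |f y - f x| ≤ |t|)
    (V : ℝ) (_ : 0 < V) (_ : V ≤ ∫ x, (f x - ∫ z, f z ∂μ) ^ 2 ∂μ),
    ∃ lam : ℝ, 0 < lam ∧ lam * V ≤ 2 * k ∧ IsEigenvalue g lam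

/-- TS: two sets of measure `≥ v` at distance `≥ T` in `G/H` give an eigenvalue `≤ 4 k / (v T²)` -/
def S_TS : Prop :=
  ∀ (N k : ℕ) (G H : Subgroup (unitaryGroup (Fin N) ℂ))
    (_ : IsClosed (G : Set (unitaryGroup (Fin N) ℂ)))
    (_ : IsConnected (G : Set (unitaryGroup (Fin N) ℂ))) (_ : H ≤ G)
    (_ : IsClosed (H : Set (unitaryGroup (Fin N) ℂ))) (g : InvMetric G H k)
    [MeasurableSpace G] [BorelSpace G] (μ : Measure G) [IsProbabilityMeasure μ]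
    [μ.IsMulRightInvariant] [μ.IsOpenPosMeasure] (U U' : Set G)
    (_ : MeasurableSet U) (_ : MeasurableSet U') (T v : ℝ) (_ : 0 < T) (_ : 0 < v)
    (_ : v ≤ μ.real U) (_ : v ≤ μ.real U')
    (_ : ∀ u ∈ U, ∀ u' ∈ U', ∀ s < T, (((u⁻¹ * u' : G) : unitaryGroup (Fin N) ℂ) : Mat N) ∉ HB g s),
    ∃ lam : ℝ, 0 < lam ∧ lam * (v * T ^ 2) ≤ 4 * k ∧ IsEigenvalue g lam

/-- T: the torus `G / [G,G]H`: if `G` is not covered by `{exp (p (∑ aᵢ Xᵢ)) · d · h : ‖a‖ ≤ r,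
d ∈ [G,G], h ∈ H}` then there is an eigenvalue `≤ C / r²` of `G/H` (`C` depending on `G` only) -/
def S_T : Prop :=
  ∀ (N : ℕ) (G : Subgroup (unitaryGroup (Fin N) ℂ)) (_ : IsClosed (G : Set (unitaryGroup (Fin N) ℂ)))
    (_ : IsConnected (G : Set (unitaryGroup (Fin N) ℂ))) (p : Mat N →ₗ[ℝ] Mat N)
    (_ : ∀ X ∈ LieAlg G, p X ∈ LieAlg G ∧
        ∀ u ∈ G, ((u : unitaryGroup (Fin N) ℂ) : Mat N) * p X = p X * (u : unitaryGroup (Fin N) ℂ))
    (_ : ∀ X ∈ LieAlg G, ∃ d ∈ ⁅G, G⁆,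
        ((d : unitaryGroup (Fin N) ℂ) : Mat N) = NormedSpace.exp (X - p X))
    (_ : IsClosed ((⁅G, G⁆ : Subgroup (unitaryGroup (Fin N) ℂ)) : Set (unitaryGroup (Fin N) ℂ))),
    ∃ C : ℝ, ∀ (H : Subgroup (unitaryGroup (Fin N) ℂ)) (_ : H ≤ G)
      (_ : IsClosed (H : Set (unitaryGroup (Fin N) ℂ))) (k : ℕ) (g : InvMetric G H k) (r : ℝ),
      0 < r →
      (∃ x ∈ G, ∀ a : EuclideanSpace ℝ (Fin k), ‖a‖ ≤ r → ∀ d ∈ ⁅G, G⁆, ∀ h ∈ H,
        ((x : unitaryGroup (Fin N) ℂ) : Mat N) ≠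
          NormedSpace.exp (p (comb g a)) * (d : Mat N) * (h : Mat N)) →
      ∃ lam : ℝ, 0 < lam ∧ lam * r ^ 2 ≤ C ∧ IsEigenvalue g lam

/-- J: points at distance `≤ t` are joined by curves of length `≤ t` -/
def S_J : Prop :=
  ∀ (N k : ℕ) (G H : Subgroup (unitaryGroup (Fin N) ℂ))
    (_ : IsClosed (G : Set (unitaryGroup (Fin N) ℂ))) (_ : H ≤ G)
    (_ : IsClosed (H : Set (unitaryGroup (Fin N) ℂ))) (g : InvMetric G H k) (x y : Mat N)
    (_ : x ∈ Gs G) (_ : y ∈ Gs G) (t : ℝ) (_ : star x * y ∈ HB g t),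
    ∃ ℓ ≤ t, 0 ≤ ℓ ∧ Joined g x y ℓ

/-- CH: if finitely many translates of a length ball are dense then a larger ball is dense -/
def S_CH : Prop :=
  ∀ (N : ℕ) (G : Subgroup (unitaryGroup (Fin N) ℂ)) (_ : IsClosed (G : Set (unitaryGroup (Fin N) ℂ)))
    (_ : IsConnected (G : Set (unitaryGroup (Fin N) ℂ))) (L : Submodule ℝ (Mat N))
    (_ : (L : Set (Mat N)) = LieAlg G) (q : Mat N → ℝ) (_ : IsLen L q) (t ε : ℝ) (_ : 0 ≤ t)
    (_ : 0 < ε) (F : Finset (Mat N)) (_ : ∀ f ∈ F, f ∈ Gs G)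
    (_ : ∀ x ∈ Gs G, ∃ s ∈ BL L q t, ∃ f ∈ F, ‖s * f - x‖ < ε),
    ∀ x ∈ Gs G, ∃ s ∈ BL L q (2 * F.card * t), ‖s - x‖ < 2 * F.card * ε

/-- CC: the components of a closed subgroup: `H` is a finite union of cosets of
`{exp Z : Z ∈ Lie H}` -/
def S_CC : Prop :=
  ∀ (N : ℕ) (H : Subgroup (unitaryGroup (Fin N) ℂ)) (_ : IsClosed (H : Set (unitaryGroup (Fin N) ℂ))),
    Finite (ConnectedComponents H) ∧
    ∃ F : Finset (Mat N), F.card ≤ Nat.card (ConnectedComponents H) ∧ (∀ f ∈ F, f ∈ Gs H) ∧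
      ∀ h ∈ Gs H, ∃ Z ∈ LieAlg H, ∃ f ∈ F, h = NormedSpace.exp Z * f

/-- EX: invariant metrics exist -/
def S_EX : Prop :=
  ∀ (N : ℕ) (G H : Subgroup (unitaryGroup (Fin N) ℂ))
    (_ : IsClosed (G : Set (unitaryGroup (Fin N) ℂ))) (_ : H ≤ G)
    (_ : IsClosed (H : Set (unitaryGroup (Fin N) ℂ))), ∃ k : ℕ, Nonempty (InvMetric G H k)

end Pool.Agent.Y896.HS
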