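import Mathlib
import Pool.Agent.Y896.HS.Stm
import Pool.Agent.W345.EGT1
import Pool.Agent.Helper472.Lat_CST1

/-!
# EGS for homogeneous spaces: the coordinates
-/

open Matrix
open scoped Matrix.Norms.Frobenius ContDiff

namespace Pool.Agent.Y896.HS

open Pool.Agent.W544.EG (Mat LieAlg Gs BL IsLen)

variable {N k : ℕ} {G H : Subgroup (unitaryGroup (Fin N) ℂ)}

/-- the Lie algebra is a subspace -/
theorem exists_lie (hc : IsClosed (G : Set (unitaryGroup (Fin N) ℂ))) :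
    ∃ L : Submodule ℝ (Mat N), (L : Set (Mat N)) = LieAlg G := by
  refine ⟨{ carrier := LieAlg G, add_mem' := ?_, zero_mem' := ?_, smul_mem' := ?_ }, rfl⟩
  · intro X Y hX hY
    exact Pool.Agent.W345.EGT.mem_of_lat (Pool.LatH472.CST1 (Fin N) G hc X
      (Pool.Agent.W345.EGT.mem_lat hX) Y (Pool.Agent.W345.EGT.mem_lat hY)).1
  · intro t
    refine ⟨1, G.one_mem, ?_⟩
    rw [smul_zero]
    have h0 : NormedSpace.exp (0 : Mat N) = 1 := Pool.Agent.W544.EG.exp_zero' (𝔸 := Mat N)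
    rw [h0]
    rfl
  · intro c X hX t
    obtain ⟨u, hu, hue⟩ := hX (t * c)
    exact ⟨u, hu, by rw [hue, mul_smul]⟩

theorem comb_mem (g : InvMetric G H k) (a : EuclideanSpace ℝ (Fin k)) :
    comb g a ∈ Submodule.span ℝ (Set.range g.X) := by
  show (∑ i, a i • g.X i) ∈ Submodule.span ℝ (Set.range g.X)
  exact Submodule.sum_mem _ fun i _ => Submodule.smul_mem _ _
    (Submodule.subset_span (Set.mem_range_self i))

theorem exists_comb (g : InvMetric G H k) {Y : Mat N} (hY : Y ∈ Submodule.span ℝ (Set.range g.X)) :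
    ∃ a, comb g a = Y := by
  obtain ⟨c, hc⟩ := (Submodule.mem_span_range_iff_exists_fun ℝ).1 hY
  exact ⟨WithLp.toLp 2 c, hc⟩

theorem comb_inj (g : InvMetric G H k) {a : EuclideanSpace ℝ (Fin k)} (ha : comb g a = 0) :
    a = 0 := by
  have h := Fintype.linearIndependent_iff.1 g.indep (fun i => a i) ha
  ext i
  exact h i

theorem crd_spec (hH : IsClosed (H : Set (unitaryGroup (Fin N) ℂ))) (g : InvMetric G H k) :
    (∀ a, crd g (comb g a) = a) ∧ ∀ Z ∈ LieAlg H, crd g Z = 0 := by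
  refine Classical.epsilon_spec (p := fun p : Mat N →ₗ[ℝ] EuclideanSpace ℝ (Fin k) =>
    (∀ a, p (comb g a) = a) ∧ ∀ Z ∈ LieAlg H, p Z = 0) ?_
  obtain ⟨LH, hLH⟩ := exists_lie hH
  have hinj : LinearMap.ker (LH.mkQ ∘ₗ comb g) = ⊥ := by
    rw [LinearMap.ker_eq_bot']
    intro a ha
    rw [LinearMap.comp_apply, Submodule.mkQ_apply, Submodule.Quotient.mk_eq_zero] at ha
    have h1 : comb g a ∈ LieAlg H := by rw [← hLH]; exact ha
    exact comb_inj g (g.disj _ (comb_mem g a) h1)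
  obtain ⟨p, hp⟩ := LinearMap.exists_leftInverse_of_injective _ hinj
  refine ⟨p ∘ₗ LH.mkQ, fun a => LinearMap.congr_fun hp a, fun Z hZ => ?_⟩
  have h1 : Z ∈ LH := by rw [← SetLike.mem_coe, hLH]; exact hZ
  rw [LinearMap.comp_apply, Submodule.mkQ_apply, (Submodule.Quotient.mk_eq_zero LH).2 h1, map_zero]

theorem star_h {h : unitaryGroup (Fin N) ℂ} : star (h : Mat N) * (h : Mat N) = 1 :=
  Pool.Agent.W544.EG.unit_sm h

/-- conjugation by elements of `G` preserves the Lie algebra -/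
theorem conj_lie {h : unitaryGroup (Fin N) ℂ} (hh : h ∈ G) {Z : Mat N} (hZ : Z ∈ LieAlg G) :
    (h : Mat N) * Z * star (h : Mat N) ∈ LieAlg G := by
  intro t
  obtain ⟨u, hu, hue⟩ := hZ t
  refine ⟨h * u * h⁻¹, G.mul_mem (G.mul_mem hh hu) (G.inv_mem hh), ?_⟩
  have e1 : ((h * u * h⁻¹ : unitaryGroup (Fin N) ℂ) : Mat N) =
      (h : Mat N) * (u : Mat N) * star (h : Mat N) := rfl
  have e2 : t • ((h : Mat N) * Z * star (h : Mat N)) = (h : Mat N) * (t • Z) * star (h : Mat N) := by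
    rw [mul_smul_comm, smul_mul_assoc]
  rw [e1, e2, hue]
  exact (Pool.Agent.W544.EG.exp_conj (𝔸 := Mat N) _ _ _ (Pool.Agent.W544.EG.unit_sm h)
    (Pool.Agent.W544.EG.unit_ms h)).symm

theorem conj_comb {g : InvMetric G H k} {h : unitaryGroup (Fin N) ℂ} {O : Matrix (Fin k) (Fin k) ℝ}
    (hO : ∀ j, (h : Mat N) * g.X j * star (h : Mat N) = ∑ i, O i j • g.X i)
    (a : EuclideanSpace ℝ (Fin k)) :
    (h : Mat N) * comb g a * star (h : Mat N) = comb g (WithLp.toLp 2 (O *ᵥ (a : Fin k → ℝ))) := by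
  show (h : Mat N) * (∑ j, a j • g.X j) * star (h : Mat N) = ∑ i, (O *ᵥ (a : Fin k → ℝ)) i • g.X i
  rw [Finset.mul_sum, Finset.sum_mul]
  have h1 : ∀ j, (h : Mat N) * (a j • g.X j) * star (h : Mat N) = ∑ i, (O i j * a j) • g.X i := by
    intro j
    rw [mul_smul_comm, smul_mul_assoc, hO, Finset.smul_sum]
    refine Finset.sum_congr rfl fun i _ => ?_
    rw [smul_smul, mul_comm]
  rw [Finset.sum_congr rfl fun j _ => h1 j, Finset.sum_comm]
  refine Finset.sum_congr rfl fun i _ => ?_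
  rw [← Finset.sum_smul]
  rfl

theorem norm_orth {O : Matrix (Fin k) (Fin k) ℝ} (hO : O ∈ Matrix.orthogonalGroup (Fin k) ℝ)
    (a : EuclideanSpace ℝ (Fin k)) :
    ‖(WithLp.toLp 2 (O *ᵥ (a : Fin k → ℝ)) : EuclideanSpace ℝ (Fin k))‖ = ‖a‖ := by
  have h1 : Oᵀ * O = 1 := (Matrix.mem_orthogonalGroup_iff' (Fin k) ℝ).1 hO
  have h2 : ∀ b : EuclideanSpace ℝ (Fin k), ‖b‖ ^ 2 = (b : Fin k → ℝ) ⬝ᵥ (b : Fin k → ℝ) := by
    intro b
    rw [EuclideanSpace.norm_sq_eq]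
    simp [dotProduct, sq]
  have h3 : ‖(WithLp.toLp 2 (O *ᵥ (a : Fin k → ℝ)) : EuclideanSpace ℝ (Fin k))‖ ^ 2 = ‖a‖ ^ 2 := by
    rw [h2, h2]
    show (O *ᵥ (a : Fin k → ℝ)) ⬝ᵥ (O *ᵥ (a : Fin k → ℝ)) = _
    rw [Matrix.dotProduct_mulVec, Matrix.vecMul_mulVec, ← Matrix.mulVec_transpose]
    rw [Matrix.transpose_mul, Matrix.transpose_transpose, h1, Matrix.one_mulVec]
  exact (pow_left_inj₀ (norm_nonneg _) (norm_nonneg _) two_ne_zero).1 h3

/-- **basic properties of the coordinates** -/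
theorem t_B : S_B := by
  intro N k G H hH g
  obtain ⟨h1, h2⟩ := crd_spec hH g
  obtain ⟨LH, hLH⟩ := exists_lie hH
  have h3 : ∀ X ∈ LieAlg G, X - comb g (crd g X) ∈ LieAlg H := by
    intro X hX
    obtain ⟨Y, hY, hXY⟩ := g.sup X hX
    obtain ⟨a, rfl⟩ := exists_comb g hY
    have h4 : crd g X = a := by
      have h5 := h2 _ hXY
      rw [map_sub, h1, sub_eq_zero] at h5
      exact h5
    rw [h4]
    exact hXY
  refine ⟨h1, h2, h3, fun h hh X hX => ?_⟩
  obtain ⟨O, hO, hOX⟩ := g.inv h hh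
  have h4 := h3 X hX
  have h5 := conj_lie hh h4
  have h6 := conj_comb hOX (crd g X)
  have h7 : crd g ((h : Mat N) * X * star (h : Mat N)) =
      WithLp.toLp 2 (O *ᵥ (crd g X : Fin k → ℝ)) := by
    have e : (h : Mat N) * X * star (h : Mat N) =
        (h : Mat N) * comb g (crd g X) * star (h : Mat N) +
          (h : Mat N) * (X - comb g (crd g X)) * star (h : Mat N) := by noncomm_ring
    rw [e, map_add, h2 _ h5, add_zero, h6, h1]
  rw [qn, h7, norm_orth hO]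
  rfl

end Pool.Agent.Y896.HS
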