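import Mathlib
import Pool.Agent.Y896.HS.SR1
import Pool.Agent.Y896.HS.Stm
import Pool.Agent.W973.EGSR4

/-!
# EGS for homogeneous spaces: the Rayleigh quotient bound `S_R`
-/

open Matrix MeasureTheory Filter Topology
open scoped Matrix.Norms.Frobenius ContDiff

namespace Pool.Agent.Y896.HS

open Pool.Agent.W544.EG (Mat LieAlg)
open Pool.Agent.W973.EGSR

variable {N k : ℕ} {G H : Subgroup (unitaryGroup (Fin N) ℂ)}

/-- the right `H`-invariant elements of a space of functions -/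
def invSub (H : Subgroup (unitaryGroup (Fin N) ℂ)) (E : Submodule ℝ (G → ℝ)) : Submodule ℝ E where
  carrier := {u | ∀ x y : G, ∀ h ∈ H, mt y = mt x * (h : Mat N) → (u : G → ℝ) y = (u : G → ℝ) x}
  add_mem' := by
    intro u v hu hv x y h hh hxy
    show (u : G → ℝ) y + (v : G → ℝ) y = (u : G → ℝ) x + (v : G → ℝ) x
    rw [hu x y h hh hxy, hv x y h hh hxy]
  zero_mem' := by
    intro x y h hh hxy
    rfl
  smul_mem' := by
    intro c u hu x y h hh hxy
    show c * (u : G → ℝ) y = c * (u : G → ℝ) x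
    rw [hu x y h hh hxy]

theorem mem_invSub {E : Submodule ℝ (G → ℝ)} {u : E} : u ∈ invSub H E ↔
    ∀ x y : G, ∀ h ∈ H, mt y = mt x * (h : Mat N) → (u : G → ℝ) y = (u : G → ℝ) x := Iff.rfl

theorem invSub_apply (hHG : H ≤ G) {E : Submodule ℝ (G → ℝ)} {u : E} (hu : u ∈ invSub H E)
    (x : G) {h : unitaryGroup (Fin N) ℂ} (hh : h ∈ H) :
    (u : G → ℝ) (x * ⟨h, hHG hh⟩) = (u : G → ℝ) x := hu x _ h hh rfl

/-- the derivative along a conjugated one-parameter group -/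
theorem conj_deriv {E : Submodule ℝ (G → ℝ)} (hE : Nice E) (hHG : H ≤ G) (g : InvMetric G H k)
    {γ : Fin k → ℝ → G} (hγ : ∀ i, OPG (g.X i) (γ i)) {h : unitaryGroup (Fin N) ℂ} (hh : h ∈ H)
    {O : Matrix (Fin k) (Fin k) ℝ}
    (hO : ∀ j, (h : Mat N) * g.X j * star (h : Mat N) = ∑ i, O i j • g.X i)
    {w : G → ℝ} (hw : w ∈ E) (j : Fin k) (x : G) :
    ∑ i, O i j * dX (γ i) w x =
      dX (γ j) (fun y => w (y * (⟨h, hHG hh⟩ : G)⁻¹)) (x * ⟨h, hHG hh⟩) := by
  obtain ⟨F, hF, hF'⟩ := hE.smooth w hw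
  set hg : G := ⟨h, hHG hh⟩ with hhg
  set δ : ℝ → G := fun t => hg * γ j t * hg⁻¹ with hδ
  have e0 : mt hg = (h : Mat N) := rfl
  have e1 : mt hg⁻¹ = star (h : Mat N) := rfl
  have hδo : OPG (∑ i, O i j • g.X i) δ := by
    refine ⟨fun t => ?_⟩
    rw [hδ, mt_mul, mt_mul, (hγ j).exp, e0, e1, ← hO]
    have e2 : t • ((h : Mat N) * g.X j * star (h : Mat N)) =
        (h : Mat N) * (t • g.X j) * star (h : Mat N) := by
      rw [mul_smul_comm, smul_mul_assoc]
    rw [e2]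
    exact (Pool.Agent.W544.EG.exp_conj (𝔸 := Mat N) _ _ _ (Pool.Agent.W544.EG.unit_sm h)
      (Pool.Agent.W544.EG.unit_ms h)).symm
  have h1 : dX δ w x = ∑ i, O i j * dX (γ i) w x := by
    rw [dX_formula hδo hF hF' x, Finset.mul_sum, map_sum]
    refine Finset.sum_congr rfl fun i _ => ?_
    rw [Matrix.mul_smul, map_smul, ← dX_formula (hγ i) hF hF' x, smul_eq_mul]
  rw [← h1]
  unfold dX
  congr 1
  funext t
  rw [hδ]
  simp only [mul_assoc]

theorem lap_inv {E : Submodule ℝ (G → ℝ)} (hE : Nice E) (hHG : H ≤ G) (g : InvMetric G H k)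
    {γ : Fin k → ℝ → G} (hγ : ∀ i, OPG (g.X i) (γ i)) {u : E} (hu : u ∈ invSub H E) :
    -∑ i, AX hE (hγ i) (AX hE (hγ i) u) ∈ invSub H E := by
  intro x y h hh hxy
  obtain ⟨O, hOo, hO⟩ := g.inv h hh
  have hOO : O * Oᵀ = 1 := (Matrix.mem_orthogonalGroup_iff (Fin k) ℝ).1 hOo
  have hy : y = x * ⟨h, hHG hh⟩ := mt_injective hxy
  subst hy
  set hg : G := ⟨h, hHG hh⟩ with hhg
  have h0 : ∀ x : G, ((-∑ i, AX hE (hγ i) (AX hE (hγ i) u) : E) : G → ℝ) x =
      -∑ i, dX (γ i) (dX (γ i) u) x := by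
    intro x
    rw [Submodule.coe_neg, Submodule.coe_sum, Pi.neg_apply, Finset.sum_apply]
    rfl
  rw [h0, h0]
  congr 1
  -- first derivative
  have h1 : ∀ (j : Fin k) (z : G), dX (γ j) (u : G → ℝ) (z * hg) =
      ∑ i, O i j * dX (γ i) (u : G → ℝ) z := by
    intro j z
    rw [conj_deriv hE hHG g hγ hh hO u.2 j z]
    congr 1
    funext y
    have h2 := invSub_apply hHG hu (y * hg⁻¹) hh
    rw [inv_mul_cancel_right] at h2
    exact h2
  have h2 : ∀ j : Fin k, dX (γ j) (dX (γ j) (u : G → ℝ)) (x * hg) =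
      ∑ i, O i j * ∑ l, O l j * dX (γ i) (dX (γ l) (u : G → ℝ)) x := by
    intro j
    set w : G → ℝ := fun z => dX (γ j) (u : G → ℝ) (z * hg) with hw
    have hwE : w ∈ E := hE.inv _ (dX_mem hE (hγ j) u.2) hg
    have h3 := conj_deriv hE hHG g hγ hh hO hwE j x
    have h4 : (fun y => w (y * (⟨h, hHG hh⟩ : G)⁻¹)) = dX (γ j) (u : G → ℝ) := by
      funext y
      rw [hw]
      show dX (γ j) (u : G → ℝ) (y * hg⁻¹ * hg) = _
      rw [inv_mul_cancel_right]
    rw [h4] at h3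
    rw [← h3]
    refine Finset.sum_congr rfl fun i _ => ?_
    congr 1
    have h5 : w = ∑ l, O l j • dX (γ l) (u : G → ℝ) := by
      funext z
      rw [hw]
      simp only
      rw [h1, Finset.sum_apply]
      rfl
    have h6 : ∀ l : Fin k, HasDerivAt (fun t => O l j * dX (γ l) (u : G → ℝ) (x * γ i t))
        (O l j * dX (γ i) (dX (γ l) (u : G → ℝ)) x) 0 := by
      intro l
      have h7 := dX_spec hE (hγ i) (dX_mem hE (hγ l) u.2) x 0
      rw [(hγ i).zero, mul_one] at h7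
      exact h7.const_mul _
    have h8 : dX (γ i) w x = ∑ l, O l j * dX (γ i) (dX (γ l) (u : G → ℝ)) x := by
      have h9 := HasDerivAt.fun_sum (u := Finset.univ) fun l _ => h6 l
      have h10 : (fun t => w (x * γ i t)) =
          fun t => ∑ l, O l j * dX (γ l) (u : G → ℝ) (x * γ i t) := by
        funext t
        rw [h5, Finset.sum_apply]
        rfl
      unfold dX at h9 ⊢
      unfold dX at h10
      rw [h10]
      exact h9.deriv
    exact h8
  rw [Finset.sum_congr rfl fun j _ => h2 j]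
  have h11 : ∀ i l : Fin k, ∑ j, O i j * O l j = if i = l then 1 else 0 := by
    intro i l
    have := congrFun (congrFun hOO i) l
    rw [Matrix.mul_apply, Matrix.one_apply] at this
    simpa [Matrix.transpose_apply] using this
  calc ∑ j, ∑ i, O i j * ∑ l, O l j * dX (γ i) (dX (γ l) (u : G → ℝ)) x
      = ∑ j, ∑ i, ∑ l, (O i j * O l j) * dX (γ i) (dX (γ l) (u : G → ℝ)) x := by
        refine Finset.sum_congr rfl fun j _ => Finset.sum_congr rfl fun i _ => ?_
        rw [Finset.mul_sum]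
        refine Finset.sum_congr rfl fun l _ => ?_
        ring
    _ = ∑ i, ∑ l, ∑ j, (O i j * O l j) * dX (γ i) (dX (γ l) (u : G → ℝ)) x := by
        rw [Finset.sum_comm]
        refine Finset.sum_congr rfl fun i _ => ?_
        rw [Finset.sum_comm]
    _ = ∑ i, ∑ l, (if i = l then 1 else 0) * dX (γ i) (dX (γ l) (u : G → ℝ)) x := by
        refine Finset.sum_congr rfl fun i _ => Finset.sum_congr rfl fun l _ => ?_
        rw [← Finset.sum_mul, h11]
    _ = ∑ i, dX (γ i) (dX (γ i) (u : G → ℝ)) x := by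
        refine Finset.sum_congr rfl fun i _ => ?_
        simp

theorem kernel_const' (hcl : IsClosed (G : Set (unitaryGroup (Fin N) ℂ)))
    (hconn : IsConnected (G : Set (unitaryGroup (Fin N) ℂ))) (hHG : H ≤ G) (g : InvMetric G H k)
    {γ : Fin k → ℝ → G} (hγ : ∀ i, OPG (g.X i) (γ i)) {E : Submodule ℝ (G → ℝ)} (hE : Nice E)
    {u : E} (hu : u ∈ invSub H E) (h0 : ∀ i x, dX (γ i) (u : G → ℝ) x = 0) (x : G) :
    (u : G → ℝ) x = (u : G → ℝ) 1 := by
  obtain ⟨F, hF, hF'⟩ := hE.smooth u u.2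
  obtain ⟨X, hX, hXx⟩ := Pool.LatH472.TTL Pool.LatH472.CST1
    (Pool.LatH472.CST2 Pool.LatH472.CST1) (Fin N) G hcl hconn
    (x : unitaryGroup (Fin N) ℂ) x.2
  have hXL : X ∈ LieAlg G := fun t => hX.2 t
  obtain ⟨δ, hδ⟩ := exists_opg hXL
  obtain ⟨Y, hY, hZ⟩ := g.sup X hXL
  obtain ⟨c, hc⟩ := (Submodule.mem_span_range_iff_exists_fun ℝ).1 hY
  have hZG : X - Y ∈ LieAlg G := fun t => by
    obtain ⟨u, hu, hue⟩ := hZ t
    exact ⟨u, hHG hu, hue⟩
  obtain ⟨ζ, hζ⟩ := exists_opg hZG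
  have hζ0 : ∀ y, dX ζ (u : G → ℝ) y = 0 := by
    intro y
    have h1 : (fun t => (u : G → ℝ) (y * ζ t)) = fun _ => (u : G → ℝ) y := by
      funext t
      obtain ⟨h, hh, hhe⟩ := hZ t
      refine hu y (y * ζ t) h hh ?_
      rw [mt_mul, hζ.exp, hhe]
    unfold dX
    rw [h1, deriv_const]
  have h1 : ∀ y, dX δ (u : G → ℝ) y = 0 := by
    intro y
    have e : mt y * X = mt y * Y + mt y * (X - Y) := by noncomm_ring
    rw [dX_formula hδ hF hF' y, e, map_add, ← dX_formula hζ hF hF' y, hζ0, add_zero, ← hc,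
      Finset.mul_sum, map_sum]
    refine Finset.sum_eq_zero fun i _ => ?_
    rw [Matrix.mul_smul, map_smul, ← dX_formula (hγ i) hF hF' y, h0, smul_zero]
  have h2 : ∀ t, HasDerivAt (fun t => (u : G → ℝ) (1 * δ t)) 0 t := by
    intro t
    have := dX_spec hE hδ u.2 1 t
    rwa [h1] at this
  have h3 := is_const_of_deriv_eq_zero (f := fun t => (u : G → ℝ) (1 * δ t))
    (fun t => (h2 t).differentiableAt) (fun t => (h2 t).deriv) 1 0
  have h4 : δ 1 = x := mt_injective (by rw [hδ.exp, one_smul, hXx])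
  simpa [h4, hδ.zero] using h3

end Pool.Agent.Y896.HS
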