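import Mathlib
import Pool.Agent.Y896.HS.SR2

/-!
# EGS for homogeneous spaces: the Rayleigh quotient bound `S_R`, the proof
-/

open Matrix MeasureTheory Filter Topology
open scoped Matrix.Norms.Frobenius ContDiff

namespace Pool.Agent.Y896.HS

open Pool.Agent.W544.EG (Mat LieAlg)
open Pool.Agent.W973.EGSR

theorem t_R : S_R := by
  intro N m G H hcl hconn hHG g _ _ μ _ _ _ f hf hfH hlip V hV hvar
  have hG : CompactSpace G := compact_group hcl
  choose γ hγ using fun i => exists_opg (g.mem i)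
  set c₀ : ℝ := ∫ z, f z ∂μ with hc₀
  set f₀ : G → ℝ := fun x => f x - c₀ with hf₀
  have hf₀c : Continuous f₀ := hf.sub continuous_const
  have hf₀int : ∫ x, f₀ x ∂μ = 0 := by
    rw [hf₀, int_sub μ hf continuous_const, ← hc₀]
    simp
  have hf₀H : ∀ (x : G) (h : unitaryGroup (Fin N) ℂ) (hh : h ∈ H), f₀ (x * ⟨h, hHG hh⟩) = f₀ x := by
    intro x h hh
    show f _ - c₀ = f _ - c₀
    rw [hfH x _ h hh rfl]
  have hlip₀ : ∀ i x t, |f₀ (x * γ i t) - f₀ x| ≤ |t| := by
    intro i x t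
    have h1 := hlip x (x * γ i t) i t (by
      show mt (x * γ i t) = mt x * _
      rw [mt_mul, (hγ i).exp])
    have h2 : f₀ (x * γ i t) - f₀ x = f (x * γ i t) - f x := by simp [hf₀]
    rw [h2]
    exact h1
  have hη : 0 < √(V / 2) := Real.sqrt_pos.2 (by linarith)
  obtain ⟨h, E₀, hE₀, hhE₀, hh'⟩ := approx ⟨f₀, hf₀c⟩ hη
  replace hh' : ∀ x, |h x - f₀ x| ≤ √(V / 2) := hh'
  have hE : Nice (E₀ ⊔ Submodule.span ℝ {(1 : G → ℝ)}) := hE₀.sup nice_one
  set E := E₀ ⊔ Submodule.span ℝ {(1 : G → ℝ)} with hEdef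
  have hfin : FiniteDimensional ℝ E := Module.Finite.iff_fg.2 hE.fin
  let e : E := ⟨1, Submodule.mem_sup_right (Submodule.mem_span_singleton_self _)⟩
  let hh₀ : E := ⟨h, Submodule.mem_sup_left hhE₀⟩
  obtain ⟨F, hF⟩ := exists_repr (form μ hE) (form_def μ hE) (intL μ hE hf₀c)
  -- `F` is right `H`-invariant
  have hFH : F ∈ invSub H E := by
    intro x y k hk hxy
    have hy : y = x * ⟨k, hHG hk⟩ := mt_injective hxy
    subst hy
    set kg : G := ⟨k, hHG hk⟩ with hkg
    let F' : E := ⟨fun x => (F : G → ℝ) (x * kg), hE.inv _ F.2 kg⟩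
    have h1 : ∀ u : E, form μ hE F' u = form μ hE F u := by
      intro u
      let u' : E := ⟨fun x => (u : G → ℝ) (x * kg⁻¹), hE.inv _ u.2 kg⁻¹⟩
      have h2 : ∀ φ : G → ℝ, ∫ x, φ x * (u : G → ℝ) (x * kg⁻¹) ∂μ =
          ∫ x, φ (x * kg) * (u : G → ℝ) x ∂μ := by
        intro φ
        rw [← integral_mul_right_eq_self (μ := μ) (fun x => φ x * (u : G → ℝ) (x * kg⁻¹)) kg]
        refine integral_congr_ae (Eventually.of_forall fun x => ?_)
        show φ (x * kg) * (u : G → ℝ) (x * kg * kg⁻¹) = _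
        rw [mul_inv_cancel_right]
      have h3 : form μ hE F' u = form μ hE F u' := (h2 (F : G → ℝ)).symm
      have h4 : form μ hE F u' = ∫ x, f₀ x * (u : G → ℝ) (x * kg⁻¹) ∂μ := by
        rw [hF]; rfl
      have h5 : form μ hE F u = ∫ x, f₀ x * (u : G → ℝ) x ∂μ := by
        rw [hF]; rfl
      rw [h3, h4, h2, h5]
      refine integral_congr_ae (Eventually.of_forall fun x => ?_)
      show f₀ (x * kg) * (u : G → ℝ) x = f₀ x * (u : G → ℝ) x
      rw [hf₀H x k hk]
    have h2 : F' - F = 0 := by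
      apply form_def μ hE
      rw [LinearMap.map_sub₂, h1, sub_self]
    have h3 : F' = F := sub_eq_zero.1 h2
    exact congrArg (fun v : E => (v : G → ℝ) x) h3
  have hFe : form μ hE F e = 0 := by
    rw [hF, intL_apply]
    have : ∀ x, f₀ x * (e : G → ℝ) x = f₀ x := fun x => mul_one _
    simp only [this]
    exact hf₀int
  have hhc : Continuous h := hE₀.continuous hhE₀
  have hFF : V / 2 ≤ form μ hE F F := by
    have h1 := form_nonneg μ hE (F - hh₀)
    have h2 : form μ hE (F - hh₀) (F - hh₀) =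
        form μ hE F F - 2 * form μ hE F hh₀ + form μ hE hh₀ hh₀ := by
      rw [map_sub, map_sub, LinearMap.sub_apply, LinearMap.sub_apply, form_symm μ hE hh₀ F]
      ring
    have h3 : form μ hE F hh₀ = ∫ x, f₀ x * h x ∂μ := by rw [hF]; rfl
    have h4 : form μ hE hh₀ hh₀ = ∫ x, h x * h x ∂μ := rfl
    have h5 : ∫ x, (f₀ x ^ 2 - (2 * (f₀ x * h x) - h x * h x)) ∂μ ≤ V / 2 := by
      have h6 : ∫ x, (f₀ x ^ 2 - (2 * (f₀ x * h x) - h x * h x)) ∂μ ≤ ∫ _x : G, V / 2 ∂μ := by
        refine integral_mono (integrable_cont μ (by fun_prop)) (integrable_cont μ continuous_const)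
          fun x => ?_
        show f₀ x ^ 2 - (2 * (f₀ x * h x) - h x * h x) ≤ V / 2
        have h7 := hh' x
        have h8 : |h x - f₀ x| ^ 2 ≤ (√(V / 2)) ^ 2 := by
          exact pow_le_pow_left₀ (abs_nonneg _) h7 2
        rw [sq_abs, Real.sq_sqrt (by linarith)] at h8
        nlinarith
      simpa using h6
    rw [int_sub μ (by fun_prop) (by fun_prop), int_sub μ (by fun_prop) (by fun_prop),
      integral_const_mul] at h5
    have h9 : V ≤ ∫ x, f₀ x ^ 2 ∂μ := hvar
    rw [h2, h3, h4] at h1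
    linarith
  have hF0 : F ≠ 0 := by
    intro h0
    rw [h0] at hFF
    simp only [map_zero] at hFF
    linarith
  obtain ⟨lam, u, hlam, huH, hu0, hu1, hu2⟩ := rayleigh_sub_form (form μ hE) (form_symm μ hE)
    (form_nonneg μ hE) (form_def μ hE) (fun i => AX hE (hγ i)) (fun i => form_skew μ hE (hγ i))
    (invSub H E) (fun u hu => lap_inv hE hHG g hγ hu) e
    (fun i => by
      apply Subtype.ext
      ext x
      show deriv (fun t => (1 : G → ℝ) (x * γ i t)) 0 = 0
      simp)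
    (fun u huH hu => by
      refine ⟨(u : G → ℝ) 1, ?_⟩
      apply Subtype.ext
      ext x
      have h1 : ∀ i x, dX (γ i) (u : G → ℝ) x = 0 := fun i x => by
        have := congrArg (fun v : E => (v : G → ℝ) x) (hu i)
        exact this
      have h2 := kernel_const' hcl hconn hHG g hγ hE huH h1 x
      rw [h2]
      show _ = (u : G → ℝ) 1 * 1
      rw [mul_one])
    F hFH hFe hF0
  refine ⟨lam, hlam, ?_, ?_⟩
  · have h1 : ∑ i, form μ hE (AX hE (hγ i) F) (AX hE (hγ i) F) ≤ ∑ _i : Fin m, (1 : ℝ) :=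
      Finset.sum_le_sum fun i _ => form_proj_le μ hE (hγ i) hf₀c (hlip₀ i) F hF
    have h2 : ∑ _i : Fin m, (1 : ℝ) = m := by simp
    have h3 : lam * (V / 2) ≤ lam * form μ hE F F := mul_le_mul_of_nonneg_left hFF hlam.le
    linarith
  · obtain ⟨Fu, hFu, hFu'⟩ := hE.smooth u u.2
    refine ⟨Fu, hFu, ?_, ?_, ?_⟩
    · intro x hx k hk
      have h1 := invSub_apply hHG huH ⟨x, hx⟩ hk
      rw [hFu', hFu'] at h1
      exact h1
    · by_contra hcon
      push Not at hcon
      apply hu0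
      apply Subtype.ext
      ext x
      rw [hFu']
      exact hcon _ x.2
    · intro x hx
      have h1 : ∀ i, iteratedDeriv 2 (fun t : ℝ => Fu ((x : Mat N) *
          NormedSpace.exp (t • g.X i))) 0 = dX (γ i) (dX (γ i) u) ⟨x, hx⟩ := fun i =>
        iterated_two (hγ i) hE u.2 hFu' ⟨x, hx⟩
      have h2 := congrArg (fun v : E => (v : G → ℝ) ⟨x, hx⟩) hu1
      have h3 : ((-∑ i, AX hE (hγ i) (AX hE (hγ i) u) : E) : G → ℝ) ⟨x, hx⟩ =
          -∑ i, dX (γ i) (dX (γ i) u) ⟨x, hx⟩ := by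
        rw [Submodule.coe_neg, Submodule.coe_sum, Pi.neg_apply, Finset.sum_apply]
        rfl
      simp only [h1]
      rw [← h3]
      refine h2.trans ?_
      show lam * (u : G → ℝ) ⟨x, hx⟩ = _
      rw [hFu']

end Pool.Agent.Y896.HS
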