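import Mathlib
import Pool.Agent.Y896.HS.B
import Pool.Agent.W544.EG.Final2

/-!
# EGS for homogeneous spaces: the main alternative
-/

open Matrix Filter Topology MeasureTheory
open scoped Matrix.Norms.Frobenius ContDiff

namespace Pool.Agent.Y896.HS

set_option linter.unusedSectionVars false
set_option linter.style.haveILetI false

open Pool.Agent.W544.EG (Mat LieAlg Gs BL IsLen IsG isG Gs_conn commutators_mem comm_BL generate
  lin_bound cr)

variable {N k : ℕ} {G H : Subgroup (unitaryGroup (Fin N) ℂ)}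

theorem isLen (g : InvMetric G H k) (L : Submodule ℝ (Mat N)) : IsLen L (qn g) where
  nonneg X _ := norm_nonneg _
  smul c X _ := by rw [qn, map_smul, norm_smul, Real.norm_eq_abs]; rfl

theorem HB_mono (g : InvMetric G H k) {s t : ℝ} (hst : s ≤ t) : HB g s ⊆ HB g t := by
  rintro x ⟨l, h1, h2, h3⟩
  exact ⟨l, h1, h2.trans hst, h3⟩

theorem BL_HB (g : InvMetric G H k) {L : Submodule ℝ (Mat N)} (hL : (L : Set (Mat N)) = LieAlg G)
    {t : ℝ} {s : Mat N} (hs : s ∈ BL L (qn g) t) {h : unitaryGroup (Fin N) ℂ} (hh : h ∈ H) :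
    s * (h : Mat N) ∈ HB g t := by
  obtain ⟨l, h1, rfl, h3⟩ := hs
  exact ⟨l, fun X hX => by rw [← hL]; exact h1 X hX, h3, h, hh, rfl⟩

/-- dense balls or small eigenvalue -/
theorem dense_or (hTS : S_TS) (hc : IsClosed (G : Set (unitaryGroup (Fin N) ℂ)))
    (hcn : IsConnected (G : Set (unitaryGroup (Fin N) ℂ))) {L : Submodule ℝ (Mat N)}
    (hL : (L : Set (Mat N)) = LieAlg G) {ε : ℝ} (hε : 0 < ε) :
    ∃ v > 0, ∀ (H : Subgroup (unitaryGroup (Fin N) ℂ)), H ≤ G →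
      IsClosed (H : Set (unitaryGroup (Fin N) ℂ)) → ∀ (k : ℕ) (g : InvMetric G H k) (t : ℝ), 0 < t →
      (∀ x ∈ Gs G, ∃ s ∈ HB g t, ‖s - x‖ < ε) ∨
      ∃ lam : ℝ, 0 < lam ∧ lam * (v * t ^ 2) ≤ 4 * k ∧ IsEigenvalue g lam := by
  letI : MeasurableSpace G := borel G
  haveI : BorelSpace G := ⟨rfl⟩
  obtain ⟨μ, hμ1, hμ2, hμ3⟩ := Pool.Agent.W345.EGT.exists_measure (G := G) hc
  have hcoe : Continuous (fun u : G => ((u : unitaryGroup (Fin N) ℂ) : Mat N)) :=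
    continuous_subtype_val.comp continuous_subtype_val
  have hG := isG hc hL
  set U : Set G := {u : G | ‖((u : unitaryGroup (Fin N) ℂ) : Mat N) - 1‖ ≤ ε / 3} with hU
  have hUcl : IsClosed U := by
    have h1 : Continuous fun u : G => ‖((u : unitaryGroup (Fin N) ℂ) : Mat N) - 1‖ :=
      (continuous_norm (E := Mat N)).comp (hcoe.sub continuous_const)
    exact isClosed_le h1 continuous_const
  have hUpos : 0 < μ.real U := by
    have h1 : IsOpen {u : G | ‖((u : unitaryGroup (Fin N) ℂ) : Mat N) - 1‖ < ε / 3} := by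
      have h1 : Continuous fun u : G => ‖((u : unitaryGroup (Fin N) ℂ) : Mat N) - 1‖ :=
        (continuous_norm (E := Mat N)).comp (hcoe.sub continuous_const)
      exact isOpen_lt h1 continuous_const
    have h2 : 0 < μ {u : G | ‖((u : unitaryGroup (Fin N) ℂ) : Mat N) - 1‖ < ε / 3} := by
      refine h1.measure_pos μ ⟨1, ?_⟩
      simp only [Set.mem_setOf_eq, OneMemClass.coe_one, sub_self, norm_zero]
      positivity
    have h3 : 0 < μ U := h2.trans_le (measure_mono fun u hu => by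
      have hu' : ‖((u : unitaryGroup (Fin N) ℂ) : Mat N) - 1‖ < ε / 3 := hu
      exact hu'.le)
    rw [Measure.real, ENNReal.toReal_pos_iff]
    exact ⟨h3, measure_lt_top _ _⟩
  refine ⟨μ.real U, hUpos, fun H hHG hH k g t ht => ?_⟩
  by_contra hcon
  push Not at hcon
  obtain ⟨⟨x, hx, hxs⟩, hno⟩ := hcon
  obtain ⟨x₀, hx₀, rfl⟩ := hx
  set U' : Set G := (fun z : G => z * (⟨x₀, hx₀⟩ : G)⁻¹) ⁻¹' U with hU'
  have hU'm : μ.real U' = μ.real U := by
    simp only [Measure.real]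
    rw [hU', measure_preimage_mul_right]
  obtain ⟨lam, h1, h2, h3⟩ := hTS N k G H hc hcn hHG hH g μ U U' hUcl.measurableSet
    ((measurable_mul_const _) hUcl.measurableSet) t (μ.real U) ht hUpos le_rfl hU'm.ge (by
      intro u hu u' hu' s hs hball
      have h4 := hxs _ (HB_mono g hs.le hball)
      have hu1 : ‖((u : unitaryGroup (Fin N) ℂ) : Mat N) - 1‖ ≤ ε / 3 := hu
      have hu2 : ‖((u' * (⟨x₀, hx₀⟩ : G)⁻¹ : G) : unitaryGroup (Fin N) ℂ).1 - 1‖ ≤ ε / 3 := hu'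
      have e1 : (((u' * (⟨x₀, hx₀⟩ : G)⁻¹ : G) : unitaryGroup (Fin N) ℂ) : Mat N) =
          ((u' : unitaryGroup (Fin N) ℂ) : Mat N) * star (x₀ : Mat N) := rfl
      have e2 : (((u⁻¹ * u' : G) : unitaryGroup (Fin N) ℂ) : Mat N) =
          star ((u : unitaryGroup (Fin N) ℂ) : Mat N) * ((u' : unitaryGroup (Fin N) ℂ) : Mat N) := rfl
      rw [e1] at hu2
      rw [e2] at h4
      have huG : ((u : unitaryGroup (Fin N) ℂ) : Mat N) ∈ Gs G := ⟨_, u.2, rfl⟩
      have hx₀G : (x₀ : Mat N) ∈ Gs G := ⟨_, hx₀, rfl⟩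
      set A := ((u : unitaryGroup (Fin N) ℂ) : Mat N) with hA
      set B := ((u' : unitaryGroup (Fin N) ℂ) : Mat N) with hB
      have h5 : ‖star A * B - (x₀ : Mat N)‖ = ‖B - A * (x₀ : Mat N)‖ := by
        rw [← hG.isom A huG, mul_sub, ← mul_assoc, hG.ms _ huG, one_mul]
      have h6 : ‖B - (x₀ : Mat N)‖ ≤ ε / 3 := by
        have : B * star (x₀ : Mat N) - 1 = (B - (x₀ : Mat N)) * star (x₀ : Mat N) := by
          rw [sub_mul, hG.ms _ hx₀G]
        rw [this, hG.isom' _ (hG.st _ hx₀G)] at hu2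
        exact hu2
      have h7 : ‖(x₀ : Mat N) - A * (x₀ : Mat N)‖ ≤ ε / 3 := by
        have : (x₀ : Mat N) - A * (x₀ : Mat N) = (1 - A) * (x₀ : Mat N) := by rw [sub_mul, one_mul]
        rw [this, hG.isom' _ hx₀G, norm_sub_rev]
        exact hu1
      have h8 : ‖B - A * (x₀ : Mat N)‖ ≤ ‖B - (x₀ : Mat N)‖ + ‖(x₀ : Mat N) - A * (x₀ : Mat N)‖ := by
        have : B - A * (x₀ : Mat N) = (B - (x₀ : Mat N)) + ((x₀ : Mat N) - A * (x₀ : Mat N)) := by abel
        rw [this]; exact norm_add_le _ _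
      rw [h5] at h4
      linarith)
  exact hno lam h1 h2 h3

/-- from dense balls of `G/H` to dense balls of `G` for the degenerate length -/
theorem dense_BL (hCH : S_CH) (hCC : S_CC) (hc : IsClosed (G : Set (unitaryGroup (Fin N) ℂ)))
    (hcn : IsConnected (G : Set (unitaryGroup (Fin N) ℂ))) {L : Submodule ℝ (Mat N)}
    (hL : (L : Set (Mat N)) = LieAlg G) (hHG : H ≤ G)
    (hH : IsClosed (H : Set (unitaryGroup (Fin N) ℂ))) {n : ℕ} (hn : 1 ≤ n)
    (hHn : Nat.card (ConnectedComponents H) ≤ n) (g : InvMetric G H k) {t ε : ℝ} (ht : 0 ≤ t)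
    (hε : 0 < ε) (hd : ∀ x ∈ Gs G, ∃ s ∈ HB g t, ‖s - x‖ < ε / (2 * n)) :
    ∀ x ∈ Gs G, ∃ s ∈ BL L (qn g) (2 * n * t), ‖s - x‖ < ε := by
  obtain ⟨_, F, hFc, hF, hFcov⟩ := hCC N H hH
  have hn0 : (0 : ℝ) < n := by exact_mod_cast hn
  have hFn : (F.card : ℝ) ≤ n := by exact_mod_cast hFc.trans hHn
  have hGs : ∀ f ∈ F, f ∈ Gs G := by
    intro f hf
    obtain ⟨u, hu, hue⟩ := hF f hf
    exact ⟨u, hHG hu, hue⟩
  have h1 := hCH N G hc hcn L hL (qn g) (isLen g L) t (ε / (2 * n)) ht (by positivity) F hGs (by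
    intro x hx
    obtain ⟨s, ⟨l, hl1, hl2, h, hh, rfl⟩, hs⟩ := hd x hx
    obtain ⟨Z, hZ, f, hf, hhf⟩ := hFcov (h : Mat N) ⟨h, hh, rfl⟩
    have hZG : Z ∈ LieAlg G := fun t => by
      obtain ⟨u, hu, hue⟩ := hZ t
      exact ⟨u, hHG hu, hue⟩
    refine ⟨(l.map NormedSpace.exp).prod * NormedSpace.exp Z, ?_, f, hf, ?_⟩
    · have e1 : (l.map NormedSpace.exp).prod ∈ BL L (qn g) t :=
        ⟨l, fun X hX => by rw [← SetLike.mem_coe, hL]; exact hl1 X hX, rfl, hl2⟩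
      have e2 : NormedSpace.exp Z ∈ BL L (qn g) 0 := by
        refine BL.exp (by rw [← SetLike.mem_coe, hL]; exact hZG) ?_
        rw [qn, (t_B N k G H hH g).2.1 Z hZ, norm_zero]
      have e3 := BL.mul e1 e2
      rwa [add_zero] at e3
    · rw [mul_assoc, ← hhf]
      exact hs)
  intro x hx
  obtain ⟨s, hs1, hs2⟩ := h1 x hx
  refine ⟨s, BL.mono ?_ hs1, hs2.trans_le ?_⟩
  · gcongr
  · calc 2 * (F.card : ℝ) * (ε / (2 * n)) ≤ 2 * (n : ℝ) * (ε / (2 * n)) := by gcongr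
      _ = ε := by field_simp

theorem exp_eq' {p : Mat N →ₗ[ℝ] Mat N} (hp : Pool.Agent.W345.EGT.Proj G p) {X : Mat N}
    (hX : X ∈ LieAlg G) :
    ∃ d ∈ ⁅G, G⁆, NormedSpace.exp X = NormedSpace.exp (p X) * (d : unitaryGroup (Fin N) ℂ) := by
  obtain ⟨d, hd, hde⟩ := hp.der X hX
  refine ⟨d, hd, ?_⟩
  rw [hde]
  have hc : Commute (p X) (X - p X) :=
    (Pool.Agent.W345.EGT.commute_lie (hp.comm _ hX) hX).sub_right (Commute.refl _)
  rw [← Matrix.exp_add_of_commute _ _ hc]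
  congr 1
  abel

theorem comb_lie (hc : IsClosed (G : Set (unitaryGroup (Fin N) ℂ))) (g : InvMetric G H k)
    (a : EuclideanSpace ℝ (Fin k)) : comb g a ∈ LieAlg G := by
  obtain ⟨L, hL⟩ := exists_lie hc
  rw [← hL]
  show (∑ i, a i • g.X i) ∈ L
  refine L.sum_mem fun i _ => L.smul_mem _ ?_
  rw [← SetLike.mem_coe, hL]
  exact g.mem i

/-- Main alternative. -/
theorem alternative (hTS : S_TS) (hT : S_T) (hCH : S_CH) (hCC : S_CC)
    (hD : Pool.Agent.W544.EG.S_D) (hc : IsClosed (G : Set (unitaryGroup (Fin N) ℂ)))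
    (hcn : IsConnected (G : Set (unitaryGroup (Fin N) ℂ))) {L : Submodule ℝ (Mat N)}
    (hL : (L : Set (Mat N)) = LieAlg G) {n : ℕ} (hn : 1 ≤ n) :
    ∃ C κ : ℝ, 0 ≤ C ∧ 1 ≤ κ ∧ ∀ (H : Subgroup (unitaryGroup (Fin N) ℂ)), H ≤ G →
      IsClosed (H : Set (unitaryGroup (Fin N) ℂ)) → Nat.card (ConnectedComponents H) ≤ n →
      ∀ (k : ℕ) (g : InvMetric G H k) (t : ℝ), 0 < t →
      (∀ x ∈ Gs G, x ∈ HB g (κ * t)) ∨
      ∃ lam : ℝ, 0 < lam ∧ lam * t ^ 2 ≤ C ∧ IsEigenvalue g lam := by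
  have hG := isG hc hL
  have hconn := Gs_conn hcn
  have hn0 : (0 : ℝ) < n := by exact_mod_cast hn
  obtain ⟨K, hK, ε, hε, hcomm⟩ := commutators_mem hG hconn (cr (G := G) (L := L))
  obtain ⟨v, hv, hdense⟩ := dense_or hTS hc hcn hL (ε := ε / (2 * n)) (by positivity)
  obtain ⟨M, p, hp1, hp2, hDcl, hw⟩ := hD N G hc hcn
  obtain ⟨CT, hCT⟩ := hT N G hc hcn p hp1 hp2 hDcl
  set D := Module.finrank ℝ (Mat N) with hDd
  refine ⟨max (4 * D / v) CT, 1 + M * (K * (2 * n)), le_max_of_le_left (by positivity), by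
    have : 0 ≤ M * (K * (2 * n)) := by positivity
    linarith, fun H hHG hH hHn k g t ht => ?_⟩
  have hmk : (k : ℝ) ≤ D := by
    have := g.indep.fintype_card_le_finrank
    have h2 : k ≤ D := by simpa using this
    exact_mod_cast h2
  rcases hdense H hHG hH k g t ht with hden | ⟨lam, h1, h2, h3⟩
  swap
  · right
    refine ⟨lam, h1, le_max_of_le_left ?_, h3⟩
    rw [le_div_iff₀ hv]
    calc lam * t ^ 2 * v = lam * (v * t ^ 2) := by ring
      _ ≤ 4 * (k : ℝ) := h2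
      _ ≤ 4 * (D : ℝ) := by linarith
  by_cases hcov : ∃ x ∈ G, ∀ a : EuclideanSpace ℝ (Fin k), ‖a‖ ≤ t → ∀ d ∈ ⁅G, G⁆, ∀ h ∈ H,
        ((x : unitaryGroup (Fin N) ℂ) : Mat N) ≠
          NormedSpace.exp (p (comb g a)) * (d : Mat N) * (h : Mat N)
  · right
    obtain ⟨lam, h1, h2, h3⟩ := hCT H hHG hH k g t ht hcov
    exact ⟨lam, h1, le_max_of_le_right h2, h3⟩
  left
  push Not at hcov
  have hq := isLen g L
  have hden' := dense_BL hCH hCC hc hcn hL hHG hH hn hHn g ht.le hε hden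
  have hDB : ∀ d ∈ ⁅G, G⁆, ((d : unitaryGroup (Fin N) ℂ) : Mat N) ∈
      BL L (qn g) (M * (K * (2 * n * t))) :=
    fun d hd => comm_BL hc hL (by positivity)
      (hcomm (qn g) hq (2 * n * t) (by positivity) hden') (hw d hd)
  have hp : Pool.Agent.W345.EGT.Proj G p := ⟨fun X hX => (hp1 X hX).1, fun X hX => (hp1 X hX).2, hp2⟩
  rintro _ ⟨x, hx, rfl⟩
  obtain ⟨a, ha, d, hd, h, hh, hxe⟩ := hcov x hx
  have haG := comb_lie hc g a
  obtain ⟨d', hd', hde⟩ := exp_eq' hp haG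
  have hd'' : ((d'⁻¹ * d : unitaryGroup (Fin N) ℂ)) ∈ ⁅G, G⁆ := mul_mem (inv_mem hd') hd
  have e1 : ((x : unitaryGroup (Fin N) ℂ) : Mat N) =
      NormedSpace.exp (comb g a) * ((d'⁻¹ * d : unitaryGroup (Fin N) ℂ) : Mat N) * (h : Mat N) := by
    rw [hxe, hde]
    have e2 : ((d'⁻¹ * d : unitaryGroup (Fin N) ℂ) : Mat N) = star (d' : Mat N) * (d : Mat N) := rfl
    rw [e2]
    have h3 := Pool.Agent.W544.EG.unit_ms d'
    congr 1
    calc NormedSpace.exp (p (comb g a)) * (d : Mat N)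
        = NormedSpace.exp (p (comb g a)) * ((d' : Mat N) * star (d' : Mat N)) * (d : Mat N) := by
          rw [h3, mul_one]
      _ = _ := by noncomm_ring
  rw [e1]
  refine BL_HB g hL ?_ hh
  have h4 : NormedSpace.exp (comb g a) ∈ BL L (qn g) t := by
    refine BL.exp (by rw [← SetLike.mem_coe, hL]; exact haG) ?_
    rw [qn, (t_B N k G H hH g).1]
    exact ha
  refine BL.mono (le_of_eq ?_) (BL.mul h4 (hDB _ hd''))
  ring

end Pool.Agent.Y896.HS
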