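import Mathlib
import Pool.Agent.Y896.HS.A

/-!
# EGS for homogeneous spaces: the torus part
-/

set_option autoImplicit false

open Matrix MeasureTheory
open scoped Matrix.Norms.Frobenius ContDiff

namespace Pool.Agent.Y896.HS

open Pool.Agent.W544.EG (Mat LieAlg Gs)
open Pool.Agent.W345.EGT (Proj commute_lie exists_cover mem_of_lat exists_measure)

variable {N : ℕ} {G H : Subgroup (unitaryGroup (Fin N) ℂ)} {m : ℕ} {p : Mat N →ₗ[ℝ] Mat N}

/-- `θ a = exp (p (∑ aᵢ Xᵢ))` -/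
noncomputable def th (p : Mat N →ₗ[ℝ] Mat N) (g : InvMetric G H m)
    (a : EuclideanSpace ℝ (Fin m)) : Mat N := NormedSpace.exp (p (comb g a))

theorem th_add (hG : IsClosed (G : Set (unitaryGroup (Fin N) ℂ))) (hp : Proj G p)
    (g : InvMetric G H m) (a b : EuclideanSpace ℝ (Fin m)) :
    th p g (a + b) = th p g a * th p g b := by
  unfold th
  rw [map_add, map_add]
  have hc : Commute (p (comb g a)) (p (comb g b)) :=
    commute_lie (hp.comm _ (comb_lie hG g a)) (hp.mem _ (comb_lie hG g b))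
  exact Matrix.exp_add_of_commute _ _ hc

theorem th_zero (g : InvMetric G H m) : th p g 0 = 1 := by
  unfold th
  simp

theorem th_mem (hG : IsClosed (G : Set (unitaryGroup (Fin N) ℂ))) (hp : Proj G p)
    (g : InvMetric G H m) (a : EuclideanSpace ℝ (Fin m)) :
    ∃ u ∈ G, ((u : unitaryGroup (Fin N) ℂ) : Mat N) = th p g a := by
  obtain ⟨u, hu, hue⟩ := hp.mem _ (comb_lie hG g a) 1
  exact ⟨u, hu, by rw [hue, one_smul]; rfl⟩

theorem th_comm (hG : IsClosed (G : Set (unitaryGroup (Fin N) ℂ))) (hp : Proj G p)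
    (g : InvMetric G H m) (a : EuclideanSpace ℝ (Fin m))
    {u : unitaryGroup (Fin N) ℂ} (hu : u ∈ G) : (u : Mat N) * th p g a = th p g a * u := by
  have h := hp.comm _ (comb_lie hG g a) u hu
  exact (Commute.exp_right (show Commute (u : Mat N) (p (comb g a)) from h) :)

/-- the subgroup `[G,G] H`, as a set -/
def DH (G H : Subgroup (unitaryGroup (Fin N) ℂ)) : Set (unitaryGroup (Fin N) ℂ) :=
  {z | ∃ d ∈ ⁅G, G⁆, ∃ h ∈ H, z = d * h}

theorem comm_le : ⁅G, G⁆ ≤ G := Subgroup.commutator_le_self G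

theorem comm_conj {d h : unitaryGroup (Fin N) ℂ} (hd : d ∈ ⁅G, G⁆) (hh : h ∈ G) :
    h * d * h⁻¹ ∈ ⁅G, G⁆ := by
  have h1 : h * d * h⁻¹ * d⁻¹ ∈ ⁅G, G⁆ := Subgroup.commutator_mem_commutator hh (comm_le hd)
  have h2 := mul_mem h1 hd
  rwa [inv_mul_cancel_right] at h2

theorem DH_mul (hHG : H ≤ G) {z w : unitaryGroup (Fin N) ℂ} (hz : z ∈ DH G H) (hw : w ∈ DH G H) :
    z * w ∈ DH G H := by
  obtain ⟨d, hd, h, hh, rfl⟩ := hz
  obtain ⟨d', hd', h', hh', rfl⟩ := hw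
  refine ⟨d * (h * d' * h⁻¹), mul_mem hd (comm_conj hd' (hHG hh)), h * h', mul_mem hh hh', ?_⟩
  group

theorem DH_inv (hHG : H ≤ G) {z : unitaryGroup (Fin N) ℂ} (hz : z ∈ DH G H) : z⁻¹ ∈ DH G H := by
  obtain ⟨d, hd, h, hh, rfl⟩ := hz
  refine ⟨h⁻¹ * d⁻¹ * (h⁻¹)⁻¹, comm_conj (inv_mem hd) (hHG (inv_mem hh)), h⁻¹, inv_mem hh, ?_⟩
  group

theorem DH_le (hHG : H ≤ G) {z : unitaryGroup (Fin N) ℂ} (hz : z ∈ DH G H) : z ∈ G := by
  obtain ⟨d, hd, h, hh, rfl⟩ := hz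
  exact mul_mem (comm_le hd) (hHG hh)

theorem DH_one : (1 : unitaryGroup (Fin N) ℂ) ∈ DH G H :=
  ⟨1, one_mem _, 1, one_mem _, (mul_one _).symm⟩

/-- `A(s)` -/
def A (p : Mat N →ₗ[ℝ] Mat N) (g : InvMetric G H m) (s : ℝ) : Set G :=
  {x | ∃ a : EuclideanSpace ℝ (Fin m), ‖a‖ ≤ s ∧ ∃ d ∈ DH G H,
    ((x : unitaryGroup (Fin N) ℂ) : Mat N) = th p g a * (d : unitaryGroup (Fin N) ℂ)}

theorem A_mono (g : InvMetric G H m) {s t : ℝ} (h : s ≤ t) : A p g s ⊆ A p g t := by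
  rintro x ⟨a, ha, d, hd, hx⟩
  exact ⟨a, ha.trans h, d, hd, hx⟩

theorem A_mul (hG : IsClosed (G : Set (unitaryGroup (Fin N) ℂ))) (hHG : H ≤ G) (hp : Proj G p)
    (g : InvMetric G H m) {s t : ℝ} {x y : G} (hx : x ∈ A p g s)
    (hy : y ∈ A p g t) : x * y ∈ A p g (s + t) := by
  obtain ⟨a, ha, d, hd, hx⟩ := hx
  obtain ⟨b, hb, e, he, hy⟩ := hy
  refine ⟨a + b, (norm_add_le _ _).trans (add_le_add ha hb), d * e, DH_mul hHG hd he, ?_⟩
  have h1 : (((x * y : G) : unitaryGroup (Fin N) ℂ) : Mat N) =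
      ((x : unitaryGroup (Fin N) ℂ) : Mat N) * ((y : unitaryGroup (Fin N) ℂ) : Mat N) := rfl
  have h2 : ((d * e : unitaryGroup (Fin N) ℂ) : Mat N) = (d : Mat N) * (e : Mat N) := rfl
  rw [h1, h2, hx, hy, th_add hG hp]
  have h3 := th_comm hG hp g b (DH_le hHG hd)
  calc th p g a * (d : Mat N) * (th p g b * (e : Mat N))
      = th p g a * ((d : Mat N) * th p g b) * (e : Mat N) := by simp only [mul_assoc]
    _ = th p g a * (th p g b * d) * (e : Mat N) := by rw [h3]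
    _ = th p g a * th p g b * (↑d * ↑e) := by simp only [mul_assoc]

theorem A_inv (hG : IsClosed (G : Set (unitaryGroup (Fin N) ℂ))) (hHG : H ≤ G) (hp : Proj G p)
    (g : InvMetric G H m) {s : ℝ} {x : G} (hx : x ∈ A p g s) :
    x⁻¹ ∈ A p g s := by
  obtain ⟨a, ha, d, hd, hx⟩ := hx
  refine ⟨-a, by rwa [norm_neg], d⁻¹, DH_inv hHG hd, ?_⟩
  have h0 : th p g (-a) * th p g a = 1 := by
    rw [← th_add hG hp, neg_add_cancel, th_zero]
  have h1 : (((x⁻¹ : G) : unitaryGroup (Fin N) ℂ) : Mat N) * ((x : unitaryGroup (Fin N) ℂ) : Mat N) = 1 := by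
    have : ((x⁻¹ * x : G) : unitaryGroup (Fin N) ℂ) = 1 := by simp
    exact congrArg (fun u : unitaryGroup (Fin N) ℂ => (u : Mat N)) this
  have h2 : ((d⁻¹ : unitaryGroup (Fin N) ℂ) : Mat N) * (d : Mat N) = 1 := by
    have : (d⁻¹ * d : unitaryGroup (Fin N) ℂ) = 1 := by simp
    exact congrArg (fun u : unitaryGroup (Fin N) ℂ => (u : Mat N)) this
  have h2' : (d : Mat N) * ((d⁻¹ : unitaryGroup (Fin N) ℂ) : Mat N) = 1 := by
    have : (d * d⁻¹ : unitaryGroup (Fin N) ℂ) = 1 := by simp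
    exact congrArg (fun u : unitaryGroup (Fin N) ℂ => (u : Mat N)) this
  have h3 := th_comm hG hp g (-a) (DH_le hHG (DH_inv hHG hd))
  have h4 : th p g (-a) * ((d⁻¹ : unitaryGroup (Fin N) ℂ) : Mat N) * ((x : unitaryGroup (Fin N) ℂ) : Mat N) = 1 := by
    rw [hx, ← h3]
    calc ((d⁻¹ : unitaryGroup (Fin N) ℂ) : Mat N) * th p g (-a) * (th p g a * (d : Mat N))
        = ((d⁻¹ : unitaryGroup (Fin N) ℂ) : Mat N) * (th p g (-a) * th p g a) * (d : Mat N) := by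
          simp only [mul_assoc]
      _ = 1 := by rw [h0, mul_one, h2]
  have h5 : ((x : unitaryGroup (Fin N) ℂ) : Mat N) * (((x⁻¹ : G) : unitaryGroup (Fin N) ℂ) : Mat N) = 1 := by
    have : ((x * x⁻¹ : G) : unitaryGroup (Fin N) ℂ) = 1 := by simp
    exact congrArg (fun u : unitaryGroup (Fin N) ℂ => (u : Mat N)) this
  exact left_inv_eq_right_inv h1 h5 |>.trans (left_inv_eq_right_inv h4 h5).symm |> fun h => by
    simpa using h

/-- one exponential -/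
theorem exp_A (hG : IsClosed (G : Set (unitaryGroup (Fin N) ℂ))) (hHG : H ≤ G)
    (hH : IsClosed (H : Set (unitaryGroup (Fin N) ℂ))) (hp : Proj G p) (g : InvMetric G H m)
    {X : Mat N} (hX : X ∈ LieAlg G) (x : G)
    (hx : ((x : unitaryGroup (Fin N) ℂ) : Mat N) = NormedSpace.exp X) : x ∈ A p g (qn g X) := by
  obtain ⟨d, hd, hde⟩ := exp_eq' hp hX
  have hZ := (t_B N m G H hH g).2.2.1 X hX
  set Z := X - comb g (crd g X) with hZd
  have hZG : Z ∈ LieAlg G := fun t => by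
    obtain ⟨u, hu, hue⟩ := hZ t
    exact ⟨u, hHG hu, hue⟩
  obtain ⟨d', hd', hde'⟩ := exp_eq' hp hZG
  obtain ⟨z, hz, hze⟩ := hZ 1
  rw [one_smul] at hze
  -- `exp (p X) = th (crd X) * z * d'⁻¹`
  have hpX : p X = p (comb g (crd g X)) + p Z := by
    rw [← map_add]
    congr 1
    rw [hZd]
    abel
  have hc : Commute (p (comb g (crd g X))) (p Z) :=
    commute_lie (hp.comm _ (comb_lie hG g _)) (hp.mem _ hZG)
  have h1 : NormedSpace.exp (p X) = th p g (crd g X) * NormedSpace.exp (p Z) := by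
    rw [hpX]
    exact Matrix.exp_add_of_commute _ _ hc
  have h2 : NormedSpace.exp (p Z) = (z : Mat N) * ((d'⁻¹ : unitaryGroup (Fin N) ℂ) : Mat N) := by
    have h3 : (d' : Mat N) * ((d'⁻¹ : unitaryGroup (Fin N) ℂ) : Mat N) = 1 := by
      have : (d' * d'⁻¹ : unitaryGroup (Fin N) ℂ) = 1 := by simp
      exact congrArg (fun u : unitaryGroup (Fin N) ℂ => (u : Mat N)) this
    rw [hze, hde', mul_assoc, h3, mul_one]
  refine ⟨crd g X, le_rfl, (z * d'⁻¹ * z⁻¹ * (z * d * z⁻¹)) * z,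
    ⟨z * d'⁻¹ * z⁻¹ * (z * d * z⁻¹), mul_mem (comm_conj (inv_mem hd') (hHG hz))
      (comm_conj hd (hHG hz)), z, hz, rfl⟩, ?_⟩
  have h4 : (z * d'⁻¹ * z⁻¹ * (z * d * z⁻¹)) * z = z * d'⁻¹ * d := by group
  rw [h4, hx, hde, h1, h2]
  have h5 : ((z * d'⁻¹ * d : unitaryGroup (Fin N) ℂ) : Mat N) =
      (z : Mat N) * ((d'⁻¹ : unitaryGroup (Fin N) ℂ) : Mat N) * (d : Mat N) := rfl
  rw [h5]
  simp only [mul_assoc]

theorem HB_A (hG : IsClosed (G : Set (unitaryGroup (Fin N) ℂ))) (hHG : H ≤ G)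
    (hH : IsClosed (H : Set (unitaryGroup (Fin N) ℂ))) (hp : Proj G p) (g : InvMetric G H m)
    {h : unitaryGroup (Fin N) ℂ} (hh : h ∈ H) :
    ∀ (l : List (Mat N)) (_ : ∀ X ∈ l, X ∈ LieAlg G) (x : G),
      ((x : unitaryGroup (Fin N) ℂ) : Mat N) = (l.map NormedSpace.exp).prod * (h : Mat N) →
      x ∈ A p g (l.map (qn g)).sum := by
  intro l
  induction l with
  | nil =>
    intro _ x hx
    refine ⟨0, by simp, h, ⟨1, one_mem _, h, hh, (one_mul _).symm⟩, ?_⟩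
    rw [hx, th_zero]
    rfl
  | cons X l ih =>
    intro hl x hx
    have hX := hl X (by simp)
    obtain ⟨u, hu, hue⟩ := hX 1
    rw [one_smul] at hue
    have hx2 : ((((⟨u, hu⟩ : G)⁻¹ * x : G) : unitaryGroup (Fin N) ℂ) : Mat N) =
        (l.map NormedSpace.exp).prod * (h : Mat N) := by
      have h1 : ((((⟨u, hu⟩ : G)⁻¹ * x : G) : unitaryGroup (Fin N) ℂ) : Mat N) =
        ((u⁻¹ : unitaryGroup (Fin N) ℂ) : Mat N) * ((x : unitaryGroup (Fin N) ℂ) : Mat N) := rfl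
      have h2 : ((u⁻¹ : unitaryGroup (Fin N) ℂ) : Mat N) * (u : Mat N) = 1 := by
        have : (u⁻¹ * u : unitaryGroup (Fin N) ℂ) = 1 := by simp
        exact congrArg (fun u : unitaryGroup (Fin N) ℂ => (u : Mat N)) this
      rw [h1, hx, List.map_cons, List.prod_cons, ← hue, ← mul_assoc, ← mul_assoc, h2, one_mul]
    have h3 := ih (fun Y hY => hl Y (by simp [hY])) _ hx2
    have h4 : (⟨u, hu⟩ : G) ∈ A p g (qn g X) := exp_A hG hHG hH hp g hX _ hue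
    have h5 := A_mul hG hHG hp g h4 h3
    rw [mul_inv_cancel_left] at h5
    simpa using h5

theorem mem_A_of_HB (hG : IsClosed (G : Set (unitaryGroup (Fin N) ℂ))) (hHG : H ≤ G)
    (hH : IsClosed (H : Set (unitaryGroup (Fin N) ℂ))) (hp : Proj G p) (g : InvMetric G H m)
    {s : ℝ} (x : G) (hx : ((x : unitaryGroup (Fin N) ℂ) : Mat N) ∈ HB g s) : x ∈ A p g s := by
  obtain ⟨l, hl, hs, h, hh, hxe⟩ := hx
  exact A_mono g hs (HB_A hG hHG hH hp g hh l hl x hxe)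

/-- every element lies in some `A(n)` -/
theorem exists_A (hG : IsClosed (G : Set (unitaryGroup (Fin N) ℂ)))
    (hc : IsConnected (G : Set (unitaryGroup (Fin N) ℂ))) (hHG : H ≤ G)
    (hH : IsClosed (H : Set (unitaryGroup (Fin N) ℂ))) (hp : Proj G p)
    (g : InvMetric G H m) (x : G) : ∃ n : ℕ, x ∈ A p g n := by
  obtain ⟨X, hX, hXe⟩ := Pool.LatH472.TTL Pool.LatH472.CST1
    (Pool.LatH472.CST2 Pool.LatH472.CST1) (Fin N) G hG hc x.1 x.2
  obtain ⟨n, hn⟩ := exists_nat_ge (qn g X)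
  exact ⟨n, A_mono g hn (exp_A hG hHG hH hp g (mem_of_lat hX) x hXe.symm)⟩

end Pool.Agent.Y896.HS
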