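import Mathlib
import Pool.Agent.Y896.HS.T1

/-!
# EGS for homogeneous spaces: the torus part, the proof of `S_T`
-/

set_option autoImplicit false

open Matrix MeasureTheory
open scoped Matrix.Norms.Frobenius ContDiff

namespace Pool.Agent.Y896.HS

open Pool.Agent.W544.EG (Mat LieAlg Gs)
open Pool.Agent.W345.EGT (Proj commute_lie exists_cover mem_of_lat exists_measure)

variable {N : ℕ} {G H : Subgroup (unitaryGroup (Fin N) ℂ)} {m : ℕ} {p : Mat N →ₗ[ℝ] Mat N}

theorem continuous_th (g : InvMetric G H m) : Continuous (th p g) := by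
  unfold th
  have h1 : Continuous (comb g) := (comb g).continuous_of_finiteDimensional
  have h2 : Continuous p := p.continuous_of_finiteDimensional
  exact NormedSpace.exp_continuous.comp (h2.comp h1)

theorem isCompact_A (hG : IsClosed (G : Set (unitaryGroup (Fin N) ℂ)))
    (hH : IsClosed (H : Set (unitaryGroup (Fin N) ℂ)))
    (hD : IsClosed ((⁅G, G⁆ : Subgroup (unitaryGroup (Fin N) ℂ)) : Set (unitaryGroup (Fin N) ℂ)))
    (g : InvMetric G H m) (s : ℝ) : IsCompact (A p g s) := by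
  haveI : CompactSpace (unitaryGroup (Fin N) ℂ) := Pool.LatH472.TTL_compact
  have hDc : IsCompact ((⁅G, G⁆ : Subgroup (unitaryGroup (Fin N) ℂ)) : Set (unitaryGroup (Fin N) ℂ)) :=
    hD.isCompact
  have hHc : IsCompact (H : Set (unitaryGroup (Fin N) ℂ)) := hH.isCompact
  have hK : IsCompact ((Metric.closedBall (0 : EuclideanSpace ℝ (Fin m)) s) ×ˢ
      (((⁅G, G⁆ : Subgroup (unitaryGroup (Fin N) ℂ)) : Set (unitaryGroup (Fin N) ℂ)) ×ˢ
        (H : Set (unitaryGroup (Fin N) ℂ)))) :=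
    (isCompact_closedBall _ _).prod (hDc.prod hHc)
  have hcont : Continuous fun q : EuclideanSpace ℝ (Fin m) ×
      (unitaryGroup (Fin N) ℂ × unitaryGroup (Fin N) ℂ) =>
      th p g q.1 * ((q.2.1 * q.2.2 : unitaryGroup (Fin N) ℂ) : Mat N) := by
    refine ((continuous_th g).comp continuous_fst).mul (continuous_subtype_val.comp ?_)
    exact (continuous_fst.comp continuous_snd).mul (continuous_snd.comp continuous_snd)
  have him := hK.image hcont
  -- preimage under the closed embedding `G → Mat`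
  have hemb : Topology.IsClosedEmbedding (fun x : G => ((x : unitaryGroup (Fin N) ℂ) : Mat N)) := by
    haveI : CompactSpace G := isCompact_iff_compactSpace.1 hG.isCompact
    refine (Continuous.isClosedEmbedding (continuous_subtype_val.comp continuous_subtype_val) ?_)
    exact Subtype.val_injective.comp Subtype.val_injective
  have : A p g s = (fun x : G => ((x : unitaryGroup (Fin N) ℂ) : Mat N)) ⁻¹'
      ((fun q : EuclideanSpace ℝ (Fin m) × (unitaryGroup (Fin N) ℂ × unitaryGroup (Fin N) ℂ) =>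
      th p g q.1 * ((q.2.1 * q.2.2 : unitaryGroup (Fin N) ℂ) : Mat N)) ''
        ((Metric.closedBall (0 : EuclideanSpace ℝ (Fin m)) s) ×ˢ
      (((⁅G, G⁆ : Subgroup (unitaryGroup (Fin N) ℂ)) : Set (unitaryGroup (Fin N) ℂ)) ×ˢ
        (H : Set (unitaryGroup (Fin N) ℂ))))) := by
    ext x
    constructor
    · rintro ⟨a, ha, _, ⟨d, hd, h, hh, rfl⟩, hx⟩
      exact ⟨(a, (d, h)), ⟨by simpa using ha, hd, hh⟩, hx.symm⟩
    · rintro ⟨⟨a, d, h⟩, ⟨ha, hd, hh⟩, hx⟩
      exact ⟨a, by simpa using ha, d * h, ⟨d, hd, h, hh, rfl⟩, hx.symm⟩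
  rw [this]
  exact hemb.isCompact_preimage him

section measure

variable [MeasurableSpace G] [BorelSpace G] (μ : Measure G) [IsProbabilityMeasure μ]
    [μ.IsMulRightInvariant]

/-- doubling -/
theorem doubling (hG : IsClosed (G : Set (unitaryGroup (Fin N) ℂ))) (hHG : H ≤ G)
    (hp : Proj G p) (g : InvMetric G H m) {s : ℝ} (hs : 0 < s) :
    μ.real (A p g (2 * s)) ≤ 5 ^ m * μ.real (A p g s) := by
  classical
  obtain ⟨J, hJ, hcov⟩ := exists_cover m s hs
  choose u hu hue using fun c : EuclideanSpace ℝ (Fin m) => th_mem hG hp g c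
  have hsub : A p g (2 * s) ⊆ ⋃ c ∈ J, (fun x : G => x * (⟨u c, hu c⟩ : G)⁻¹) ⁻¹' (A p g s) := by
    rintro x ⟨a, ha, d, hd, hx⟩
    obtain ⟨c, hc, hac⟩ := hcov a ha
    simp only [Set.mem_iUnion]
    refine ⟨c, hc, a - c, hac, d, hd, ?_⟩
    have h1 : (((x * (⟨u c, hu c⟩ : G)⁻¹ : G) : unitaryGroup (Fin N) ℂ) : Mat N) =
        ((x : unitaryGroup (Fin N) ℂ) : Mat N) * (((u c)⁻¹ : unitaryGroup (Fin N) ℂ) : Mat N) := rfl
    have h2 : (u c : Mat N) * (((u c)⁻¹ : unitaryGroup (Fin N) ℂ) : Mat N) = 1 := by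
      have : (u c * (u c)⁻¹ : unitaryGroup (Fin N) ℂ) = 1 := by simp
      exact congrArg (fun u : unitaryGroup (Fin N) ℂ => (u : Mat N)) this
    have h3 : th p g a = th p g (a - c) * th p g c := by
      rw [← th_add hG hp, sub_add_cancel]
    have h4 := th_comm hG hp g c (DH_le hHG hd)
    rw [h1, hx, h3]
    calc th p g (a - c) * th p g c * (d : Mat N) * (((u c)⁻¹ : unitaryGroup (Fin N) ℂ) : Mat N)
        = th p g (a - c) * (th p g c * (d : Mat N)) * (((u c)⁻¹ : unitaryGroup (Fin N) ℂ) : Mat N) := by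
          simp only [mul_assoc]
      _ = th p g (a - c) * ((d : Mat N) * th p g c) * (((u c)⁻¹ : unitaryGroup (Fin N) ℂ) : Mat N) := by
          rw [h4]
      _ = th p g (a - c) * (d : Mat N) * (th p g c * (((u c)⁻¹ : unitaryGroup (Fin N) ℂ) : Mat N)) := by
          simp only [mul_assoc]
      _ = th p g (a - c) * (d : Mat N) := by
          rw [← hue c, h2, mul_one]
  calc μ.real (A p g (2 * s))
      ≤ μ.real (⋃ c ∈ J, (fun x : G => x * (⟨u c, hu c⟩ : G)⁻¹) ⁻¹' (A p g s)) :=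
        measureReal_mono hsub (measure_ne_top _ _)
    _ ≤ ∑ c ∈ J, μ.real ((fun x : G => x * (⟨u c, hu c⟩ : G)⁻¹) ⁻¹' (A p g s)) :=
        measureReal_biUnion_finset_le _ _
    _ = ∑ c ∈ J, μ.real (A p g s) := by
        refine Finset.sum_congr rfl fun c _ => ?_
        simp only [Measure.real]
        rw [measure_preimage_mul_right]
    _ = J.card * μ.real (A p g s) := by rw [Finset.sum_const, nsmul_eq_mul]
    _ ≤ 5 ^ m * μ.real (A p g s) := by
        gcongr
        exact_mod_cast hJ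

include μ in
/-- `A(R)` is everything for large `R` -/
theorem exists_univ (hG : IsClosed (G : Set (unitaryGroup (Fin N) ℂ)))
    (hc : IsConnected (G : Set (unitaryGroup (Fin N) ℂ))) (hHG : H ≤ G)
    (hH : IsClosed (H : Set (unitaryGroup (Fin N) ℂ))) (hp : Proj G p)
    (hD : IsClosed ((⁅G, G⁆ : Subgroup (unitaryGroup (Fin N) ℂ)) : Set (unitaryGroup (Fin N) ℂ)))
    (g : InvMetric G H m) : ∃ R : ℝ, 0 < R ∧ A p g R = Set.univ := by
  have hmono : Monotone fun n : ℕ => A p g n := fun a b hab => A_mono g (by exact_mod_cast hab)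
  have hU : (⋃ n : ℕ, A p g n) = Set.univ := by
    rw [Set.eq_univ_iff_forall]
    intro x
    obtain ⟨n, hn⟩ := exists_A hG hc hHG hH hp g x
    exact Set.mem_iUnion.2 ⟨n, hn⟩
  have hlim := tendsto_measure_iUnion_atTop (μ := μ) hmono
  rw [hU, measure_univ] at hlim
  have hev := hlim.eventually (lt_mem_nhds (show (1 / 2 : ENNReal) < 1 by
    exact ENNReal.half_lt_self (by simp) (by simp)))
  obtain ⟨n, hn⟩ := hev.exists
  have hn' : (1 / 2 : ENNReal) < μ (A p g n) := hn
  refine ⟨2 * (n + 1 : ℝ), by positivity, ?_⟩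
  rw [Set.eq_univ_iff_forall]
  intro x
  -- `A(n)` and `A(n) x` intersect
  have hmeas : MeasurableSet (A p g n) := (isCompact_A hG hH hD g n).measurableSet
  by_contra hx
  have hdisj : Disjoint (A p g n) ((fun y : G => y * x⁻¹) ⁻¹' (A p g n)) := by
    rw [Set.disjoint_left]
    intro y hy hy2
    apply hx
    have h1 := A_inv hG hHG hp g hy2
    have h2 := A_mul hG hHG hp g h1 hy
    have h3 : (y * x⁻¹)⁻¹ * y = x := by group
    rw [h3] at h2
    exact A_mono g (by linarith) h2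
  have h4 : μ (A p g n ∪ (fun y : G => y * x⁻¹) ⁻¹' (A p g n)) = μ (A p g n) + μ (A p g n) := by
    rw [measure_union' hdisj hmeas, measure_preimage_mul_right]
  have h5 : μ (A p g n ∪ (fun y : G => y * x⁻¹) ⁻¹' (A p g n)) ≤ 1 := prob_le_one
  rw [h4] at h5
  have h6 : (1 : ENNReal) < μ (A p g n) + μ (A p g n) := by
    calc (1 : ENNReal) = 1 / 2 + 1 / 2 := (ENNReal.add_halves 1).symm
      _ < μ (A p g n) + μ (A p g n) := ENNReal.add_lt_add hn' hn'
  exact absurd h5 (not_le.2 h6)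

end measure

theorem t_T (hTS : S_TS) : S_T := by
  intro N G hG hc p hp1 hp2 hD
  have hp : Proj G p := ⟨fun X hX => (hp1 X hX).1, fun X hX => (hp1 X hX).2, hp2⟩
  set K := Module.finrank ℝ (Mat N) with hK
  refine ⟨16 * K * 5 ^ (3 * K), ?_⟩
  rintro H hHG hH m g r hr ⟨x, hx, hxr⟩
  have hmK : m ≤ K := by
    have := g.indep.fintype_card_le_finrank
    simpa using this
  letI : MeasurableSpace G := borel G
  haveI : BorelSpace G := ⟨rfl⟩
  obtain ⟨μ, hμ1, hμ2, hμ3⟩ := exists_measure (G := G) hG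
  obtain ⟨R₀, hR₀, hR₀u⟩ := exists_univ μ hG hc hHG hH hp hD g
  have hxA : (⟨x, hx⟩ : G) ∉ A p g r := by
    rintro ⟨a, ha, _, ⟨d, hd, h, hh, rfl⟩, h2⟩
    refine hxr a ha d hd h hh ?_
    rw [mul_assoc]
    exact h2
  -- the first power of two
  have hex : ∃ k : ℕ, A p g (r * 2 ^ k) = Set.univ := by
    obtain ⟨k, hk⟩ := pow_unbounded_of_one_lt (R₀ / r) (one_lt_two)
    refine ⟨k, ?_⟩
    rw [Set.eq_univ_iff_forall]
    intro y
    have : y ∈ A p g R₀ := by rw [hR₀u]; trivial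
    refine A_mono g ?_ this
    rw [div_lt_iff₀ hr] at hk
    linarith
  classical
  obtain ⟨k, hk1, hk2⟩ : ∃ k : ℕ, A p g (r * 2 ^ (k + 1)) = Set.univ ∧ A p g (r * 2 ^ k) ≠ Set.univ := by
    have hne : Nat.find hex ≠ 0 := by
      intro h0
      have := Nat.find_spec hex
      rw [h0, pow_zero, mul_one] at this
      apply hxA
      rw [this]
      trivial
    obtain ⟨k, hk⟩ := Nat.exists_eq_succ_of_ne_zero hne
    refine ⟨k, ?_, ?_⟩
    · have := Nat.find_spec hex
      rwa [hk] at this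
    · exact Nat.find_min hex (by omega)
  set R := r * 2 ^ (k + 1) with hR
  have hRr : 2 * r ≤ R := by
    rw [hR, pow_succ]
    have : (1 : ℝ) ≤ 2 ^ k := one_le_pow₀ one_le_two
    nlinarith
  have hRpos : 0 < R := by linarith
  have hR2 : A p g (R / 2) ≠ Set.univ := by
    have : R / 2 = r * 2 ^ k := by
      rw [hR, pow_succ]
      ring
    rwa [this]
  obtain ⟨y, hy⟩ := (Set.ne_univ_iff_exists_notMem _).1 hR2
  have hd1 := doubling μ hG hHG hp g (s := R / 2) (by linarith)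
  have hd2 := doubling μ hG hHG hp g (s := R / 4) (by linarith)
  have hd3 := doubling μ hG hHG hp g (s := R / 8) (by linarith)
  rw [show 2 * (R / 2) = R by ring, hk1, probReal_univ] at hd1
  rw [show 2 * (R / 4) = R / 2 by ring] at hd2
  rw [show 2 * (R / 8) = R / 4 by ring] at hd3
  have h5 : (0 : ℝ) < 5 ^ m := by positivity
  have hv : 1 ≤ 5 ^ (3 * m) * μ.real (A p g (R / 8)) := by
    have e : (5 : ℝ) ^ (3 * m) = 5 ^ m * (5 ^ m * 5 ^ m) := by
      rw [← pow_add, ← pow_add]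
      congr 1
      ring
    rw [e]
    calc (1 : ℝ) ≤ 5 ^ m * μ.real (A p g (R / 2)) := hd1
      _ ≤ 5 ^ m * (5 ^ m * μ.real (A p g (R / 4))) := by gcongr
      _ ≤ 5 ^ m * (5 ^ m * (5 ^ m * μ.real (A p g (R / 8)))) := by gcongr
      _ = 5 ^ m * (5 ^ m * 5 ^ m) * μ.real (A p g (R / 8)) := by ring
  set v : ℝ := (5 ^ (3 * m))⁻¹ with hvdef
  have h53 : (0 : ℝ) < 5 ^ (3 * m) := by positivity
  have hvpos : 0 < v := by positivity
  have hv1 : v ≤ μ.real (A p g (R / 8)) := by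
    rw [hvdef, inv_le_iff_one_le_mul₀ h53]
    linarith
  have hmeas : MeasurableSet (A p g (R / 8)) := (isCompact_A hG hH hD g _).measurableSet
  have hmeas' : MeasurableSet ((fun z : G => z * y⁻¹) ⁻¹' (A p g (R / 8))) :=
    (measurable_mul_const y⁻¹) hmeas
  have hv2 : v ≤ μ.real ((fun z : G => z * y⁻¹) ⁻¹' (A p g (R / 8))) := by
    have : μ.real ((fun z : G => z * y⁻¹) ⁻¹' (A p g (R / 8))) = μ.real (A p g (R / 8)) := by
      simp only [Measure.real]
      rw [measure_preimage_mul_right]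
    rw [this]
    exact hv1
  obtain ⟨lam, hl1, hl2, hl3⟩ := hTS N m G H hG hc hHG hH g μ (A p g (R / 8))
    ((fun z : G => z * y⁻¹) ⁻¹' (A p g (R / 8))) hmeas hmeas' (R / 4) v (by linarith) hvpos hv1 hv2
    (by
      intro a ha b hb s hs hball
      have h1 := mem_A_of_HB hG hHG hH hp g (a⁻¹ * b) hball
      have h2 : b * y⁻¹ ∈ A p g (R / 8) := hb
      have h3 := A_mul hG hHG hp g (A_mul hG hHG hp g (A_inv hG hHG hp g h2) ha) h1
      have h4 : (b * y⁻¹)⁻¹ * a * (a⁻¹ * b) = y := by group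
      rw [h4] at h3
      exact hy (A_mono g (by linarith) h3))
  refine ⟨lam, hl1, ?_, hl3⟩
  have h6 : lam * R ^ 2 ≤ 64 * m * 5 ^ (3 * m) := by
    have h7 : lam * (v * (R / 4) ^ 2) * (16 * 5 ^ (3 * m)) ≤ 4 * m * (16 * 5 ^ (3 * m)) := by
      gcongr
    have h8 : lam * (v * (R / 4) ^ 2) * (16 * 5 ^ (3 * m)) = lam * R ^ 2 := by
      rw [hvdef]
      field_simp
      ring
    rw [h8] at h7
    linarith
  have h9 : lam * r ^ 2 ≤ 16 * m * 5 ^ (3 * m) := by
    have : (2 * r) ^ 2 ≤ R ^ 2 := by gcongr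
    nlinarith
  calc lam * r ^ 2 ≤ 16 * m * 5 ^ (3 * m) := h9
    _ ≤ 16 * K * 5 ^ (3 * K) := by
      have : (m : ℝ) ≤ K := by exact_mod_cast hmK
      gcongr
      norm_num

end Pool.Agent.Y896.HS
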