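import Mathlib
import Pool.Agent.Y896.HS.B
import Pool.Agent.W544.EG.Final2

/-!
# EGS for homogeneous spaces: two separated sets give a small eigenvalue
-/

open Matrix MeasureTheory Topology
open scoped Matrix.Norms.Frobenius ContDiff

namespace Pool.Agent.Y896.HS

open Pool.Agent.W544.EG (Mat LieAlg Gs isG lin_bound)

variable {N m : ℕ} {G H : Subgroup (unitaryGroup (Fin N) ℂ)}

/-- the matrix of an element of `G` -/
def cm (x : G) : Mat N := ((x : unitaryGroup (Fin N) ℂ) : Mat N)

lemma cm_mul (x y : G) : cm (x * y) = cm x * cm y := rfl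

lemma cm_one : cm (1 : G) = 1 := rfl

lemma continuous_cm : Continuous (cm : G → Mat N) :=
  continuous_subtype_val.comp continuous_subtype_val

/-- the distances to `U` -/
def DD (g : InvMetric G H m) (U : Set G) (x : G) : Set ℝ :=
  {s | 0 ≤ s ∧ ∃ u ∈ U, cm (u⁻¹ * x) ∈ HB g s}

/-- the truncated distance to `U` -/
noncomputable def ff (g : InvMetric G H m) (U : Set G) (T : ℝ) (x : G) : ℝ :=
  sInf (insert T (DD g U x))

theorem HB_one (g : InvMetric G H m) : (1 : Mat N) ∈ HB g 0 :=
  ⟨[], by simp, by simp, 1, H.one_mem, (mul_one _).symm⟩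

theorem HB_right (g : InvMetric G H m) {s : ℝ} {x : Mat N} (hx : x ∈ HB g s)
    {h : unitaryGroup (Fin N) ℂ} (hh : h ∈ H) : x * (h : Mat N) ∈ HB g s := by
  obtain ⟨l, h1, h2, k, hk, rfl⟩ := hx
  exact ⟨l, h1, h2, k * h, H.mul_mem hk hh, mul_assoc _ _ _⟩

theorem conj_exp (h : unitaryGroup (Fin N) ℂ) (X : Mat N) :
    NormedSpace.exp ((h : Mat N) * X * star (h : Mat N)) =
      (h : Mat N) * NormedSpace.exp X * star (h : Mat N) :=
  Pool.Agent.W544.EG.exp_conj (𝔸 := Mat N) _ _ _ (Pool.Agent.W544.EG.unit_sm h)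
      (Pool.Agent.W544.EG.unit_ms h)

theorem HB_exp (hHG : H ≤ G) (hH : IsClosed (H : Set (unitaryGroup (Fin N) ℂ)))
    (g : InvMetric G H m) {s : ℝ} {x X : Mat N} (hx : x ∈ HB g s) (hX : X ∈ LieAlg G) :
    x * NormedSpace.exp X ∈ HB g (s + qn g X) := by
  obtain ⟨l, h1, h2, h, hh, rfl⟩ := hx
  have h3 := (t_B N m G H hH g).2.2.2 h hh X hX
  refine ⟨l ++ [(h : Mat N) * X * star (h : Mat N)], ?_, ?_, h, hh, ?_⟩
  · intro Y hY
    rcases List.mem_append.1 hY with h4 | h4
    · exact h1 Y h4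
    · rw [List.mem_singleton.1 h4]
      exact conj_lie (hHG hh) hX
  · rw [List.map_append, List.sum_append, List.map_singleton, List.sum_singleton, h3]
    linarith
  · rw [List.map_append, List.prod_append, List.map_singleton, List.prod_singleton, conj_exp]
    have h4 := Pool.Agent.W544.EG.unit_sm h
    calc (l.map NormedSpace.exp).prod * (h : Mat N) * NormedSpace.exp X
        = (l.map NormedSpace.exp).prod * (h : Mat N) * NormedSpace.exp X *
            (star (h : Mat N) * (h : Mat N)) := by rw [h4, mul_one]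
      _ = _ := by noncomm_ring

section

variable {g : InvMetric G H m} {U U' : Set G} {T : ℝ}

lemma bdd (hT : 0 < T) (x : G) : BddBelow (insert T (DD g U x)) := by
  refine ⟨0, ?_⟩
  rintro s (rfl | hs)
  · exact hT.le
  · exact hs.1

lemma ff_le (hT : 0 < T) (x : G) : ff g U T x ≤ T := csInf_le (bdd hT x) (Set.mem_insert _ _)

lemma ff_nonneg (hT : 0 < T) (x : G) : 0 ≤ ff g U T x := by
  refine le_csInf (Set.insert_nonempty _ _) ?_
  rintro s (rfl | hs)
  · exact hT.le
  · exact hs.1

lemma ff_zero (hT : 0 < T) {x : G} (hx : x ∈ U) : ff g U T x = 0 := by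
  refine le_antisymm (csInf_le (bdd hT x) (Set.mem_insert_of_mem _ ⟨le_rfl, x, hx, ?_⟩))
    (ff_nonneg hT x)
  rw [inv_mul_cancel, cm_one]
  exact HB_one g

lemma ff_T (hT : 0 < T) {x : G} (hx : ∀ u ∈ U, ∀ s < T, cm (u⁻¹ * x) ∉ HB g s) :
    ff g U T x = T := by
  refine le_antisymm (ff_le hT x) (le_csInf (Set.insert_nonempty _ _) ?_)
  rintro s (rfl | ⟨_, u, hu, hs⟩)
  · exact le_rfl
  · by_contra h
    exact hx u hu s (not_le.1 h) hs

lemma ff_lip (hHG : H ≤ G) (hH : IsClosed (H : Set (unitaryGroup (Fin N) ℂ))) (hT : 0 < T)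
    {x y : G} {X : Mat N} (hX : X ∈ LieAlg G)
    (h : cm y = cm x * NormedSpace.exp X) : ff g U T y ≤ ff g U T x + qn g X := by
  have hq : 0 ≤ qn g X := norm_nonneg _
  rw [← sub_le_iff_le_add]
  refine le_csInf (Set.insert_nonempty _ _) ?_
  rintro s (rfl | ⟨hs0, u, hu, hs⟩)
  · rw [sub_le_iff_le_add]
    exact (ff_le hT y).trans (by linarith)
  · rw [sub_le_iff_le_add]
    refine csInf_le (bdd hT y) (Set.mem_insert_of_mem _ ⟨by linarith, u, hu, ?_⟩)
    have h1 := HB_exp hHG hH g hs hX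
    have h2 : cm (u⁻¹ * y) = cm (u⁻¹ * x) * NormedSpace.exp X := by
      rw [cm_mul, cm_mul, h, mul_assoc]
    rw [h2]
    exact h1

theorem neg_lie {X : Mat N} (hX : X ∈ LieAlg G) : -X ∈ LieAlg G := by
  intro t
  obtain ⟨u, hu, hue⟩ := hX (-t)
  exact ⟨u, hu, by rw [hue, neg_smul, smul_neg]⟩

lemma ff_lip2 (hHG : H ≤ G) (hH : IsClosed (H : Set (unitaryGroup (Fin N) ℂ))) (hT : 0 < T)
    {x y : G} {X : Mat N} (hX : X ∈ LieAlg G) (h : cm y = cm x * NormedSpace.exp X) :
    |ff g U T y - ff g U T x| ≤ qn g X := by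
  have h1 := ff_lip (U := U) (g := g) hHG hH hT hX h
  have h2 : ff g U T x ≤ ff g U T y + qn g (-X) := by
    apply ff_lip hHG hH hT (neg_lie hX)
    rw [h, mul_assoc]
    have h3 : NormedSpace.exp X * NormedSpace.exp (-X) = (1 : Mat N) := by
      rw [← Matrix.exp_add_of_commute _ _ ((Commute.refl X).neg_right), add_neg_cancel,
        NormedSpace.exp_zero]
    rw [h3, mul_one]
  have h4 : qn g (-X) = qn g X := by rw [qn, map_neg, norm_neg]; rfl
  rw [h4] at h2
  rw [abs_le]
  constructor <;> linarith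

lemma ff_inv (hT : 0 < T) {x y : G} {h : unitaryGroup (Fin N) ℂ} (hh : h ∈ H)
    (hxy : cm y = cm x * (h : Mat N)) : ff g U T y ≤ ff g U T x := by
  refine le_csInf (Set.insert_nonempty _ _) ?_
  rintro s (rfl | ⟨hs0, u, hu, hs⟩)
  · exact ff_le hT y
  · refine csInf_le (bdd hT y) (Set.mem_insert_of_mem _ ⟨hs0, u, hu, ?_⟩)
    have h2 : cm (u⁻¹ * y) = cm (u⁻¹ * x) * (h : Mat N) := by
      rw [cm_mul, cm_mul, hxy, mul_assoc]
    rw [h2]
    exact HB_right g hs hh

lemma continuous_ff (hG : IsClosed (G : Set (unitaryGroup (Fin N) ℂ))) (hHG : H ≤ G)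
    (hH : IsClosed (H : Set (unitaryGroup (Fin N) ℂ))) (hT : 0 < T) :
    Continuous (ff g U T) := by
  obtain ⟨L, hL⟩ := exists_lie hG
  obtain ⟨S, hS0, hS⟩ := lin_bound (crd g)
  rw [Metric.continuous_iff']
  intro x ε hε
  obtain ⟨η, hη, h1⟩ := Pool.Agent.W544.EG.near_one (isG hG hL) (δ := ε / (S + 1)) (by positivity)
  have hc : Continuous fun y : G => cm (x⁻¹ * y) := continuous_cm.comp (by fun_prop)
  have : ∀ᶠ y in 𝓝 x, cm (x⁻¹ * y) ∈ Metric.ball (1 : Mat N) η := by
    apply hc.continuousAt.preimage_mem_nhds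
    rw [inv_mul_cancel, cm_one]
    exact Metric.ball_mem_nhds _ hη
  filter_upwards [this] with y hy
  rw [Metric.mem_ball, dist_eq_norm] at hy
  obtain ⟨X, hX, hXn, hXe⟩ := h1 (cm (x⁻¹ * y)) ⟨_, (x⁻¹ * y).2, rfl⟩ hy
  have hXG : X ∈ LieAlg G := by rw [← hL]; exact hX
  have h2 : |ff g U T y - ff g U T x| ≤ qn g X := by
    apply ff_lip2 hHG hH hT hXG
    have h3 : cm x * cm (x⁻¹ * y) = cm y := by
      rw [← cm_mul, mul_inv_cancel_left]
    rw [← h3]
    exact congrArg (fun M => cm x * M) hXe.symm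
  rw [Real.dist_eq]
  refine lt_of_le_of_lt h2 ?_
  have h4 : qn g X ≤ S * ‖X‖ := hS X
  rw [lt_div_iff₀ (by positivity)] at hXn
  nlinarith [norm_nonneg X]

end

/-- **two separated sets in `G/H` give a small eigenvalue** -/
theorem t_TS (hR : S_R) : S_TS := by
  intro N m G H hG hGc hHG hH g _ _ μ _ _ _ U U' hU hU' T v hT hv hvU hvU' hsep
  have hfc : Continuous (ff g U T) := continuous_ff hG hHG hH hT
  have hfi : Integrable (ff g U T) μ := by
    refine Integrable.of_bound hfc.aestronglyMeasurable T (Filter.Eventually.of_forall fun x => ?_)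
    rw [Real.norm_eq_abs, abs_of_nonneg (ff_nonneg hT x)]
    exact ff_le hT x
  set c := ∫ z, ff g U T z ∂μ with hc
  have hT' : ∀ x ∈ U', ff g U T x = T := fun x hx => ff_T hT fun u hu s hs => hsep u hu x hx s hs
  have hdisj : Disjoint U U' := by
    rw [Set.disjoint_left]
    intro x hx hx'
    have h1 := hT' x hx'
    rw [ff_zero hT hx] at h1
    exact hT.ne h1
  have hV : v * T ^ 2 / 2 ≤ ∫ x, (ff g U T x - c) ^ 2 ∂μ := by
    have hb : Integrable (fun x => (ff g U T x - c) ^ 2) μ := by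
      refine Integrable.of_bound ((hfc.sub continuous_const).pow 2).aestronglyMeasurable
        ((T + |c|) ^ 2) (Filter.Eventually.of_forall fun x => ?_)
      rw [Real.norm_eq_abs, abs_pow]
      gcongr
      calc |ff g U T x - c| ≤ |ff g U T x| + |c| := abs_sub _ _
        _ ≤ T + |c| := by
          rw [abs_of_nonneg (ff_nonneg hT x)]
          linarith [ff_le (g := g) (U := U) hT x]
    have h1 : ∫ x, (U.indicator (fun _ => c ^ 2) x + U'.indicator (fun _ => (T - c) ^ 2) x) ∂μ ≤
        ∫ x, (ff g U T x - c) ^ 2 ∂μ := by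
      apply integral_mono
      · exact ((integrable_const _).indicator hU).add ((integrable_const _).indicator hU')
      · exact hb
      · intro x
        by_cases hx : x ∈ U
        · have hx' : x ∉ U' := Set.disjoint_left.1 hdisj hx
          simp only [Set.indicator_of_mem hx, Set.indicator_of_notMem hx', ff_zero hT hx]
          nlinarith
        · by_cases hx' : x ∈ U'
          · simp only [Set.indicator_of_notMem hx, Set.indicator_of_mem hx', hT' x hx']
            linarith
          · simp only [Set.indicator_of_notMem hx, Set.indicator_of_notMem hx']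
            rw [add_zero]
            exact sq_nonneg _
    rw [integral_add ((integrable_const _).indicator hU) ((integrable_const _).indicator hU'),
      integral_indicator_const _ hU, integral_indicator_const _ hU', smul_eq_mul, smul_eq_mul] at h1
    refine le_trans ?_ h1
    nlinarith [mul_le_mul_of_nonneg_right hvU (sq_nonneg c),
      mul_le_mul_of_nonneg_right hvU' (sq_nonneg (T - c)), sq_nonneg (2 * c - T)]
  obtain ⟨lam, h1, h2, h3⟩ := hR N m G H hG hGc hHG g μ (ff g U T) hfc (by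
    intro x y h hh hxy
    refine le_antisymm (ff_inv hT hh hxy) (ff_inv hT (H.inv_mem hh) ?_)
    have h4 := Pool.Agent.W544.EG.unit_ms h
    show cm x = cm y * star (h : Mat N)
    have h5 : cm y = cm x * (h : Mat N) := hxy
    rw [h5, mul_assoc, h4, mul_one]) (by
    intro x y i t hxy
    have hXL : t • g.X i ∈ LieAlg G := by
      intro s
      obtain ⟨u, hu, hue⟩ := g.mem i (s * t)
      exact ⟨u, hu, by rw [hue, mul_smul]⟩
    have h5 := ff_lip2 (U := U) (g := g) hHG hH hT hXL hxy
    have h6 : qn g (t • g.X i) = |t| := by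
      have h7 : g.X i = comb g (EuclideanSpace.single i 1) := by
        show g.X i = ∑ j, (EuclideanSpace.single i (1 : ℝ) : EuclideanSpace ℝ (Fin m)) j • g.X j
        rw [Finset.sum_eq_single i]
        · simp
        · intro j _ hj
          simp [hj]
        · intro h; exact absurd (Finset.mem_univ i) h
      rw [qn, map_smul, norm_smul, Real.norm_eq_abs, h7, (t_B N m G H hH g).1]
      simp
    rwa [h6] at h5) (v * T ^ 2 / 2) (by positivity) hV
  exact ⟨lam, h1, by linarith, h3⟩

end Pool.Agent.Y896.HS
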