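import Mathlib
import Pool.Agent.Y896.HS.A

/-!
# EGS for homogeneous spaces: the theorem
-/

open Matrix Filter Topology MeasureTheory
open scoped Matrix.Norms.Frobenius ContDiff

namespace Pool.Agent.Y896.HS

set_option linter.unusedSectionVars false
set_option linter.style.haveILetI false

open Pool.Agent.W544.EG (Mat LieAlg Gs BL IsLen IsG isG Gs_conn commutators_mem comm_BL generate
  lin_bound cr)

variable {N k : ℕ} {G H : Subgroup (unitaryGroup (Fin N) ℂ)}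

/-- everything is in some ball -/
theorem exists_big (hc : IsClosed (G : Set (unitaryGroup (Fin N) ℂ)))
    (hcn : IsConnected (G : Set (unitaryGroup (Fin N) ℂ))) {L : Submodule ℝ (Mat N)}
    (hL : (L : Set (Mat N)) = LieAlg G) (g : InvMetric G H k) :
    ∃ r : ℝ, ∀ x ∈ Gs G, x ∈ HB g r := by
  have hG := isG hc hL
  obtain ⟨n, hn⟩ := generate hG (Gs_conn hcn) one_pos
  obtain ⟨S, hS0, hS⟩ := lin_bound (crd g)
  refine ⟨n * S, fun x hx => ?_⟩
  obtain ⟨l, hl1, hl2, rfl⟩ := hn x hx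
  refine ⟨l, fun X hX => by rw [← hL]; exact (hl2 X hX).1, ?_, 1, H.one_mem, (mul_one _).symm⟩
  have h1 : (l.map (qn g)).sum ≤ l.length * S := by
    have h2 : (l.map (qn g)).sum ≤ (l.map fun _ => S).sum := by
      refine List.sum_le_sum fun X hX => ?_
      have h3 := hS X
      have h4 := (hl2 X hX).2
      have h5 : qn g X = ‖crd g X‖ := rfl
      rw [h5]
      nlinarith
    refine h2.trans (le_of_eq ?_)
    rw [List.map_const', List.sum_replicate, nsmul_eq_mul]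
  refine h1.trans ?_
  have : (l.length : ℝ) ≤ n := by exact_mod_cast hl1
  gcongr

/-- `exp X` and `exp Z` are close -/
theorem exp_close_aux {𝔸 : Type} [NormedRing 𝔸] [NormedAlgebra ℝ 𝔸] [FiniteDimensional ℝ 𝔸]
    [StarRing 𝔸] [StarModule ℝ 𝔸] [ContinuousStar 𝔸] {G : Set 𝔸} {L : Submodule ℝ 𝔸}
    (hG : IsG G L) {X Z : 𝔸} (hX : X ∈ L) (hZ : Z ∈ L) :
    ‖NormedSpace.exp X - NormedSpace.exp Z‖ ≤ ‖X - Z‖ := by
  have hd : ∀ t : ℝ, HasDerivAt (fun t : ℝ => NormedSpace.exp (t • X) * NormedSpace.exp (t • (-Z)))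
      (NormedSpace.exp (t • X) * (X - Z) * NormedSpace.exp (t • (-Z))) t := by
    intro t
    have h1 := (Pool.Agent.W544.EG.hasDerivAt_exp_smul X t).mul
      (Pool.Agent.W544.EG.hasDerivAt_exp_smul (-Z) t)
    refine h1.congr_deriv ?_
    have h2 : Commute (NormedSpace.exp (t • (-Z))) (-Z) :=
      Pool.Agent.W544.EG.exp_commute ((Commute.refl (-Z)).smul_left t)
    rw [h2.eq]
    noncomm_ring
  have hXe : ∀ t : ℝ, NormedSpace.exp (t • X) ∈ G := fun t => (hG.lie X).1 hX t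
  have hZe : ∀ t : ℝ, NormedSpace.exp (t • (-Z)) ∈ G := fun t => (hG.lie (-Z)).1 (L.neg_mem hZ) t
  have h2 := norm_image_sub_le_of_norm_deriv_le_segment' (f := fun t : ℝ =>
      NormedSpace.exp (t • X) * NormedSpace.exp (t • (-Z))) (C := ‖X - Z‖) (a := 0) (b := 1)
    (fun t _ => (hd t).hasDerivWithinAt) (fun t _ => by
      rw [hG.isom' _ (hZe t), hG.isom _ (hXe t)]) 1 (by simp)
  have e0 : NormedSpace.exp (0 : 𝔸) = 1 := Pool.Agent.W544.EG.exp_zero'
  simp only [one_smul, zero_smul, smul_neg, neg_zero, e0, mul_one, sub_zero] at h2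
  have h3 : NormedSpace.exp X - NormedSpace.exp Z =
      (NormedSpace.exp X * NormedSpace.exp (-Z) - 1) * NormedSpace.exp Z := by
    rw [sub_mul, mul_assoc, Pool.Agent.W544.EG.exp_neg_mul, mul_one, one_mul]
  rw [h3, hG.isom' _ (hG.exp_mem hZ)]
  exact h2

/-- `exp X` and `exp Z` are close -/
theorem exp_close {L : Submodule ℝ (Mat N)} (hG : IsG (Gs G) L) {X Z : Mat N} (hX : X ∈ L)
    (hZ : Z ∈ L) : ‖NormedSpace.exp X - NormedSpace.exp Z‖ ≤ ‖X - Z‖ :=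
  exp_close_aux hG hX hZ

/-- small balls are not everything -/
theorem exists_small (hc : IsClosed (G : Set (unitaryGroup (Fin N) ℂ)))
    {L : Submodule ℝ (Mat N)} (hL : (L : Set (Mat N)) = LieAlg G) (hHG : H ≤ G)
    (hH : IsClosed (H : Set (unitaryGroup (Fin N) ℂ))) (g : InvMetric G H k) {x : Mat N}
    (hx : x ∉ Gs H) : ∃ r > 0, x ∉ HB g r := by
  have hG := isG hc hL
  obtain ⟨T, hT0, hT⟩ := lin_bound (comb g)
  obtain ⟨b1, b2, b3, b4⟩ := t_B N k G H hH g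
  have hHcl : IsClosed (Gs H) := Pool.Agent.W544.EG.Gs_closed hH
  obtain ⟨δ, hδ, hball⟩ : ∃ δ > 0, ∀ y ∈ Gs H, δ ≤ ‖x - y‖ := by
    have h1 : (Gs H)ᶜ ∈ 𝓝 x := hHcl.isOpen_compl.mem_nhds hx
    obtain ⟨δ, hδ, h2⟩ := Metric.mem_nhds_iff.1 h1
    refine ⟨δ, hδ, fun y hy => ?_⟩
    by_contra hlt
    push Not at hlt
    have h3 : y ∈ Metric.ball x δ := by
      rw [Metric.mem_ball, dist_eq_norm, norm_sub_rev]
      exact hlt
    exact h2 h3 hy
  have key : ∀ l : List (Mat N), (∀ X ∈ l, X ∈ LieAlg G) →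
      ∃ y ∈ Gs H, ‖(l.map NormedSpace.exp).prod - y‖ ≤ T * (l.map (qn g)).sum := by
    intro l
    induction l with
    | nil => intro _; exact ⟨1, ⟨1, H.one_mem, rfl⟩, by simp⟩
    | cons X l ih =>
      intro hl
      obtain ⟨y, ⟨u, hu, rfl⟩, hy⟩ := ih fun Y hY => hl Y (by simp [hY])
      have hX := hl X (by simp)
      have hZ := b3 X hX
      obtain ⟨w, hw, hwe⟩ := hZ 1
      rw [one_smul] at hwe
      have hXL : X ∈ L := by rw [← SetLike.mem_coe, hL]; exact hX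
      have hZG : X - comb g (crd g X) ∈ LieAlg G := fun t => by
        obtain ⟨u, hu, hue⟩ := hZ t
        exact ⟨u, hHG hu, hue⟩
      have hZL : X - comb g (crd g X) ∈ L := by rw [← SetLike.mem_coe, hL]; exact hZG
      have h1 := exp_close hG hXL hZL
      have h2 : ‖X - (X - comb g (crd g X))‖ ≤ T * qn g X := by
        rw [sub_sub_cancel]
        exact hT _
      refine ⟨(w : Mat N) * (u : Mat N), ⟨w * u, H.mul_mem hw hu, rfl⟩, ?_⟩
      rw [List.map_cons, List.prod_cons, List.map_cons, List.sum_cons, mul_add]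
      set P := (l.map NormedSpace.exp).prod with hP
      have hPG : P ∈ Gs G := by
        refine hG.list_prod_mem _ fun z hz => ?_
        obtain ⟨Y, hY, rfl⟩ := List.mem_map.1 hz
        exact hG.exp_mem (by rw [← SetLike.mem_coe, hL]; exact hl Y (by simp [hY]))
      have e : NormedSpace.exp X * P - (w : Mat N) * (u : Mat N) =
          (NormedSpace.exp X - (w : Mat N)) * P + (w : Mat N) * (P - (u : Mat N)) := by
        noncomm_ring
      rw [e]
      refine (norm_add_le _ _).trans (add_le_add ?_ ?_)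
      · rw [hG.isom' _ hPG, hwe]
        exact h1.trans h2
      · rw [hG.isom _ ⟨w, hHG hw, rfl⟩]
        exact hy
  refine ⟨δ / (2 * (T + 1)), by positivity, ?_⟩
  rintro ⟨l, hl1, hl2, h, hh, hxe⟩
  obtain ⟨y, ⟨u, hu, rfl⟩, hy⟩ := key l hl1
  have h1 := hball ((u : Mat N) * (h : Mat N)) ⟨u * h, H.mul_mem hu hh, rfl⟩
  have h2 : ‖x - (u : Mat N) * (h : Mat N)‖ = ‖(l.map NormedSpace.exp).prod - (u : Mat N)‖ := by
    rw [hxe, ← sub_mul, hG.isom' _ ⟨h, hHG hh, rfl⟩]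
  rw [h2] at h1
  have h3 : T * (l.map (qn g)).sum ≤ T * (δ / (2 * (T + 1))) := by gcongr
  have h4 : T * (δ / (2 * (T + 1))) ≤ δ / 2 := by
    rw [mul_div_assoc', div_le_div_iff₀ (by positivity) (by positivity)]
    nlinarith
  linarith

theorem joined_nonneg (g : InvMetric G H k) {x y : Mat N} {ℓ : ℝ} (h : Joined g x y ℓ) : 0 ≤ ℓ := by
  induction h with
  | curve c v hv hG hc => exact intervalIntegral.integral_nonneg zero_le_one fun _ _ => norm_nonneg _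
  | fibre _ _ _ => exact le_rfl
  | trans _ _ h1 h2 => exact add_nonneg h1 h2

theorem dist_le (g : InvMetric G H k) {x y : Mat N} {r : ℝ}
    (h : ∃ ℓ ≤ r, 0 ≤ ℓ ∧ Joined g x y ℓ) : 0 ≤ dist g x y ∧ dist g x y ≤ r := by
  obtain ⟨ℓ, h1, _, h2⟩ := h
  refine ⟨Real.sInf_nonneg fun ℓ' hℓ' => joined_nonneg g hℓ', ?_⟩
  exact (csInf_le ⟨0, fun ℓ' hℓ' => joined_nonneg g hℓ'⟩ h2).trans h1

/-- the strong form -/
theorem strong (hTS : S_TS) (hT : S_T) (hCH : S_CH) (hCC : S_CC) (hJ : S_J)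
    (hD : Pool.Agent.W544.EG.S_D) (hc : IsClosed (G : Set (unitaryGroup (Fin N) ℂ)))
    (hcn : IsConnected (G : Set (unitaryGroup (Fin N) ℂ))) {n : ℕ} (hn : 1 ≤ n) :
    ∃ C : ℝ, 0 ≤ C ∧ ∀ (H : Subgroup (unitaryGroup (Fin N) ℂ)), H ≤ G →
      IsClosed (H : Set (unitaryGroup (Fin N) ℂ)) → Nat.card (ConnectedComponents H) ≤ n →
      ∀ (k : ℕ) (g : InvMetric G H k), H ≠ G →
      ∃ lam : ℝ, 0 < lam ∧ IsEigenvalue g lam ∧ ∃ r : ℝ, 0 ≤ r ∧ lam * r ^ 2 ≤ C ∧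
        ∀ x ∈ G, ∀ y ∈ G, ∃ ℓ ≤ r, 0 ≤ ℓ ∧
          Joined g (x : unitaryGroup (Fin N) ℂ) (y : unitaryGroup (Fin N) ℂ) ℓ := by
  obtain ⟨L, hL⟩ := exists_lie hc
  have hG := isG hc hL
  obtain ⟨C, κ, hC, hκ, halt⟩ := alternative hTS hT hCH hCC hD hc hcn hL hn
  refine ⟨4 * κ ^ 2 * C, by positivity, fun H hHG hH hHn k g hne => ?_⟩
  obtain ⟨x₀, hx₀, hx₀H⟩ : ∃ x ∈ G, x ∉ H := by
    by_contra h
    push Not at h
    exact hne (le_antisymm hHG h)
  have hx₀' : (x₀ : Mat N) ∉ Gs H := by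
    rintro ⟨u, hu, hue⟩
    have : u = x₀ := Subtype.ext hue
    exact hx₀H (this ▸ hu)
  obtain ⟨r₀, hr₀, hr₀x⟩ := exists_small hc hL hHG hH g hx₀'
  obtain ⟨r₁, hr₁⟩ := exists_big hc hcn hL g
  have hex : ∃ k : ℕ, ∀ x ∈ Gs G, x ∈ HB g (r₀ * 2 ^ k) := by
    obtain ⟨k, hk⟩ := pow_unbounded_of_one_lt (r₁ / r₀) (one_lt_two)
    refine ⟨k, fun x hx => HB_mono g ?_ (hr₁ x hx)⟩
    rw [div_lt_iff₀ hr₀] at hk
    linarith
  classical
  obtain ⟨j, hk1, hk2⟩ : ∃ k : ℕ, (∀ x ∈ Gs G, x ∈ HB g (r₀ * 2 ^ (k + 1))) ∧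
      ¬ ∀ x ∈ Gs G, x ∈ HB g (r₀ * 2 ^ k) := by
    have hne : Nat.find hex ≠ 0 := by
      intro h0
      have := Nat.find_spec hex
      rw [h0, pow_zero, mul_one] at this
      exact hr₀x (this _ ⟨x₀, hx₀, rfl⟩)
    obtain ⟨k, hk⟩ := Nat.exists_eq_succ_of_ne_zero hne
    refine ⟨k, ?_, ?_⟩
    · have := Nat.find_spec hex
      rwa [hk] at this
    · exact Nat.find_min hex (by omega)
  have hκ0 : 0 < κ := by linarith
  set t := r₀ * 2 ^ j / κ with ht
  have htpos : 0 < t := by positivity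
  have hκt : κ * t = r₀ * 2 ^ j := by rw [ht]; field_simp
  rcases halt H hHG hH hHn k g t htpos with h | ⟨lam, h1, h2, h3⟩
  · rw [hκt] at h
    exact absurd h hk2
  refine ⟨lam, h1, h3, r₀ * 2 ^ (j + 1), by positivity, ?_, ?_⟩
  · have e : r₀ * 2 ^ (j + 1) = 2 * (κ * t) := by rw [hκt, pow_succ]; ring
    rw [e]
    calc lam * (2 * (κ * t)) ^ 2 = 4 * κ ^ 2 * (lam * t ^ 2) := by ring
      _ ≤ 4 * κ ^ 2 * C := by gcongr
  · intro x hx y hy
    have hx' : (x : Mat N) ∈ Gs G := ⟨x, hx, rfl⟩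
    have hy' : (y : Mat N) ∈ Gs G := ⟨y, hy, rfl⟩
    exact hJ N k G H hc hHG hH g _ _ hx' hy' _ (hk1 _ (hG.mul _ (hG.st _ hx') _ hy'))

/-- **The EGS conjecture for homogeneous spaces** (conditional on the interfaces) -/
theorem egs (hTS : S_TS) (hT : S_T) (hCH : S_CH) (hCC : S_CC) (hJ : S_J)
    (hD : Pool.Agent.W544.EG.S_D) (hc : IsClosed (G : Set (unitaryGroup (Fin N) ℂ)))
    (hcn : IsConnected (G : Set (unitaryGroup (Fin N) ℂ))) (n : ℕ) :
    ∃ C : ℝ, ∀ (H : Subgroup (unitaryGroup (Fin N) ℂ)), H ≤ G →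
      IsClosed (H : Set (unitaryGroup (Fin N) ℂ)) → Nat.card (ConnectedComponents H) ≤ n →
      ∀ (k : ℕ) (g : InvMetric G H k),
      lambda1 g * diam g ^ 2 ≤ C ∧
      (H ≠ G → ∃ lam : ℝ, 0 < lam ∧ IsEigenvalue g lam ∧ ∃ r : ℝ, 0 ≤ r ∧ lam * r ^ 2 ≤ C ∧
        ∀ x ∈ G, ∀ y ∈ G, ∃ ℓ ≤ r, 0 ≤ ℓ ∧
          Joined g (x : unitaryGroup (Fin N) ℂ) (y : unitaryGroup (Fin N) ℂ) ℓ) := by
  obtain ⟨C, hC, h⟩ := strong hTS hT hCH hCC hJ hD hc hcn (n := n + 1) (by omega)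
  refine ⟨C, fun H hHG hH hHn k g => ⟨?_, h H hHG hH (by omega) k g⟩⟩
  by_cases hnt : H = G
  · have hd : diam g = 0 := by
      unfold diam
      have hset : {d | ∃ x ∈ G, ∃ y ∈ G, d = dist g (x : unitaryGroup (Fin N) ℂ)
          (y : unitaryGroup (Fin N) ℂ)} = {0} := by
        have hone : ∀ x ∈ G, ∀ y ∈ G, dist g ((x : unitaryGroup (Fin N) ℂ) : Mat N)
            ((y : unitaryGroup (Fin N) ℂ) : Mat N) = 0 := by
          intro x hx y hy
          have h1 : x⁻¹ * y ∈ H := by rw [hnt]; exact G.mul_mem (G.inv_mem hx) hy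
          have h2 := Joined.fibre (g := g) (x : Mat N) (x⁻¹ * y) h1
          have e : (x : Mat N) * ((x⁻¹ * y : unitaryGroup (Fin N) ℂ) : Mat N) = (y : Mat N) := by
            have : x * (x⁻¹ * y) = y := mul_inv_cancel_left x y
            exact congrArg (fun u : unitaryGroup (Fin N) ℂ => (u : Mat N)) this
          rw [e] at h2
          have h3 := dist_le g ⟨0, le_rfl, le_rfl, h2⟩
          exact le_antisymm h3.2 h3.1
        ext d
        simp only [Set.mem_setOf_eq, Set.mem_singleton_iff]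
        constructor
        · rintro ⟨x, hx, y, hy, rfl⟩
          exact hone x hx y hy
        · rintro rfl
          exact ⟨1, G.one_mem, 1, G.one_mem, (hone 1 G.one_mem 1 G.one_mem).symm⟩
      rw [hset, csSup_singleton]
    rw [hd]
    simpa using hC
  · obtain ⟨lam, h1, h2, r, h3, h4, h5⟩ := h H hHG hH (by omega) k g hnt
    have hl0 : 0 ≤ lambda1 g := Real.sInf_nonneg fun l hl => hl.1.le
    have hl1 : lambda1 g ≤ lam := csInf_le ⟨0, fun l hl => hl.1.le⟩ ⟨h1, h2⟩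
    have hd0 : 0 ≤ diam g := by
      refine Real.sSup_nonneg ?_
      rintro d ⟨x, hx, y, hy, rfl⟩
      exact (dist_le g (h5 x hx y hy)).1
    have hd1 : diam g ≤ r := by
      refine csSup_le ⟨_, 1, G.one_mem, 1, G.one_mem, rfl⟩ ?_
      rintro d ⟨x, hx, y, hy, rfl⟩
      exact (dist_le g (h5 x hx y hy)).2
    calc lambda1 g * diam g ^ 2 ≤ lam * r ^ 2 := by gcongr
      _ ≤ C := h4

end Pool.Agent.Y896.HS
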