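import Mathlib
import Pool.Agent.W544.EG.Step

/-!
# A uniform theorem of Turing type

`G` is a compact connected group with Lie algebra `L`, `V` an irreducible nontrivial invariant
subspace.  A closed subgroup `Γ` of `G` whose Lie algebra acts trivially on `V` cannot be too dense
in the action on `V`, with a bound depending on `G` and `V` only.
-/

open Filter Topology

namespace Pool.Agent.Y896.HS

open Pool.Agent.W544.EG

set_option linter.unusedSectionVars false
set_option linter.style.haveILetI false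

variable {𝔸 : Type} [NormedRing 𝔸] [NormedAlgebra ℝ 𝔸] [FiniteDimensional ℝ 𝔸] [StarRing 𝔸]
  [StarModule ℝ 𝔸] [ContinuousStar 𝔸]
variable {G Γ : Set 𝔸} {L LΓ V : Submodule ℝ 𝔸} {P : 𝔸 →L[ℝ] 𝔸}

/-- `Y ↦ x Y x* - Y` on `V` -/
noncomputable def TT (V : Submodule ℝ 𝔸) (x : 𝔸) : V →L[ℝ] 𝔸 :=
  ((((ContinuousLinearMap.mul ℝ 𝔸).flip (star x)).comp (ContinuousLinearMap.mul ℝ 𝔸 x)) -
    ContinuousLinearMap.id ℝ 𝔸).comp V.subtypeL

lemma TT_apply (x : 𝔸) (Y : V) : TT V x Y = x * (Y : 𝔸) * star x - (Y : 𝔸) := rfl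

lemma TT_le {x Y : 𝔸} (hY : Y ∈ V) : ‖x * Y * star x - Y‖ ≤ ‖TT V x‖ * ‖Y‖ := by
  have h := (TT V x).le_opNorm ⟨Y, hY⟩
  exact h

lemma TT_le_of {x : 𝔸} {c : ℝ} (hc : 0 ≤ c) (h : ∀ Y ∈ V, ‖x * Y * star x - Y‖ ≤ c * ‖Y‖) :
    ‖TT V x‖ ≤ c :=
  ContinuousLinearMap.opNorm_le_bound _ hc fun Y => h Y Y.2

lemma TT_sub_le {x y Y : 𝔸} (hY : Y ∈ V) :
    ‖x * Y * star x - y * Y * star y‖ ≤ ‖TT V x - TT V y‖ * ‖Y‖ := by
  have h := (TT V x - TT V y).le_opNorm ⟨Y, hY⟩
  have e : (TT V x - TT V y) ⟨Y, hY⟩ = x * Y * star x - y * Y * star y := by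
    rw [ContinuousLinearMap.sub_apply, TT_apply, TT_apply]
    abel
  rw [e] at h
  exact h

lemma TT_sub_le_of {x y : 𝔸} {c : ℝ} (hc : 0 ≤ c)
    (h : ∀ Y ∈ V, ‖x * Y * star x - y * Y * star y‖ ≤ c * ‖Y‖) : ‖TT V x - TT V y‖ ≤ c := by
  refine ContinuousLinearMap.opNorm_le_bound _ hc fun Y => ?_
  have e : (TT V x - TT V y) Y = x * (Y : 𝔸) * star x - y * (Y : 𝔸) * star y := by
    rw [ContinuousLinearMap.sub_apply, TT_apply, TT_apply]
    abel
  rw [e]
  exact h Y Y.2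

lemma TT_cont : Continuous fun x : 𝔸 => ‖TT V x‖ := by
  have h1 : Continuous fun x : 𝔸 => (ContinuousLinearMap.mul ℝ 𝔸).flip (star x) :=
    ((ContinuousLinearMap.mul ℝ 𝔸).flip).continuous.comp continuous_star
  have h2 : Continuous fun x : 𝔸 => ContinuousLinearMap.mul ℝ 𝔸 x :=
    (ContinuousLinearMap.mul ℝ 𝔸).continuous
  have h3 : Continuous fun x : 𝔸 =>
      ((ContinuousLinearMap.mul ℝ 𝔸).flip (star x)).comp (ContinuousLinearMap.mul ℝ 𝔸 x) :=
    h1.clm_comp h2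
  exact ((h3.sub continuous_const).clm_comp continuous_const).norm

lemma TT_zero_iff {x : 𝔸} : ‖TT V x‖ = 0 ↔ Eqv V x 1 := by
  constructor
  · intro h Y hY
    have h1 := TT_le (x := x) hY
    rw [h, zero_mul] at h1
    have h2 := sub_eq_zero.1 (norm_le_zero_iff.1 h1)
    rw [h2, star_one, one_mul, mul_one]
  · intro h
    have h0 : (0 : ℝ) ≤ ‖TT V x‖ := norm_nonneg (TT V x)
    refine le_antisymm (TT_le_of le_rfl fun Y hY => ?_) h0
    rw [h Y hY, star_one, one_mul, mul_one, sub_self, norm_zero, zero_mul]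

lemma TT_congr {x y : 𝔸} (h : Eqv V x y) : TT V x = TT V y := by
  ext Y
  rw [TT_apply, TT_apply, h Y Y.2]

/-- commutators are small -/
lemma TT_comm (hG : IsG G L) (hI : Inv G V) {x y : 𝔸} (hx : x ∈ G) (hy : y ∈ G) :
    ‖TT V (x * y * star x * star y)‖ ≤ 2 * ‖TT V x‖ * ‖TT V y‖ := by
  refine TT_le_of (by positivity) fun Y hY => ?_
  have hyx := hG.mul _ hy _ hx
  set W := star (y * x) * Y * (y * x) with hW
  have hWV : W ∈ V := by
    have := hI _ (hG.st _ hyx) Y hY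
    rwa [star_star] at this
  have hWn : ‖W‖ = ‖Y‖ := by
    rw [hW, hG.isom' _ hyx, hG.isom _ (hG.st _ hyx)]
  have hYW : Y = y * (x * W * star x) * star y := by
    have h1 := hG.ms _ hyx
    rw [star_mul] at h1
    rw [hW, star_mul]
    calc Y = (y * x * (star x * star y)) * Y * (y * x * (star x * star y)) := by
          rw [h1, one_mul, mul_one]
      _ = _ := by noncomm_ring
  have hcY : x * y * star x * star y * Y * star (x * y * star x * star y) =
      x * (y * W * star y) * star x := by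
    rw [hYW]
    have h1 := hG.sm _ hy
    have h2 := hG.sm _ hx
    simp only [star_mul, star_star]
    calc x * y * star x * star y * (y * (x * W * star x) * star y) * (y * (x * (star y * star x)))
        = x * y * star x * (star y * y) * x * W * star x * (star y * y) * (x * (star y * star x)) := by
          noncomm_ring
      _ = x * y * (star x * x) * W * (star x * x) * (star y * star x) := by
          rw [h1]; noncomm_ring
      _ = _ := by rw [h2]; noncomm_ring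
  rw [hcY]
  have hu : y * W * star y - W ∈ V := V.sub_mem (hI _ hy W hWV) hWV
  have hv : x * W * star x - W ∈ V := V.sub_mem (hI _ hx W hWV) hWV
  set u := y * W * star y - W with hu'
  set v := x * W * star x - W with hv'
  have e : x * (y * W * star y) * star x - Y =
      (x * u * star x - u) - (y * v * star y - v) := by
    rw [hYW]
    have e1 : y * W * star y = u + W := by rw [hu']; abel
    have e2 : x * W * star x = v + W := by rw [hv']; abel
    rw [e1, e2]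
    have e3 : x * (u + W) * star x = x * u * star x + (v + W) := by rw [← e2]; noncomm_ring
    have e4 : y * (v + W) * star y = y * v * star y + (u + W) := by rw [← e1]; noncomm_ring
    rw [e3, e4]
    abel
  rw [e]
  have h1 := TT_le (x := x) hu
  have h2 := TT_le (x := y) hv
  have h3 : ‖u‖ ≤ ‖TT V y‖ * ‖W‖ := TT_le hWV
  have h4 : ‖v‖ ≤ ‖TT V x‖ * ‖W‖ := TT_le hWV
  rw [hWn] at h3 h4
  calc ‖(x * u * star x - u) - (y * v * star y - v)‖
      ≤ ‖x * u * star x - u‖ + ‖y * v * star y - v‖ := norm_sub_le _ _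
    _ ≤ ‖TT V x‖ * ‖u‖ + ‖TT V y‖ * ‖v‖ := add_le_add h1 h2
    _ ≤ ‖TT V x‖ * (‖TT V y‖ * ‖Y‖) + ‖TT V y‖ * (‖TT V x‖ * ‖Y‖) := by gcongr
    _ = 2 * ‖TT V x‖ * ‖TT V y‖ * ‖Y‖ := by ring

/-- the exponential is injective near `0` -/
lemma exp_inj : ∃ δ > 0, ∀ X X' : 𝔸, ‖X‖ < δ → ‖X'‖ < δ →
    NormedSpace.exp X = NormedSpace.exp X' → X = X' := by
  haveI : CompleteSpace 𝔸 := FiniteDimensional.complete ℝ 𝔸
  have hs : HasStrictFDerivAt (NormedSpace.exp : 𝔸 → 𝔸)
      ((ContinuousLinearEquiv.refl ℝ 𝔸 : 𝔸 ≃L[ℝ] 𝔸) : 𝔸 →L[ℝ] 𝔸) 0 := exp_strict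
  obtain ⟨δ, hδ, h⟩ := Metric.eventually_nhds_iff.1 hs.eventually_left_inverse
  refine ⟨δ, hδ, fun X X' hX hX' he => ?_⟩
  have h1 := h (show dist X 0 < δ by rwa [dist_zero_right])
  have h2 := h (show dist X' 0 < δ by rwa [dist_zero_right])
  rw [← h1, ← h2, he]

/-- an element of `G` which acts on `V` nearly trivially acts as a small exponential -/
lemma near_act (hG : IsG G L) (hV : V ≤ L) (hI : Inv G V) (hP : IsP G L V P) {δ : ℝ}
    (hδ : 0 < δ) : ∃ ρ > 0, ∀ x ∈ G, ‖TT V x‖ < ρ →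
      ∃ v ∈ V, ‖v‖ < δ ∧ Eqv V x (NormedSpace.exp v) := by
  obtain ⟨η, hη, h1⟩ := near_one hG (δ := δ / (‖P‖ + 1)) (by positivity)
  set C : Set 𝔸 := {y | y ∈ G ∧ ∀ x ∈ G, Eqv V x 1 → η ≤ ‖y - x‖} with hC
  have hCc : IsCompact C := by
    have h2 : C = G ∩ ⋂ x ∈ {x | x ∈ G ∧ Eqv V x 1}, {y | η ≤ ‖y - x‖} := by
      ext y
      simp only [hC, Set.mem_setOf_eq, Set.mem_inter_iff, Set.mem_iInter, and_imp]
    rw [h2]
    refine hG.compact.inter_right (isClosed_biInter fun x _ => ?_)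
    exact isClosed_le continuous_const (continuous_id.sub continuous_const).norm
  have hgood : ∀ y ∈ G, y ∉ C → ∃ v ∈ V, ‖v‖ < δ ∧ Eqv V y (NormedSpace.exp v) := by
    intro y hy hyC
    simp only [hC, Set.mem_setOf_eq, not_and] at hyC
    have h3 := hyC hy
    push Not at h3
    obtain ⟨x, hx, hx1, hyx⟩ := h3
    obtain ⟨X, hX, hXn, hXe⟩ := h1 (star x * y) (hG.mul _ (hG.st _ hx) _ hy) (by
      have e : star x * y - 1 = star x * (y - x) := by rw [mul_sub, hG.sm _ hx]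
      rw [e, hG.isom _ (hG.st _ hx)]
      exact hyx)
    refine ⟨P X, hP.mem X, ?_, ?_⟩
    · have h3 := P.le_opNorm X
      have h4 : ‖P‖ * ‖X‖ ≤ (‖P‖ + 1) * ‖X‖ := by nlinarith [norm_nonneg X]
      have h5 : (‖P‖ + 1) * ‖X‖ < δ := by
        rw [lt_div_iff₀ (by positivity)] at hXn
        linarith [mul_comm ‖X‖ (‖P‖ + 1)]
      linarith
    · have h3 := hP.eqv_exp hG hV hI hX
      have h4 : Eqv V (x * (star x * y)) (1 * NormedSpace.exp (P X)) := by
        refine Eqv.mul hI (hG.exp_mem (hV (hP.mem X))) hx1 ?_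
        rw [← hXe]
        exact h3
      rwa [one_mul, ← mul_assoc, hG.ms _ hx, one_mul] at h4
  rcases C.eq_empty_or_nonempty with hCe | hCne
  · refine ⟨1, one_pos, fun x hx _ => hgood x hx ?_⟩
    rw [hCe]
    exact Set.notMem_empty _
  · obtain ⟨y₀, hy₀, hmin⟩ := hCc.exists_isMinOn hCne TT_cont.continuousOn (f := fun x => ‖TT V x‖)
    refine ⟨‖TT V y₀‖, ?_, fun x hx hxn => hgood x hx fun hxC => ?_⟩
    · rcases (norm_nonneg (TT V y₀)).eq_or_lt with h | h
      · exfalso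
        have h2 := hy₀.2 y₀ hy₀.1 (TT_zero_iff.1 h.symm)
        rw [sub_self, norm_zero] at h2
        linarith
      · exact h
    · have h2 := hmin hxC
      simp only [Set.mem_setOf_eq] at h2
      linarith

/-- unit vectors of `V` are moved by elements near `1` -/
lemma moved (hG : IsG G L) (hc : IsPreconnected G) (hV : Irr G L V) :
    ∃ κ > 0, ∀ w ∈ V, ‖w‖ = 1 → ∃ g ∈ G, ‖TT V g‖ ≤ 1 / 4 ∧ κ ≤ ‖g * w * star g - w‖ := by
  haveI : ProperSpace 𝔸 := FiniteDimensional.proper ℝ 𝔸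
  set p : Set 𝔸 → Prop := fun A => ∃ κ > 0, ∀ w ∈ A, w ∈ V → ∃ g ∈ G, ‖TT V g‖ ≤ 1 / 4 ∧
    κ ≤ ‖g * w * star g - w‖ with hp
  have hcomp : IsCompact ((V : Set 𝔸) ∩ Metric.sphere 0 1) :=
    (isCompact_sphere (0 : 𝔸) 1).inter_left V.closed_of_finiteDimensional
  have hall : p ((V : Set 𝔸) ∩ Metric.sphere 0 1) := by
    refine hcomp.induction_on ?_ ?_ ?_ ?_
    · exact ⟨1, one_pos, fun w hw => absurd hw (Set.notMem_empty _)⟩
    · rintro s t hst ⟨κ, hκ, h⟩
      exact ⟨κ, hκ, fun w hw hwV => h w (hst hw) hwV⟩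
    · rintro s t ⟨κ, hκ, h⟩ ⟨κ', hκ', h'⟩
      refine ⟨min κ κ', lt_min hκ hκ', fun w hw hwV => ?_⟩
      rcases hw with hw | hw
      · obtain ⟨g, h1, h2, h3⟩ := h w hw hwV
        exact ⟨g, h1, h2, (min_le_left _ _).trans h3⟩
      · obtain ⟨g, h1, h2, h3⟩ := h' w hw hwV
        exact ⟨g, h1, h2, (min_le_right _ _).trans h3⟩
    · rintro w₀ ⟨hw₀, hw₀n⟩
      rw [mem_sphere_zero_iff_norm] at hw₀n
      obtain ⟨g, hg, hgn, hgw⟩ : ∃ g ∈ G, ‖TT V g‖ ≤ 1 / 4 ∧ g * w₀ * star g ≠ w₀ := by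
        by_contra hcon
        push Not at hcon
        -- small exponentials fix `w₀`
        have h1 : ∀ᶠ x in 𝓝 (1 : 𝔸), ‖TT V x‖ < 1 / 4 := by
          have h2 := (TT_cont (V := V)).continuousAt (x := (1 : 𝔸))
          have h3 : ‖TT V (1 : 𝔸)‖ = 0 := TT_zero_iff.2 (Eqv.refl _)
          rw [ContinuousAt, h3] at h2
          exact h2.eventually (gt_mem_nhds (by norm_num))
        obtain ⟨δ, hδ, h2⟩ := Metric.eventually_nhds_iff.1 h1
        obtain ⟨n, hn⟩ := generate hG hc hδ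
        have hfix : ∀ g ∈ G, g * w₀ * star g = w₀ := by
          intro g hg
          obtain ⟨l, hlen, hl, rfl⟩ := hn g hg
          clear hg hlen
          induction l with
          | nil => simp
          | cons X l ih =>
            have hX := hl X (by simp)
            have h3 : ‖TT V (NormedSpace.exp X)‖ < 1 / 4 := by
              apply h2
              rw [dist_eq_norm]
              exact (hG.norm_exp_sub_one hX.1).trans_lt hX.2
            have h4 := hcon _ (hG.exp_mem hX.1) h3.le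
            have h5 := ih fun Y hY => hl Y (by simp [hY])
            rw [List.map_cons, List.prod_cons, star_mul]
            calc NormedSpace.exp X * (l.map NormedSpace.exp).prod * w₀ *
                (star (l.map NormedSpace.exp).prod * star (NormedSpace.exp X))
                = NormedSpace.exp X * ((l.map NormedSpace.exp).prod * w₀ *
                  star (l.map NormedSpace.exp).prod) * star (NormedSpace.exp X) := by noncomm_ring
              _ = w₀ := by rw [h5, h4]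
        have h3 := hV.nofix w₀ hw₀ hfix
        rw [h3, norm_zero] at hw₀n
        exact zero_ne_one hw₀n
      set κ := ‖g * w₀ * star g - w₀‖ / 2 with hκ
      have hκ0 : 0 < κ := by
        have : 0 < ‖g * w₀ * star g - w₀‖ := norm_pos_iff.2 (sub_ne_zero.2 hgw)
        positivity
      refine ⟨Metric.ball w₀ (κ / 2), mem_nhdsWithin_of_mem_nhds (Metric.ball_mem_nhds _ (by positivity)),
        κ, hκ0, fun w hw hwV => ⟨g, hg, hgn, ?_⟩⟩
      rw [Metric.mem_ball, dist_eq_norm] at hw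
      have e : g * w₀ * star g - w₀ = (g * w * star g - w) + ((w - w₀) - g * (w - w₀) * star g) := by
        noncomm_ring
      have h1 : ‖g * w₀ * star g - w₀‖ ≤ ‖g * w * star g - w‖ + (‖w - w₀‖ + ‖w - w₀‖) := by
        rw [e]
        refine (norm_add_le _ _).trans (add_le_add le_rfl ((norm_sub_le _ _).trans
          (add_le_add le_rfl (le_of_eq (hG.norm_conj hg _)))))
      have h2 : ‖g * w₀ * star g - w₀‖ = 2 * κ := by rw [hκ]; ring
      linarith
  obtain ⟨κ, hκ, h⟩ := hall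
  exact ⟨κ, hκ, fun w hw hwn => h w ⟨hw, by rw [mem_sphere_zero_iff_norm]; exact hwn⟩ hw⟩

/-- two small exponentials which are conjugate and act in the same way are equal -/
lemma conj_eq (hG : IsG G L) (hc : IsPreconnected G) (hV : Irr G L V) (hP : IsP G L V P) :
    ∃ δ > 0, ∀ w ∈ V, ∀ w' ∈ V, ‖w‖ < δ → ‖w'‖ < δ →
      Eqv V (NormedSpace.exp w') (NormedSpace.exp w) → w' = w := by
  obtain ⟨δ₁, hδ₁, hinj⟩ := exp_inj (𝔸 := 𝔸)
  obtain ⟨η, hη, hnear⟩ := near_one hG (δ := δ₁ / 2) (by positivity)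
  refine ⟨min (δ₁ / 2) (η / 2), by positivity, fun w hw w' hw' hwn hwn' he => ?_⟩
  have hw1 : ‖w‖ < δ₁ / 2 := hwn.trans_le (min_le_left _ _)
  have hw2 : ‖w‖ < η / 2 := hwn.trans_le (min_le_right _ _)
  have hw1' : ‖w'‖ < δ₁ / 2 := hwn'.trans_le (min_le_left _ _)
  have hw2' : ‖w'‖ < η / 2 := hwn'.trans_le (min_le_right _ _)
  have hwL := hV.le hw
  have hwL' := hV.le hw'
  have hnw : -w ∈ L := L.neg_mem hwL
  set n := NormedSpace.exp w' * NormedSpace.exp (-w) with hn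
  have hnG : n ∈ G := hG.mul _ (hG.exp_mem hwL') _ (hG.exp_mem hnw)
  have hnn : ‖n - 1‖ < η := by
    have h1 := hG.norm_mul_sub_one (g := NormedSpace.exp w') (hG.exp_mem hnw)
    have h2 := hG.norm_exp_sub_one hwL'
    have h3 := hG.norm_exp_sub_one hnw
    rw [norm_neg] at h3
    linarith
  obtain ⟨X, hX, hXn, hXe⟩ := hnear n hnG hnn
  -- `n` acts trivially on `V`
  have hnV : Eqv V n 1 := by
    have h1 : Eqv V (NormedSpace.exp w' * NormedSpace.exp (-w))
        (NormedSpace.exp w * NormedSpace.exp (-w)) :=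
      Eqv.mul hV.inv (hG.exp_mem hnw) he (Eqv.refl _)
    rwa [exp_mul_neg] at h1
  -- `n` commutes with `L`
  have hnL : ∀ Y ∈ L, Commute n Y := by
    intro Y hY
    have h1 : Commute n (P Y) := commute_of_eqv_one hG hnG hnV (hP.mem Y)
    have h2 : Commute n (Y - P Y) := by
      have h3 := hP.sub_mem_Ker hV.le hY
      have h4 : Commute (Y - P Y) w' := hP.commute hG hV.le hV.inv h3 hw'
      have h5 : Commute (Y - P Y) w := hP.commute hG hV.le hV.inv h3 hw
      exact (exp_commute h4.symm).mul_left (exp_commute h5.symm.neg_left)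
    have h3 := h1.add_right h2
    rwa [add_sub_cancel] at h3
  have hncG : ∀ g ∈ G, Commute n g := by
    intro g hg
    obtain ⟨k, hk⟩ := generate hG hc one_pos
    obtain ⟨l, _, hl, rfl⟩ := hk g hg
    refine Commute.list_prod_right _ _ fun y hy => ?_
    obtain ⟨Z, hZ, rfl⟩ := List.mem_map.1 hy
    exact (exp_commute (hnL Z (hl Z hZ).1).symm).symm
  have hXfix : ∀ g ∈ G, g * X * star g = X := by
    intro g hg
    apply hinj
    · rw [hG.norm_conj hg]; linarith
    · linarith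
    · rw [exp_conj _ _ _ (hG.sm g hg) (hG.ms g hg), hXe, ← (hncG g hg).eq, mul_assoc, hG.ms g hg,
        mul_one]
  have hPX : P X = 0 := by
    refine hV.nofix (P X) (hP.mem X) fun g hg => ?_
    rw [← hP.equi g hg X hX, hXfix g hg]
  have hXw : Commute X w := hP.commute hG hV.le hV.inv (mem_Ker.2 ⟨hX, hPX⟩) hw
  have h1 : NormedSpace.exp w' = NormedSpace.exp (X + w) := by
    rw [exp_add' hXw, hXe, hn, mul_assoc, exp_neg_mul, mul_one]
  have h2 : w' = X + w := by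
    apply hinj _ _ (by linarith) _ h1
    have := norm_add_le X w
    linarith
  have h3 : P w' = P (X + w) := congrArg P h2
  rwa [hP.id _ hw', map_add, hPX, zero_add, hP.id _ hw] at h3

/-- **Turing's theorem, uniform version.** -/
theorem turing (hG : IsG G L) (hc : IsPreconnected G) (hV : Irr G L V) (hP : IsP G L V P) :
    ∃ η > 0, ∀ (Γ : Set 𝔸) (LΓ : Submodule ℝ 𝔸), IsG Γ LΓ → Γ ⊆ G → (∀ Z ∈ LΓ, P Z = 0) →
      ¬ ∀ g ∈ G, ∃ h ∈ Γ, ‖TT V h - TT V g‖ ≤ η := by
  obtain ⟨δ, hδ, hconj⟩ := conj_eq hG hc hV hP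
  obtain ⟨ρ, hρ, hact⟩ := near_act hG hV.le hV.inv hP hδ
  obtain ⟨κ, hκ, hmov⟩ := moved hG hc hV
  obtain ⟨x₁, hx₁, A₁, hA₁, hne₁⟩ := hV.exists_exp hG hc hP
  set g₁ := NormedSpace.exp x₁ with hg₁
  have hg₁G : g₁ ∈ G := hG.exp_mem (hV.le hx₁)
  set τ := ‖TT V g₁‖ with hτ
  have hτ0 : 0 < τ := by
    rcases (norm_nonneg (TT V g₁)).eq_or_lt with h | h
    · exfalso
      apply hne₁
      have := TT_zero_iff.1 h.symm A₁ hA₁
      rwa [star_one, one_mul, mul_one] at this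
    · exact h
  set η := min (min (τ / 2) (1 / 8)) (min (ρ / 4) (κ / 2)) with hη
  have hη0 : 0 < η := by positivity
  have e1 : η ≤ τ / 2 := (min_le_left _ _).trans (min_le_left _ _)
  have e2 : η ≤ 1 / 8 := (min_le_left _ _).trans (min_le_right _ _)
  have e3 : η ≤ ρ / 4 := (min_le_right _ _).trans (min_le_left _ _)
  have e4 : η ≤ κ / 2 := (min_le_right _ _).trans (min_le_right _ _)
  refine ⟨η, hη0, fun Γ LΓ hΓ hΓG hPΓ hden => ?_⟩
  have hΓL : LΓ ≤ L := fun Z hZ => (hG.lie Z).2 fun t => hΓG ((hΓ.lie Z).1 hZ t)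
  -- the elements of `Γ` acting nontrivially
  set S : Set 𝔸 := {h | h ∈ Γ ∧ ¬ Eqv V h 1} with hS
  obtain ⟨ν, hν, hnearΓ⟩ := near_one hΓ (δ := 1) one_pos
  have hclose : ∀ x ∈ Γ, ∀ y ∈ Γ, ‖y - x‖ < ν → Eqv V y x := by
    intro x hx y hy hxy
    obtain ⟨Z, hZ, _, hZe⟩ := hnearΓ (star x * y) (hΓ.mul _ (hΓ.st _ hx) _ hy) (by
      have e : star x * y - 1 = star x * (y - x) := by rw [mul_sub, hΓ.sm _ hx]
      rw [e, hΓ.isom _ (hΓ.st _ hx)]
      exact hxy)
    have h1 : Eqv V (star x * y) 1 := by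
      have h2 := hP.eqv_exp hG hV.le hV.inv (hΓL hZ)
      rw [hPΓ Z hZ, exp_zero', hZe] at h2
      exact h2
    have h2 := Eqv.mul hV.inv hG.one (Eqv.refl x) h1
    rwa [← mul_assoc, hΓ.ms _ hx, one_mul, mul_one] at h2
  have hScl : IsClosed S := by
    rw [← closure_subset_iff_isClosed]
    intro x hx
    have hxΓ : x ∈ Γ := by
      have h1 : closure S ⊆ closure Γ := closure_mono fun y hy => hy.1
      have h2 := h1 hx
      rwa [hΓ.closed.closure_eq] at h2
    obtain ⟨y, hy, hxy⟩ := Metric.mem_closure_iff.1 hx ν hν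
    rw [dist_eq_norm] at hxy
    refine ⟨hxΓ, fun h1 => hy.2 ((hclose x hxΓ y hy.1 ?_).trans h1)⟩
    rw [norm_sub_rev]
    exact hxy
  have hSc : IsCompact S := hΓ.compact.of_isClosed_subset hScl fun y hy => hy.1
  -- there is an element with small nontrivial action
  obtain ⟨g₂, hg₂, hg₂n⟩ : ∃ g ∈ G, ‖TT V g‖ = 2 * η := by
    have h1 := hc.intermediate_value hG.one hg₁G (TT_cont (V := V)).continuousOn
    have h2 : ‖TT V (1 : 𝔸)‖ = 0 := TT_zero_iff.2 (Eqv.refl _)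
    have h3 : 2 * η ∈ Set.Icc ‖TT V (1 : 𝔸)‖ ‖TT V g₁‖ := by
      rw [h2]
      exact ⟨by positivity, by linarith⟩
    obtain ⟨g, hg, hgn⟩ := h1 h3
    exact ⟨g, hg, hgn⟩
  obtain ⟨h₂, hh₂, hh₂n⟩ := hden g₂ hg₂
  have h₂lo : η ≤ ‖TT V h₂‖ := by
    have h1 := norm_sub_norm_le (TT V g₂) (TT V h₂)
    have h1' : ‖TT V g₂ - TT V h₂‖ = ‖TT V h₂ - TT V g₂‖ := norm_sub_rev (TT V g₂) (TT V h₂)
    linarith
  have h₂hi : ‖TT V h₂‖ ≤ 3 * η := by
    have h1 := norm_sub_norm_le (TT V h₂) (TT V g₂)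
    linarith
  have h₂S : h₂ ∈ S := by
    refine ⟨hh₂, fun h1 => ?_⟩
    have h2 := TT_zero_iff.2 h1
    linarith
  obtain ⟨γ, hγS, hmin⟩ := hSc.exists_isMinOn ⟨h₂, h₂S⟩ (TT_cont (V := V)).continuousOn
  have hγΓ := hγS.1
  have hγG := hΓG hγΓ
  have hr : 0 < ‖TT V γ‖ := by
    rcases (norm_nonneg (TT V γ)).eq_or_lt with h | h
    · exact absurd (TT_zero_iff.1 h.symm) hγS.2
    · exact h
  have hr3 : ‖TT V γ‖ ≤ 3 * η := by
    have h1 := hmin h₂S
    simp only [Set.mem_setOf_eq] at h1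
    linarith
  obtain ⟨w, hw, hwn, hγw⟩ := hact γ hγG (by linarith)
  have hw0 : w ≠ 0 := by
    rintro rfl
    apply hγS.2
    rw [exp_zero'] at hγw
    exact hγw
  have hwpos : 0 < ‖w‖ := norm_pos_iff.2 hw0
  -- an element of `Γ` moving `w`
  obtain ⟨g₃, hg₃, hg₃n, hg₃w⟩ := hmov (‖w‖⁻¹ • w) (V.smul_mem _ hw) (by
    rw [norm_smul, norm_inv, norm_norm, inv_mul_cancel₀ hwpos.ne'])
  obtain ⟨k, hk, hkn⟩ := hden g₃ hg₃
  have hkG := hΓG hk
  have hk2 : ‖TT V k‖ < 1 / 2 := by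
    have h1 := norm_sub_norm_le (TT V k) (TT V g₃)
    linarith
  have hkw : k * w * star k ≠ w := by
    intro h1
    have h2 : k * (‖w‖⁻¹ • w) * star k = ‖w‖⁻¹ • w := by
      rw [mul_smul_comm, smul_mul_assoc, h1]
    have h3 := TT_sub_le (x := k) (y := g₃) (V.smul_mem ‖w‖⁻¹ hw)
    rw [norm_smul, norm_inv, norm_norm, inv_mul_cancel₀ hwpos.ne', mul_one, h2, norm_sub_rev] at h3
    linarith
  -- the commutator acts trivially
  set c := γ * k * star γ * star k with hcdef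
  have hcΓ : c ∈ Γ := hΓ.mul _ (hΓ.mul _ (hΓ.mul _ hγΓ _ hk) _ (hΓ.st _ hγΓ)) _ (hΓ.st _ hk)
  have hcn : ‖TT V c‖ < ‖TT V γ‖ := by
    have h1 := TT_comm hG hV.inv hγG hkG
    nlinarith
  have hc1 : Eqv V c 1 := by
    by_contra h1
    have h2 := hmin (show c ∈ S from ⟨hcΓ, h1⟩)
    simp only [Set.mem_setOf_eq] at h2
    linarith
  -- hence `k γ k* ~ γ`
  have h1 : Eqv V (k * γ * star k) γ := by
    have h2 : Eqv V (star c * γ) (1 * γ) := by
      refine Eqv.mul hV.inv hγG ?_ (Eqv.refl _)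
      have h3 := Eqv.star hG hV.inv (hΓG hcΓ) hG.one hc1
      rwa [star_one] at h3
    have h3 : star c * γ = k * γ * star k := by
      rw [hcdef]
      simp only [star_mul, star_star]
      have h4 := hG.sm _ hγG
      calc k * (γ * (star k * star γ)) * γ = k * γ * star k * (star γ * γ) := by noncomm_ring
        _ = _ := by rw [h4, mul_one]
    rwa [h3, one_mul] at h2
  have h2 : Eqv V (NormedSpace.exp (k * w * star k)) (NormedSpace.exp w) := by
    have hewG : NormedSpace.exp w ∈ G := hG.exp_mem (hV.le hw)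
    have h3 : Eqv V (k * γ * star k) (k * NormedSpace.exp w * star k) :=
      Eqv.mul hV.inv (hG.st _ hkG) (Eqv.mul hV.inv hewG (Eqv.refl _) hγw) (Eqv.refl _)
    rw [exp_conj _ _ _ (hG.sm k hkG) (hG.ms k hkG)]
    exact (h3.symm.trans h1).trans hγw
  exact hkw (hconj w hw _ (hV.inv k hkG w hw) hwn (by rw [hG.norm_conj hkG]; exact hwn) h2)

end Pool.Agent.Y896.HS
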