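import Mathlib
import Pool.Agent.Y896.HS.U1

/-!
# The semisimple part for the degenerate lengths of homogeneous spaces, uniformly in the subgroup
-/

open Filter Topology

namespace Pool.Agent.Y896.HS

open Pool.Agent.W544.EG

set_option linter.unusedSectionVars false
set_option linter.style.haveILetI false

variable {𝔸 : Type} [NormedRing 𝔸] [NormedAlgebra ℝ 𝔸] [FiniteDimensional ℝ 𝔸] [StarRing 𝔸]
  [StarModule ℝ 𝔸] [ContinuousStar 𝔸]
variable {G Γ : Set 𝔸} {L LΓ W V W₁ : Submodule ℝ 𝔸} {P P₁ : 𝔸 →L[ℝ] 𝔸} {q : 𝔸 → ℝ}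

/-- a length function on `L` which vanishes on the Lie algebra of `Γ` and is invariant under `Γ` -/
structure Fam (G : Set 𝔸) (L : Submodule ℝ 𝔸) (q : 𝔸 → ℝ) (Γ : Set 𝔸) (LΓ : Submodule ℝ 𝔸) :
    Prop where
  len : IsLen L q
  isG : IsG Γ LΓ
  sub : Γ ⊆ G
  zero : ∀ Z ∈ LΓ, q Z = 0
  inv : ∀ h ∈ Γ, ∀ X ∈ L, q (h * X * star h) = q X

/-- products `y h`, `y` of length `≤ t`, `h ∈ Γ` -/
def RR (L : Submodule ℝ 𝔸) (q : 𝔸 → ℝ) (Γ : Set 𝔸) (t : ℝ) : Set 𝔸 :=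
  {x | ∃ y ∈ BL L q t, ∃ h ∈ Γ, x = y * h}

lemma RR.mem (hG : IsG G L) (F : Fam G L q Γ LΓ) {t : ℝ} {x : 𝔸} (hx : x ∈ RR L q Γ t) : x ∈ G := by
  obtain ⟨y, hy, h, hh, rfl⟩ := hx
  exact hG.mul _ (BL.mem hG hy) _ (F.sub hh)

lemma BL.conjΓ (hG : IsG G L) (F : Fam G L q Γ LΓ) {t : ℝ} {x h : 𝔸} (hx : x ∈ BL L q t)
    (hh : h ∈ Γ) : h * x * star h ∈ BL L q t := by
  have hhG := F.sub hh
  obtain ⟨l, h1, rfl, h3⟩ := hx
  have hL : ∀ X ∈ L, h * X * star h ∈ L := fun X hX => by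
    refine (hG.lie _).2 fun s => ?_
    have e : s • (h * X * star h) = h * (s • X) * star h := by
      rw [mul_smul_comm, smul_mul_assoc]
    rw [e, exp_conj _ _ _ (hG.sm h hhG) (hG.ms h hhG)]
    exact hG.mul _ (hG.mul _ hhG _ ((hG.lie X).1 hX s)) _ (hG.st _ hhG)
  refine ⟨l.map fun X => h * X * star h, ?_, ?_, ?_⟩
  · intro Y hY
    obtain ⟨X, hX, rfl⟩ := List.mem_map.1 hY
    exact hL X (h1 X hX)
  · clear h1 h3
    induction l with
    | nil => simp [hG.ms h hhG]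
    | cons X l ih =>
      simp only [List.map_cons, List.prod_cons]
      rw [ih, exp_conj _ _ _ (hG.sm h hhG) (hG.ms h hhG)]
      have e := hG.sm h hhG
      calc h * NormedSpace.exp X * star h * (h * (l.map NormedSpace.exp).prod * star h)
          = h * NormedSpace.exp X * (star h * h) * (l.map NormedSpace.exp).prod * star h := by
            noncomm_ring
        _ = _ := by rw [e]; noncomm_ring
  · refine le_trans (le_of_eq ?_) h3
    rw [List.map_map]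
    congr 1
    refine List.map_congr_left fun X hX => ?_
    exact F.inv h hh X (h1 X hX)

lemma RR.mul_BL (hG : IsG G L) (F : Fam G L q Γ LΓ) {s t : ℝ} {x y : 𝔸} (hx : x ∈ RR L q Γ s)
    (hy : y ∈ BL L q t) : x * y ∈ RR L q Γ (s + t) := by
  obtain ⟨z, hz, h, hh, rfl⟩ := hx
  refine ⟨z * (h * y * star h), BL.mul hz (BL.conjΓ hG F hy hh), h, hh, ?_⟩
  have e := hG.sm h (F.sub hh)
  calc z * h * y = z * h * y * 1 := by rw [mul_one]
    _ = z * h * y * (star h * h) := by rw [e]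
    _ = _ := by noncomm_ring

lemma RR.conj (hG : IsG G L) (F : Fam G L q Γ LΓ) {a b : ℝ} {x y : 𝔸} (hx : x ∈ RR L q Γ a)
    (hy : y ∈ BL L q b) : x * y * star x ∈ BL L q (b + 2 * a) := by
  obtain ⟨z, hz, h, hh, rfl⟩ := hx
  have h1 := BL.mul (BL.mul hz (BL.conjΓ hG F hy hh)) (BL.star hG F.len hz)
  have e : z * h * y * star (z * h) = z * (h * y * star h) * star z := by
    rw [star_mul]; noncomm_ring
  rw [e]
  refine BL.mono (le_of_eq ?_) h1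
  ring

lemma cw_BL' (hG : IsG G L) (F : Fam G L q Γ LΓ) {a b : ℝ} (ha : 0 ≤ a) (hb : 0 ≤ b)
    {l : List (𝔸 × 𝔸)} (hl : ∀ p ∈ l, p.1 ∈ BL L q a ∧ p.2 ∈ BL L q a) {z : 𝔸}
    (hz : z ∈ RR L q Γ b) : cw l z ∈ BL L q (l.length * (4 * a + 2 * b)) := by
  have h := BL.list_prod (L := L) (q := q) (t := 4 * a + 2 * b) (by positivity)
    (l.map fun p => p.1 * z * star p.1 * (p.2 * star z * star p.2)) (fun x hx => by
      obtain ⟨p, hp, rfl⟩ := List.mem_map.1 hx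
      obtain ⟨h1, h2⟩ := hl p hp
      have h3 := RR.conj hG F hz (BL.mul (BL.star hG F.len h1) h2)
      have h4 := BL.mul (BL.mul h1 h3) (BL.star hG F.len h2)
      have e : p.1 * z * star p.1 * (p.2 * star z * star p.2) =
          p.1 * (z * (star p.1 * p.2) * star z) * star p.2 := by noncomm_ring
      rw [e]
      refine BL.mono (le_of_eq ?_) h4
      ring)
  rwa [List.length_map] at h

/-- density implies that the `K`-fold ball is everything modulo `W` -/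
def PPU (G : Set 𝔸) (L W : Submodule ℝ 𝔸) : Prop :=
  ∃ K : ℝ, 0 ≤ K ∧ ∃ ε > 0, ∀ (q : 𝔸 → ℝ) (Γ : Set 𝔸) (LΓ : Submodule ℝ 𝔸), Fam G L q Γ LΓ →
    ∀ t : ℝ, 0 ≤ t →
    (∀ g ∈ G, ∃ s ∈ RR L q Γ t, ‖s - g‖ < ε) → ∀ g ∈ G, ∃ s ∈ BL L q (K * t), Eqv W s g

/-- a long vector exists in the unit ball of a dense length ball -/
lemma exists_longU (hG : IsG G L) (hc : IsPreconnected G) (hV : Irr G L V) (hP : IsP G L V P) :
    ∃ c > 0, ∃ ε > 0, ∀ (q : 𝔸 → ℝ) (Γ : Set 𝔸) (LΓ : Submodule ℝ 𝔸), Fam G L q Γ LΓ →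
    ∀ t : ℝ, 0 ≤ t → (∀ g ∈ G, ∃ s ∈ RR L q Γ t, ‖s - g‖ < ε) → ∃ u ∈ L, q u ≤ t ∧ ‖P u‖ = c := by
  obtain ⟨η, hη, htur⟩ := turing hG hc hV hP
  set c := η / 4 with hc'
  have hc0 : 0 < c := by positivity
  refine ⟨c, hc0, c, hc0, fun q Γ LΓ F t ht hd => ?_⟩
  have hq := F.len
  by_contra hcon
  push Not at hcon
  -- all vectors of length `≤ t` have small projection
  have h1 : ∀ u ∈ L, q u ≤ t → ‖P u‖ < c := by
    intro u hu hqu
    by_contra h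
    push Not at h
    have hpos : 0 < ‖P u‖ := hc0.trans_le h
    have h2 := hcon ((c / ‖P u‖) • u) (L.smul_mem _ hu) (by
      rw [hq.smul _ u hu, abs_of_nonneg (by positivity)]
      have : c / ‖P u‖ ≤ 1 := by rw [div_le_one hpos]; exact h
      have h3 := hq.nonneg u hu
      nlinarith)
    apply h2
    rw [map_smul, norm_smul, Real.norm_of_nonneg (by positivity)]
    field_simp
  have h2 : ∀ X ∈ L, t * ‖P X‖ ≤ c * q X ∧ (q X = 0 → ‖P X‖ = 0) := by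
    intro X hX
    have h0 : q X = 0 → ‖P X‖ = 0 := by
      intro h0
      by_contra hne0
      have hpos : 0 < ‖P X‖ := lt_of_le_of_ne (norm_nonneg _) (Ne.symm hne0)
      have h3 := h1 ((c / ‖P X‖) • X) (L.smul_mem _ hX) (by
        rw [hq.smul _ X hX, h0, mul_zero]; exact ht)
      rw [map_smul, norm_smul, Real.norm_of_nonneg (by positivity), div_mul_cancel₀ _ hpos.ne'] at h3
      exact lt_irrefl _ h3
    refine ⟨?_, h0⟩
    rcases (hq.nonneg X hX).eq_or_lt with h | h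
    · rw [h0 h.symm, ← h]; simp
    · have h3 := h1 ((t / q X) • X) (L.smul_mem _ hX) (by
        rw [hq.smul _ X hX, abs_of_nonneg (by positivity), div_mul_cancel₀ _ h.ne'])
      rw [map_smul, norm_smul, Real.norm_of_nonneg (by positivity), div_mul_eq_mul_div,
        div_lt_iff₀ h] at h3
      exact h3.le
  have hΓL : LΓ ≤ L := fun Z hZ => (hG.lie Z).2 fun t => F.sub ((F.isG.lie Z).1 hZ t)
  refine htur Γ LΓ F.isG F.sub (fun Z hZ => ?_) fun g hg => ?_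
  · exact norm_eq_zero.1 ((h2 Z (hΓL hZ)).2 (F.zero Z hZ))
  obtain ⟨x, ⟨y, ⟨l, hl, rfl, hlt⟩, h, hh, rfl⟩, hxg⟩ := hd g hg
  have h3 : (l.map fun X => ‖P X‖).sum ≤ c := by
    rcases ht.eq_or_lt with h | h
    · have h4 : ∀ X ∈ l, q X = 0 := by
        intro X hX
        have h5 : q X ≤ (l.map q).sum :=
          List.single_le_sum (fun y hy => by
            obtain ⟨Z, hZ, rfl⟩ := List.mem_map.1 hy
            exact hq.nonneg Z (hl Z hZ)) _ (List.mem_map.2 ⟨X, hX, rfl⟩)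
        have h6 := hq.nonneg X (hl X hX)
        linarith
      have h5 : (l.map fun X => ‖P X‖).sum = 0 := by
        apply List.sum_eq_zero
        intro y hy
        obtain ⟨Z, hZ, rfl⟩ := List.mem_map.1 hy
        exact (h2 Z (hl Z hZ)).2 (h4 Z hZ)
      rw [h5]; exact hc0.le
    · have h4 : t * (l.map fun X => ‖P X‖).sum ≤ c * (l.map q).sum := by
        rw [← List.sum_map_mul_left, ← List.sum_map_mul_left]
        exact List.sum_le_sum fun X hX => (h2 X (hl X hX)).1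
      have h5 : t * (l.map fun X => ‖P X‖).sum ≤ t * c := by nlinarith
      exact le_of_mul_le_mul_left h5 h
  have hPL : ∀ X, NormedSpace.exp (P X) ∈ G := fun X => hG.exp_mem (hV.le (hP.mem X))
  have hyG : (l.map NormedSpace.exp).prod ∈ G := by
    refine hG.list_prod_mem _ fun z hz => ?_
    obtain ⟨X, hX, rfl⟩ := List.mem_map.1 hz
    exact hG.exp_mem (hl X hX)
  have hs'G : (l.map fun X => NormedSpace.exp (P X)).prod ∈ G := by
    refine hG.list_prod_mem _ fun z hz => ?_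
    obtain ⟨X, hX, rfl⟩ := List.mem_map.1 hz
    exact hPL X
  have h4 : Eqv V (l.map NormedSpace.exp).prod (l.map fun X => NormedSpace.exp (P X)).prod :=
    Eqv.list_prod hV.inv _ _ hG l (fun X _ => hPL X)
      (fun X hX => hP.eqv_exp hG hV.le hV.inv (hl X hX))
  have h5 : ‖(l.map fun X => NormedSpace.exp (P X)).prod - 1‖ ≤ c := by
    refine (norm_list_prod hG _ l fun X _ => hPL X).trans (le_trans ?_ h3)
    exact List.sum_le_sum fun X _ => hG.norm_exp_sub_one (hV.le (hP.mem X))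
  have hhG := F.sub hh
  refine ⟨h, hh, TT_sub_le_of hη.le fun Y hY => ?_⟩
  have hW : h * Y * star h ∈ V := hV.inv h hhG Y hY
  have h6 := norm_conj_sub hG hs'G hG.one (h * Y * star h)
  rw [one_mul, star_one, mul_one, hG.norm_conj hhG] at h6
  have h7 := norm_conj_sub hG (hG.mul _ hyG _ hhG) hg Y
  have h8 : (l.map NormedSpace.exp).prod * h * Y * star ((l.map NormedSpace.exp).prod * h) =
      (l.map fun X => NormedSpace.exp (P X)).prod * (h * Y * star h) *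
        star (l.map fun X => NormedSpace.exp (P X)).prod := by
    rw [← h4 _ hW, star_mul]; noncomm_ring
  rw [h8] at h7
  have e : h * Y * star h - g * Y * star g =
      ((l.map fun X => NormedSpace.exp (P X)).prod * (h * Y * star h) *
        star (l.map fun X => NormedSpace.exp (P X)).prod - g * Y * star g) -
      ((l.map fun X => NormedSpace.exp (P X)).prod * (h * Y * star h) *
        star (l.map fun X => NormedSpace.exp (P X)).prod - h * Y * star h) := by abel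
  rw [e]
  refine (norm_sub_le _ _).trans ((add_le_add h7 h6).trans ?_)
  have h9 : 0 ≤ ‖Y‖ := norm_nonneg _
  have h10 : ‖(l.map NormedSpace.exp).prod * h - g‖ ≤ c := hxg.le
  have h11 : 2 * ‖(l.map NormedSpace.exp).prod * h - g‖ * ‖Y‖ ≤ 2 * c * ‖Y‖ := by gcongr
  have h12 : 2 * ‖(l.map fun X => NormedSpace.exp (P X)).prod - 1‖ * ‖Y‖ ≤ 2 * c * ‖Y‖ := by gcongr
  have h13 : 2 * c * ‖Y‖ + 2 * c * ‖Y‖ = η * ‖Y‖ := by rw [hc']; ring
  linarith

/-- the irreducible case -/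
lemma irr_ppU (hG : IsG G L) (hc : IsPreconnected G) (hV : Irr G L V) (hP : IsP G L V P) :
    PPU G L V := by
  haveI : CompleteSpace 𝔸 := FiniteDimensional.complete ℝ 𝔸
  haveI : ProperSpace 𝔸 := FiniteDimensional.proper ℝ 𝔸
  obtain ⟨c, hc0, ε₀, hε₀, hlong⟩ := exists_longU hG hc hV hP
  set p : Set 𝔸 → Prop := fun A => ∃ K : ℝ, 0 ≤ K ∧ ∃ ε > 0, ∃ δ > 0, ∀ (q : 𝔸 → ℝ) (Γ : Set 𝔸) (LΓ : Submodule ℝ 𝔸),
    Fam G L q Γ LΓ → ∀ t : ℝ, 0 ≤ t → (∀ g ∈ G, ∃ s ∈ RR L q Γ t, ‖s - g‖ < ε) → ∀ u ∈ L, q u ≤ t → P u ∈ A →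
    ∀ v ∈ V, ‖v‖ < δ → ∃ s ∈ BL L q (K * t), Eqv V s (NormedSpace.exp v) with hp
  have hcomp : IsCompact ((V : Set 𝔸) ∩ Metric.sphere 0 c) := by
    refine (isCompact_sphere (0 : 𝔸) c).inter_left ?_
    exact V.closed_of_finiteDimensional
  have hcov : p ((V : Set 𝔸) ∩ Metric.sphere 0 c) := by
    refine hcomp.induction_on ?_ ?_ ?_ ?_
    · refine ⟨0, le_rfl, 1, one_pos, 1, one_pos, ?_⟩
      intro q _ _ _ t _ _ u _ _ hu
      exact absurd hu (Set.notMem_empty _)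
    · rintro s t hst ⟨K, hK, ε, hε, δ, hδ, h⟩
      exact ⟨K, hK, ε, hε, δ, hδ, fun q Γ LΓ hq t' ht' hd u hu hqu hPu =>
        h q Γ LΓ hq t' ht' hd u hu hqu (hst hPu)⟩
    · rintro s t ⟨K, hK, ε, hε, δ, hδ, h⟩ ⟨K', hK', ε', hε', δ', hδ', h'⟩
      refine ⟨max K K', le_max_of_le_left hK, min ε ε', lt_min hε hε', min δ δ', lt_min hδ hδ', ?_⟩
      intro q Γ LΓ hq t' ht' hd u hu hqu hPu v hv hvδ
      rcases hPu with hPu | hPu
      · obtain ⟨x, hx, hx'⟩ := h q Γ LΓ hq t' ht' (fun g hg => by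
          obtain ⟨y, hy, hy'⟩ := hd g hg
          exact ⟨y, hy, hy'.trans_le (min_le_left _ _)⟩) u hu hqu hPu v hv (hvδ.trans_le (min_le_left _ _))
        exact ⟨x, BL.mono (mul_le_mul_of_nonneg_right (le_max_left _ _) ht') hx, hx'⟩
      · obtain ⟨x, hx, hx'⟩ := h' q Γ LΓ hq t' ht' (fun g hg => by
          obtain ⟨y, hy, hy'⟩ := hd g hg
          exact ⟨y, hy, hy'.trans_le (min_le_right _ _)⟩) u hu hqu hPu v hv (hvδ.trans_le (min_le_right _ _))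
        exact ⟨x, BL.mono (mul_le_mul_of_nonneg_right (le_max_right _ _) ht') hx, hx'⟩
    · rintro w₀ ⟨hw₀, hw₀c⟩
      have hw0 : w₀ ≠ 0 := by
        rintro rfl
        rw [mem_sphere_zero_iff_norm, norm_zero] at hw₀c
        exact hc0.ne hw₀c
      obtain ⟨n, k, δ, η, hδ, hη, hk, h⟩ := op_cover hG hP hV.le hV.inv w₀ (hV.span_orbit hG hw₀ hw0)
      refine ⟨Metric.ball w₀ η, mem_nhdsWithin_of_mem_nhds (Metric.ball_mem_nhds _ hη), ?_⟩
      refine ⟨3 * n, by positivity, η, hη, δ, hδ, ?_⟩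
      intro q Γ LΓ hq t ht hd u hu hqu hPu v hv hvδ
      choose y hy hy' using fun i => hd (k i) (hk i)
      rw [Metric.mem_ball, dist_eq_norm] at hPu
      obtain ⟨σ, hσ, hσ'⟩ := h (P u) (hV.le (hP.mem u)) hPu y
        (fun i => ⟨RR.mem hG hq (hy i), hy' i⟩) v hv hvδ
      refine ⟨((List.finRange n).map fun i => y i * NormedSpace.exp (σ i • u) * star (y i)).prod, ?_, ?_⟩
      · have h1 := BL.list_prod (L := L) (q := q) (t := 3 * t) (by positivity)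
          ((List.finRange n).map fun i => y i * NormedSpace.exp (σ i • u) * star (y i)) (fun x hx => by
            obtain ⟨i, _, rfl⟩ := List.mem_map.1 hx
            have h2 : NormedSpace.exp (σ i • u) ∈ BL L q t := by
              refine BL.exp (L.smul_mem _ hu) ?_
              rw [hq.len.smul _ _ hu]
              have := hq.len.nonneg u hu
              have h3 := (hσ i).le
              nlinarith [abs_nonneg (σ i)]
            have h3 := RR.conj hG hq (hy i) h2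
            refine BL.mono ?_ h3
            linarith)
        rw [List.length_map, List.length_finRange] at h1
        refine BL.mono ?_ h1
        linarith
      · refine Eqv.trans ?_ hσ'
        refine Eqv.list_prod hV.inv _ _ hG _ (fun i _ => ?_) (fun i _ => ?_)
        · exact hG.mul _ (hG.mul _ (RR.mem hG hq (hy i)) _ (hG.exp_mem (L.smul_mem _ (hV.le (hP.mem u))))) _
            (hG.st _ (RR.mem hG hq (hy i)))
        · refine Eqv.mul hV.inv (hG.st _ (RR.mem hG hq (hy i))) (Eqv.mul hV.inv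
            (hG.exp_mem (L.smul_mem _ (hV.le (hP.mem u)))) (Eqv.refl _) ?_) (Eqv.refl _)
          have := hP.eqv_exp hG hV.le hV.inv (L.smul_mem (σ i) hu)
          rwa [map_smul] at this
  obtain ⟨K, hK, ε, hε, δ, hδ, h⟩ := hcov
  obtain ⟨n, hn⟩ := spread hG hc hP hV.le hV.inv hδ
  refine ⟨n * K, by positivity, min ε ε₀, lt_min hε hε₀, ?_⟩
  intro q Γ LΓ hq t ht hd g hg
  have hd1 : ∀ g ∈ G, ∃ s ∈ RR L q Γ t, ‖s - g‖ < ε := fun g hg => by
    obtain ⟨y, hy, hy'⟩ := hd g hg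
    exact ⟨y, hy, hy'.trans_le (min_le_left _ _)⟩
  obtain ⟨u, hu, hqu, hPu⟩ := hlong q Γ LΓ hq t ht (fun g hg => by
    obtain ⟨y, hy, hy'⟩ := hd g hg
    exact ⟨y, hy, hy'.trans_le (min_le_right _ _)⟩)
  have h1 := hn (fun a => BL L q a) (fun a x hx => BL.mem hG hx) (fun a b hab => BL.mono hab)
    (BL.one le_rfl) (fun a b x y hx hy => BL.mul hx hy) (K * t) (by positivity)
    (h q Γ LΓ hq t ht hd1 u hu hqu ⟨hP.mem u, by rw [mem_sphere_zero_iff_norm]; exact hPu⟩) g hg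
  rw [← mul_assoc] at h1
  exact h1


/-- the inductive step -/
lemma pp_supU (hG : IsG G L) (hc : IsPreconnected G) (hW₁ : W₁ ≤ L) (hI₁ : Inv G W₁)
    (hP₁ : IsP G L W₁ P₁) (hV : Irr G L V) (hP : IsP G L V P) (hd : W₁ ⊓ V = ⊥) (hgen : Gen G W₁)
    (hpp₁ : PPU G L W₁) : PPU G L (W₁ ⊔ V) := by
  have hcV : ∀ X ∈ W₁, ∀ Y ∈ V, Commute X Y := fun X hX Y hY =>
    commute_of_disjoint hG hI₁ hV.inv hW₁ hV.le hd hX hY
  obtain ⟨z₀, hz₀, hz1, hz2⟩ := hgen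
  have hz₀V : Eqv V z₀ 1 := eqv_one_of_commute hG hz₀ fun Y hY => hz1 Y fun X hX => hcV X hX Y hY
  obtain ⟨n₁, δ₁, η₁, hδ₁, hη₁, hcp₁⟩ := cp_cover hG hP₁ hW₁ hI₁ hz₀ hz2
  obtain ⟨x, hx, A, hA, hne⟩ := hV.exists_exp hG hc hP
  set g₀ := NormedSpace.exp x with hg₀
  have hg₀G : g₀ ∈ G := hG.exp_mem (hV.le hx)
  have hg₀W : Eqv W₁ g₀ 1 := eqv_one_of_commute hG hg₀G fun X hX => exp_commute (hcV X hX x hx).symm
  obtain ⟨n₂, δ₂, η₂, hδ₂, hη₂, hcp₂⟩ := cp_cover hG hP hV.le hV.inv hg₀G (hV.span_cp hG hg₀G hA hne)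
  obtain ⟨η₃, hη₃, hnear⟩ := near_one hG (δ := δ₁ / (‖P₁‖ + 1)) (by positivity)
  obtain ⟨n₃, hspread⟩ := spread hG hc hP hV.le hV.inv hδ₂
  obtain ⟨K₁, hK₁, ε₁, hε₁, h₁⟩ := hpp₁
  obtain ⟨K₂, hK₂, ε₂, hε₂, h₂⟩ := irr_ppU hG hc hV hP
  set ε := min (min ε₁ ε₂) (min (min η₁ η₃) (η₂ / (2 * n₁ + 1))) with hε
  have hε0 : 0 < ε := by
    refine lt_min (lt_min hε₁ hε₂) (lt_min (lt_min hη₁ hη₃) ?_)
    positivity
  have hεε₁ : ε ≤ ε₁ := (min_le_left _ _).trans (min_le_left _ _)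
  have hεε₂ : ε ≤ ε₂ := (min_le_left _ _).trans (min_le_right _ _)
  have hεη₁ : ε ≤ η₁ := (min_le_right _ _).trans ((min_le_left _ _).trans (min_le_left _ _))
  have hεη₃ : ε ≤ η₃ := (min_le_right _ _).trans ((min_le_left _ _).trans (min_le_right _ _))
  have hεη₂ : ε ≤ η₂ / (2 * n₁ + 1) := (min_le_right _ _).trans (min_le_right _ _)
  refine ⟨K₁ + n₃ * (n₂ * (4 * K₂ + 2 * (1 + n₁ * (4 * K₁ + 2)))), by positivity, ε, hε0, ?_⟩
  intro q Γ LΓ F t ht hdense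
  have hq := F.len
  have hd1 := h₁ q Γ LΓ F t ht fun g hg => by
    obtain ⟨y, hy, hy'⟩ := hdense g hg
    exact ⟨y, hy, hy'.trans_le hεε₁⟩
  have hd2 := h₂ q Γ LΓ F t ht fun g hg => by
    obtain ⟨y, hy, hy'⟩ := hdense g hg
    exact ⟨y, hy, hy'.trans_le hεε₂⟩
  obtain ⟨z, hz, hzz⟩ := hdense z₀ hz₀
  obtain ⟨s, hs, hsg⟩ := hdense g₀ hg₀G
  have hzG := RR.mem hG F hz
  have hsG := RR.mem hG F hs
  -- `s` modulo `W₁`
  have hsg1 : s * star g₀ ∈ G := hG.mul _ hsG _ (hG.st _ hg₀G)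
  obtain ⟨X, hX, hXδ, hXe⟩ := hnear _ hsg1 (by
    have e : s * star g₀ - 1 = (s - g₀) * star g₀ := by rw [sub_mul, hG.ms _ hg₀G]
    rw [e, hG.isom' _ (hG.st _ hg₀G)]
    exact hsg.trans_le hεη₃)
  have hv₁ : ‖P₁ X‖ < δ₁ := by
    have h3 := P₁.le_opNorm X
    have h4 : ‖P₁‖ * ‖X‖ ≤ (‖P₁‖ + 1) * ‖X‖ := by nlinarith [norm_nonneg X]
    have h5 : (‖P₁‖ + 1) * ‖X‖ < δ₁ := by
      rw [lt_div_iff₀ (by positivity)] at hXδ
      linarith [mul_comm ‖X‖ (‖P₁‖ + 1)]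
    linarith
  have hsX : Eqv W₁ s (NormedSpace.exp (P₁ X)) := by
    have h3 : Eqv W₁ (NormedSpace.exp X * g₀) (NormedSpace.exp (P₁ X) * 1) :=
      Eqv.mul hI₁ hG.one (hP₁.eqv_exp hG hW₁ hI₁ hX) hg₀W
    have h4 : NormedSpace.exp X * g₀ = s := by rw [hXe, mul_assoc, hG.sm _ hg₀G, mul_one]
    rwa [h4, mul_one] at h3
  obtain ⟨l₁, hl₁n, hl₁, hl₁e⟩ := hcp₁ z hzG (hzz.trans_le hεη₁) (P₁ X) (hP₁.mem X) hv₁
  obtain ⟨l₁', hl₁'n, hl₁', hl₁'e⟩ := cw_replace hG hI₁ (BL L q (K₁ * t)) (fun x hx => BL.mem hG hx)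
    hd1 l₁ hl₁
  have hl₁'G : ∀ p ∈ l₁', p.1 ∈ G ∧ p.2 ∈ G := fun p hp =>
    ⟨BL.mem hG (hl₁' p hp).1, BL.mem hG (hl₁' p hp).2⟩
  set w := cw l₁' z with hw
  have hwG : w ∈ G := cw_mem hG hl₁'G hzG
  have hwW : Eqv W₁ w s := ((hl₁'e z hzG).trans hl₁e).trans hsX.symm
  have hwB : w ∈ BL L q (n₁ * (4 * (K₁ * t) + 2 * t)) := by
    have := cw_BL' hG F (by positivity) ht hl₁' hz
    rwa [hl₁'n, hl₁n] at this
  set q₀ := s * star w with hq₀
  have hq₀G : q₀ ∈ G := hG.mul _ hsG _ (hG.st _ hwG)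
  set a₀ := t + n₁ * (4 * (K₁ * t) + 2 * t) with ha₀
  have ha₀0 : 0 ≤ a₀ := by positivity
  have hq₀B : q₀ ∈ RR L q Γ a₀ := RR.mul_BL hG F hs (BL.star hG hq hwB)
  have hq₀W : Eqv W₁ q₀ 1 := by
    have h3 : Eqv W₁ (s * star w) (s * star s) :=
      Eqv.mul hI₁ (hG.st _ hsG) (Eqv.refl _) (Eqv.star hG hI₁ hwG hsG hwW)
    rwa [hG.ms _ hsG] at h3
  -- `w` modulo `V`
  set ζ := z * star z₀ with hζ
  have hζG : ζ ∈ G := hG.mul _ hzG _ (hG.st _ hz₀)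
  have hζn : ‖ζ - 1‖ < ε := by
    have e : ζ - 1 = (z - z₀) * star z₀ := by rw [sub_mul, hG.ms _ hz₀]
    rw [e, hG.isom' _ (hG.st _ hz₀)]
    exact hzz
  have hzζ : Eqv V z ζ := by
    have h3 : Eqv V (ζ * z₀) (ζ * 1) := Eqv.mul hV.inv hG.one (Eqv.refl _) hz₀V
    have h4 : ζ * z₀ = z := by rw [hζ, mul_assoc, hG.sm _ hz₀, mul_one]
    rwa [h4, mul_one] at h3
  set z' := s * star (cw l₁' ζ) with hz'
  have hcG : cw l₁' ζ ∈ G := cw_mem hG hl₁'G hζG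
  have hz'G : z' ∈ G := hG.mul _ hsG _ (hG.st _ hcG)
  have hz'n : ‖z' - g₀‖ < η₂ := by
    have h3 : ‖z' - s‖ ≤ 2 * n₁ * ‖ζ - 1‖ := by
      have e : z' - s = s * (star (cw l₁' ζ) - 1) := by rw [mul_sub, mul_one]
      rw [e, hG.isom _ hsG, hG.norm_star_sub_one hcG]
      have := norm_cw hG hl₁'G hζG
      rwa [hl₁'n, hl₁n] at this
    have h4 : ‖z' - g₀‖ ≤ ‖z' - s‖ + ‖s - g₀‖ := by
      have e : z' - g₀ = (z' - s) + (s - g₀) := by abel
      rw [e]; exact norm_add_le _ _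
    have h5 : (2 * n₁ + 1) * ε ≤ η₂ := by
      rw [le_div_iff₀ (by positivity)] at hεη₂
      linarith [mul_comm ε (2 * n₁ + 1)]
    have h6 : 2 * n₁ * ‖ζ - 1‖ ≤ 2 * n₁ * ε := by
      have := hζn.le
      gcongr
    linarith
  have hq₀z' : Eqv V q₀ z' :=
    Eqv.mul hV.inv (hG.st _ hcG) (Eqv.refl _) (Eqv.star hG hV.inv hwG hcG
      (cw_eqv hG hV.inv hzG hζG hzζ l₁' hl₁'G))
  -- small elements of `V`
  have hsmall : ∀ v ∈ V, ‖v‖ < δ₂ →
      ∃ r ∈ BL L q (n₂ * (4 * (K₂ * t) + 2 * a₀)) ∩ {y | Eqv W₁ y 1}, Eqv V r (NormedSpace.exp v) := by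
    intro v hv hvδ
    obtain ⟨l₂, hl₂n, hl₂, hl₂e⟩ := hcp₂ z' hz'G hz'n v hv hvδ
    obtain ⟨l₂', hl₂'n, hl₂', hl₂'e⟩ := cw_replace hG hV.inv (BL L q (K₂ * t))
      (fun x hx => BL.mem hG hx) hd2 l₂ hl₂
    have hl₂'G : ∀ p ∈ l₂', p.1 ∈ G ∧ p.2 ∈ G := fun p hp =>
      ⟨BL.mem hG (hl₂' p hp).1, BL.mem hG (hl₂' p hp).2⟩
    refine ⟨cw l₂' q₀, ⟨?_, ?_⟩, ?_⟩
    · have := cw_BL' hG F (by positivity) ha₀0 hl₂' hq₀B
      rwa [hl₂'n, hl₂n] at this
    · have := cw_eqv hG hI₁ hq₀G hG.one hq₀W l₂' hl₂'G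
      rwa [cw_one hG l₂' hl₂'G] at this
    · exact ((cw_eqv hG hV.inv hq₀G hz'G hq₀z' l₂' hl₂'G).trans (hl₂'e z' hz'G)).trans hl₂e
  have hall := hspread (fun a => BL L q a ∩ {y | Eqv W₁ y 1}) (fun a y hy => BL.mem hG hy.1)
    (fun a b hab y hy => ⟨BL.mono hab hy.1, hy.2⟩) ⟨BL.one le_rfl, Eqv.refl _⟩
    (fun a b y y' hy hy' => ⟨BL.mul hy.1 hy'.1, by
      have := Eqv.mul hI₁ hG.one hy.2 hy'.2
      rwa [mul_one] at this⟩) _ (by positivity) hsmall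
  intro g hg
  obtain ⟨s₁, hs₁, hs₁e⟩ := hd1 g hg
  have hs₁G := BL.mem hG hs₁
  have hgg : star s₁ * g ∈ G := hG.mul _ (hG.st _ hs₁G) _ hg
  obtain ⟨r, ⟨hr1, hr2⟩, hr3⟩ := hall (star s₁ * g) hgg
  refine ⟨s₁ * r, ?_, Eqv.sup ?_ ?_⟩
  · refine BL.mono (le_of_eq ?_) (BL.mul hs₁ hr1)
    rw [ha₀]; ring
  · have := Eqv.mul hI₁ hG.one hs₁e hr2
    rwa [mul_one] at this
  · have h3 := Eqv.mul hV.inv hgg (Eqv.refl s₁) hr3
    have h4 : s₁ * (star s₁ * g) = g := by rw [← mul_assoc, hG.ms _ hs₁G, one_mul]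
    rwa [h4] at h3

/-- the induction over invariant subspaces without fixed vectors -/
lemma gen_ppU (hG : IsG G L) (hc : IsPreconnected G) (hCR : CR G L) :
    ∀ (n : ℕ) (W : Submodule ℝ 𝔸), Module.finrank ℝ W = n → W ≤ L → Inv G W →
      (∀ X ∈ W, (∀ g ∈ G, g * X * star g = X) → X = 0) → Gen G W ∧ PPU G L W := by
  intro n
  induction n using Nat.strong_induction_on with
  | _ n ih =>
  intro W hn hWL hWI hfix
  by_cases hbot : W = ⊥
  · subst hbot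
    refine ⟨⟨1, hG.one, fun Y _ => Commute.one_left Y, bot_le⟩, 0, le_rfl, 1, one_pos, ?_⟩
    intro q _ _ _ t _ _ g _
    refine ⟨1, BL.one (by simp), ?_⟩
    intro Y hY
    rw [Submodule.mem_bot] at hY
    subst hY
    simp
  -- minimal invariant subspace
  obtain ⟨V, hVW, hV⟩ : ∃ V ≤ W, Irr G L V := by
    classical
    have hex : ∃ k : ℕ, ∃ V : Submodule ℝ 𝔸, V ≤ W ∧ Inv G V ∧ V ≠ ⊥ ∧ Module.finrank ℝ V = k :=
      ⟨_, W, le_rfl, hWI, hbot, rfl⟩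
    obtain ⟨V, h1, h2, h3, h4⟩ := Nat.find_spec hex
    refine ⟨V, h1, h1.trans hWL, h2, h3, ?_, fun X hX => hfix X (h1 hX)⟩
    intro U hU hUI hU0
    have h5 : Nat.find hex ≤ Module.finrank ℝ U :=
      Nat.find_min' hex ⟨U, hU.trans h1, hUI, hU0, rfl⟩
    exact Submodule.eq_of_le_of_finrank_le hU (by rw [h4]; exact h5)
  obtain ⟨P, hP⟩ := hCR V hV.le hV.inv
  set W₁ := W ⊓ Ker L P with hW₁
  have hW₁L : W₁ ≤ L := inf_le_left.trans hWL
  have hI₁ : Inv G W₁ := hWI.inf (hP.inv_Ker hG)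
  have hd : W₁ ⊓ V = ⊥ := by
    rw [eq_bot_iff, ← hP.inf_Ker]
    exact le_inf inf_le_right (inf_le_left.trans inf_le_right)
  have hsup : W₁ ⊔ V = W := by
    refine le_antisymm (sup_le inf_le_left hVW) ?_
    intro X hX
    have e : X = (X - P X) + P X := by abel
    rw [e]
    exact Submodule.add_mem_sup ⟨W.sub_mem hX (hVW (hP.mem X)), hP.sub_mem_Ker hV.le (hWL hX)⟩ (hP.mem X)
  have hlt : Module.finrank ℝ W₁ < n := by
    rw [← hn]
    refine Submodule.finrank_lt_finrank_of_lt (lt_of_le_of_ne inf_le_left ?_)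
    intro h
    apply hV.ne
    rw [eq_bot_iff, ← hd]
    exact le_inf (hVW.trans h.ge) le_rfl
  obtain ⟨hg₁, hp₁⟩ := ih _ hlt W₁ rfl hW₁L hI₁ fun X hX => hfix X hX.1
  obtain ⟨P₁, hP₁⟩ := hCR W₁ hW₁L hI₁
  rw [← hsup]
  exact ⟨gen_sup hG hc hW₁L hI₁ hV hP hd hg₁, pp_supU hG hc hW₁L hI₁ hP₁ hV hP hd hg₁ hp₁⟩

/-- **commutators lie in a bounded multiple of a dense length ball** -/
theorem commutators_memU (hG : IsG G L) (hc : IsPreconnected G) (hCR : CR G L) :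
    ∃ K : ℝ, 0 ≤ K ∧ ∃ ε > 0, ∀ (q : 𝔸 → ℝ) (Γ : Set 𝔸) (LΓ : Submodule ℝ 𝔸),
      Fam G L q Γ LΓ → ∀ t : ℝ, 0 ≤ t → (∀ g ∈ G, ∃ s ∈ RR L q Γ t, ‖s - g‖ < ε) →
      ∀ a ∈ G, ∀ b ∈ G, a * b * star a * star b ∈ BL L q (K * t) := by
  obtain ⟨Z, hZ⟩ : ∃ Z : Submodule ℝ 𝔸, ∀ X, X ∈ Z ↔ X ∈ L ∧ ∀ g ∈ G, g * X * star g = X := by
    refine ⟨{ carrier := {X | X ∈ L ∧ ∀ g ∈ G, g * X * star g = X}
              add_mem' := ?_, zero_mem' := ?_, smul_mem' := ?_ }, fun X => Iff.rfl⟩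
    · rintro X Y ⟨h1, h2⟩ ⟨h3, h4⟩
      exact ⟨L.add_mem h1 h3, fun g hg => by rw [mul_add, add_mul, h2 g hg, h4 g hg]⟩
    · exact ⟨L.zero_mem, fun g _ => by simp⟩
    · rintro c X ⟨h1, h2⟩
      exact ⟨L.smul_mem c h1, fun g hg => by rw [mul_smul_comm, smul_mul_assoc, h2 g hg]⟩
  have hZL : Z ≤ L := fun X hX => ((hZ X).1 hX).1
  have hZI : Inv G Z := fun g hg X hX => by rw [((hZ X).1 hX).2 g hg]; exact hX
  obtain ⟨P, hP⟩ := hCR Z hZL hZI
  obtain ⟨_, K, hK, ε, hε, h⟩ := gen_ppU hG hc hCR _ (Ker L P) rfl inf_le_left (hP.inv_Ker hG)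
    (fun X hX hfix => by
      have h1 : X ∈ Z := (hZ X).2 ⟨(mem_Ker.1 hX).1, hfix⟩
      rw [← hP.id X h1]
      exact (mem_Ker.1 hX).2)
  have hdec : ∀ X ∈ L, X ∈ Ker L P ⊔ Z := by
    intro X hX
    have e : X = (X - P X) + P X := by abel
    rw [e]
    exact Submodule.add_mem_sup (hP.sub_mem_Ker hZL hX) (hP.mem X)
  refine ⟨4 * K, by positivity, ε, hε, fun q Γ LΓ F t ht hd a ha b hb => ?_⟩
  have hq := F.len
  have hex : ∀ g ∈ G, ∃ s ∈ BL L q (K * t), ∀ x ∈ G, Commute (star s * g) x := by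
    intro g hg
    obtain ⟨s, hs, hsg⟩ := h q Γ LΓ F t ht hd g hg
    have hsG := BL.mem hG hs
    refine ⟨s, hs, ?_⟩
    have h1 : Eqv (Ker L P ⊔ Z) s g := Eqv.sup hsg fun Y hY => by
      rw [((hZ Y).1 hY).2 s hsG, ((hZ Y).1 hY).2 g hg]
    have hInv : Inv G (Ker L P ⊔ Z) := (hP.inv_Ker hG).sup hZI
    have h2 : Eqv (Ker L P ⊔ Z) (star s * g) 1 := by
      have := Eqv.mul hInv hsG (Eqv.refl (star s)) h1.symm
      rwa [hG.sm _ hsG] at this
    have hcG : star s * g ∈ G := hG.mul _ (hG.st _ hsG) _ hg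
    obtain ⟨n, hn⟩ := generate hG hc one_pos
    intro x hx
    obtain ⟨l, _, hl, rfl⟩ := hn x hx
    refine Commute.list_prod_right _ _ fun y hy => ?_
    obtain ⟨X, hX, rfl⟩ := List.mem_map.1 hy
    exact (exp_commute (commute_of_eqv_one hG hcG h2 (hdec X (hl X hX).1)).symm).symm
  obtain ⟨s, hs, hsa⟩ := hex a ha
  obtain ⟨s', hs', hsb⟩ := hex b hb
  have hsG := BL.mem hG hs
  have hsG' := BL.mem hG hs'
  set c := star s * a with hcdef
  set c' := star s' * b with hc'def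
  have hcG : c ∈ G := hG.mul _ (hG.st _ hsG) _ ha
  have hcG' : c' ∈ G := hG.mul _ (hG.st _ hsG') _ hb
  have ea : a = s * c := by rw [hcdef, ← mul_assoc, hG.ms _ hsG, one_mul]
  have eb : b = s' * c' := by rw [hc'def, ← mul_assoc, hG.ms _ hsG', one_mul]
  have e : a * b * star a * star b = s * s' * star s * star s' := by
    clear_value c c'
    rw [ea, eb, star_mul, star_mul]
    have h1 : c * s' = s' * c := (hsa s' hsG').eq
    have h2 : c * c' = c' * c := (hsa c' hcG').eq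
    have h3 : c' * star s = star s * c' := (hsb _ (hG.st _ hsG)).eq
    calc s * c * (s' * c') * (star c * star s) * (star c' * star s')
        = s * (c * s') * c' * star c * star s * star c' * star s' := by noncomm_ring
      _ = s * s' * (c * c') * star c * star s * star c' * star s' := by rw [h1]; noncomm_ring
      _ = s * s' * c' * (c * star c) * star s * star c' * star s' := by rw [h2]; noncomm_ring
      _ = s * s' * (c' * star s) * star c' * star s' := by rw [hG.ms _ hcG]; noncomm_ring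
      _ = s * s' * star s * (c' * star c') * star s' := by rw [h3]; noncomm_ring
      _ = _ := by rw [hG.ms _ hcG']; noncomm_ring
  rw [e]
  refine BL.mono (le_of_eq ?_) (BL.mul (BL.mul (BL.mul hs hs') (BL.star hG hq hs)) (BL.star hG hq hs'))
  ring


end Pool.Agent.Y896.HS
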