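import Mathlib
import Pool.Agent.Y896.HS.A
import Pool.Agent.Y896.HS.C
import Pool.Agent.Y896.HS.U2

/-!
# EGS for homogeneous spaces, uniformly in the subgroup
-/

open Matrix Filter Topology MeasureTheory
open scoped Matrix.Norms.Frobenius ContDiff

namespace Pool.Agent.Y896.HS

set_option linter.unusedSectionVars false
set_option linter.style.haveILetI false

open Pool.Agent.W544.EG (Mat LieAlg Gs BL IsLen IsG isG Gs_conn commutators_mem comm_BL generate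
  lin_bound cr)

variable {N k : ℕ} {G H : Subgroup (unitaryGroup (Fin N) ℂ)}

theorem fam {L LH : Submodule ℝ (Mat N)} (hL : (L : Set (Mat N)) = LieAlg G)
    (hLH : (LH : Set (Mat N)) = LieAlg H) (hHG : H ≤ G)
    (hH : IsClosed (H : Set (unitaryGroup (Fin N) ℂ))) (g : InvMetric G H k) :
    Fam (Gs G) L (qn g) (Gs H) LH where
  len := isLen g L
  isG := isG hH hLH
  sub := by
    rintro x ⟨u, hu, rfl⟩
    exact ⟨u, hHG hu, rfl⟩
  zero Z hZ := by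
    have h1 : Z ∈ LieAlg H := by rw [← hLH]; exact hZ
    rw [qn, (t_B N k G H hH g).2.1 Z h1, norm_zero]
  inv := by
    rintro x ⟨u, hu, rfl⟩ X hX
    have h1 : X ∈ LieAlg G := by rw [← hL]; exact hX
    exact (t_B N k G H hH g).2.2.2 u hu X h1

theorem HB_RR {L : Submodule ℝ (Mat N)} (hL : (L : Set (Mat N)) = LieAlg G) {g : InvMetric G H k}
    {t : ℝ} {x : Mat N} (hx : x ∈ HB g t) : x ∈ RR L (qn g) (Gs H) t := by
  obtain ⟨l, h1, h2, h, hh, rfl⟩ := hx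
  exact ⟨_, ⟨l, fun X hX => by rw [← SetLike.mem_coe, hL]; exact h1 X hX, rfl, h2⟩, (h : Mat N),
    ⟨h, hh, rfl⟩, rfl⟩

/-- Main alternative. -/
theorem alternativeU (hTS : S_TS) (hT : S_T)
    (hD : Pool.Agent.W544.EG.S_D) (hc : IsClosed (G : Set (unitaryGroup (Fin N) ℂ)))
    (hcn : IsConnected (G : Set (unitaryGroup (Fin N) ℂ))) {L : Submodule ℝ (Mat N)}
    (hL : (L : Set (Mat N)) = LieAlg G) :
    ∃ C κ : ℝ, 0 ≤ C ∧ 1 ≤ κ ∧ ∀ (H : Subgroup (unitaryGroup (Fin N) ℂ)), H ≤ G →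
      IsClosed (H : Set (unitaryGroup (Fin N) ℂ)) →
      ∀ (k : ℕ) (g : InvMetric G H k) (t : ℝ), 0 < t →
      (∀ x ∈ Gs G, x ∈ HB g (κ * t)) ∨
      ∃ lam : ℝ, 0 < lam ∧ lam * t ^ 2 ≤ C ∧ IsEigenvalue g lam := by
  have hG := isG hc hL
  have hconn := Gs_conn hcn
  obtain ⟨K, hK, ε, hε, hcomm⟩ := commutators_memU hG hconn (cr (G := G) (L := L))
  obtain ⟨v, hv, hdense⟩ := dense_or hTS hc hcn hL hε
  obtain ⟨M, p, hp1, hp2, hDcl, hw⟩ := hD N G hc hcn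
  obtain ⟨CT, hCT⟩ := hT N G hc hcn p hp1 hp2 hDcl
  set D := Module.finrank ℝ (Mat N) with hDd
  refine ⟨max (4 * D / v) CT, 1 + M * K, le_max_of_le_left (by positivity), by
    have : 0 ≤ M * K := by positivity
    linarith, fun H hHG hH k g t ht => ?_⟩
  have hmk : (k : ℝ) ≤ D := by
    have := g.indep.fintype_card_le_finrank
    have h2 : k ≤ D := by simpa using this
    exact_mod_cast h2
  rcases hdense H hHG hH k g t ht with hden | ⟨lam, h1, h2, h3⟩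
  swap
  · right
    refine ⟨lam, h1, le_max_of_le_left ?_, h3⟩
    rw [le_div_iff₀ hv]
    calc lam * t ^ 2 * v = lam * (v * t ^ 2) := by ring
      _ ≤ 4 * (k : ℝ) := h2
      _ ≤ 4 * (D : ℝ) := by linarith
  by_cases hcov : ∃ x ∈ G, ∀ a : EuclideanSpace ℝ (Fin k), ‖a‖ ≤ t → ∀ d ∈ ⁅G, G⁆, ∀ h ∈ H,
        ((x : unitaryGroup (Fin N) ℂ) : Mat N) ≠
          NormedSpace.exp (p (comb g a)) * (d : Mat N) * (h : Mat N)
  · right
    obtain ⟨lam, h1, h2, h3⟩ := hCT H hHG hH k g t ht hcov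
    exact ⟨lam, h1, le_max_of_le_right h2, h3⟩
  left
  push Not at hcov
  obtain ⟨LH, hLH⟩ := exists_lie hH
  have hF := fam hL hLH hHG hH g
  have hDB : ∀ d ∈ ⁅G, G⁆, ((d : unitaryGroup (Fin N) ℂ) : Mat N) ∈
      BL L (qn g) (M * (K * t)) :=
    fun d hd => comm_BL hc hL (by positivity)
      (hcomm (qn g) (Gs H) LH hF t ht.le (fun x hx => by
        obtain ⟨s, hs, hs'⟩ := hden x hx
        exact ⟨s, HB_RR hL hs, hs'⟩)) (hw d hd)
  have hp : Pool.Agent.W345.EGT.Proj G p := ⟨fun X hX => (hp1 X hX).1, fun X hX => (hp1 X hX).2, hp2⟩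
  rintro _ ⟨x, hx, rfl⟩
  obtain ⟨a, ha, d, hd, h, hh, hxe⟩ := hcov x hx
  have haG := comb_lie hc g a
  obtain ⟨d', hd', hde⟩ := exp_eq' hp haG
  have hd'' : ((d'⁻¹ * d : unitaryGroup (Fin N) ℂ)) ∈ ⁅G, G⁆ := mul_mem (inv_mem hd') hd
  have e1 : ((x : unitaryGroup (Fin N) ℂ) : Mat N) =
      NormedSpace.exp (comb g a) * ((d'⁻¹ * d : unitaryGroup (Fin N) ℂ) : Mat N) * (h : Mat N) := by
    rw [hxe, hde]
    have e2 : ((d'⁻¹ * d : unitaryGroup (Fin N) ℂ) : Mat N) = star (d' : Mat N) * (d : Mat N) := rfl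
    rw [e2]
    have h3 := Pool.Agent.W544.EG.unit_ms d'
    congr 1
    calc NormedSpace.exp (p (comb g a)) * (d : Mat N)
        = NormedSpace.exp (p (comb g a)) * ((d' : Mat N) * star (d' : Mat N)) * (d : Mat N) := by
          rw [h3, mul_one]
      _ = _ := by noncomm_ring
  rw [e1]
  refine BL_HB g hL ?_ hh
  have h4 : NormedSpace.exp (comb g a) ∈ BL L (qn g) t := by
    refine BL.exp (by rw [← SetLike.mem_coe, hL]; exact haG) ?_
    rw [qn, (t_B N k G H hH g).1]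
    exact ha
  refine BL.mono (le_of_eq ?_) (BL.mul h4 (hDB _ hd''))
  ring

/-- the strong form -/
theorem strongU (hTS : S_TS) (hT : S_T) (hJ : S_J)
    (hD : Pool.Agent.W544.EG.S_D) (hc : IsClosed (G : Set (unitaryGroup (Fin N) ℂ)))
    (hcn : IsConnected (G : Set (unitaryGroup (Fin N) ℂ))) :
    ∃ C : ℝ, 0 ≤ C ∧ ∀ (H : Subgroup (unitaryGroup (Fin N) ℂ)), H ≤ G →
      IsClosed (H : Set (unitaryGroup (Fin N) ℂ)) →
      ∀ (k : ℕ) (g : InvMetric G H k), H ≠ G →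
      ∃ lam : ℝ, 0 < lam ∧ IsEigenvalue g lam ∧ ∃ r : ℝ, 0 ≤ r ∧ lam * r ^ 2 ≤ C ∧
        ∀ x ∈ G, ∀ y ∈ G, ∃ ℓ ≤ r, 0 ≤ ℓ ∧
          Joined g (x : unitaryGroup (Fin N) ℂ) (y : unitaryGroup (Fin N) ℂ) ℓ := by
  obtain ⟨L, hL⟩ := exists_lie hc
  have hG := isG hc hL
  obtain ⟨C, κ, hC, hκ, halt⟩ := alternativeU hTS hT hD hc hcn hL
  refine ⟨4 * κ ^ 2 * C, by positivity, fun H hHG hH k g hne => ?_⟩
  obtain ⟨x₀, hx₀, hx₀H⟩ : ∃ x ∈ G, x ∉ H := by
    by_contra h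
    push Not at h
    exact hne (le_antisymm hHG h)
  have hx₀' : (x₀ : Mat N) ∉ Gs H := by
    rintro ⟨u, hu, hue⟩
    have : u = x₀ := Subtype.ext hue
    exact hx₀H (this ▸ hu)
  obtain ⟨r₀, hr₀, hr₀x⟩ := exists_small hc hL hHG hH g hx₀'
  obtain ⟨r₁, hr₁⟩ := exists_big hc hcn hL g
  have hex : ∃ k : ℕ, ∀ x ∈ Gs G, x ∈ HB g (r₀ * 2 ^ k) := by
    obtain ⟨k, hk⟩ := pow_unbounded_of_one_lt (r₁ / r₀) (one_lt_two)
    refine ⟨k, fun x hx => HB_mono g ?_ (hr₁ x hx)⟩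
    rw [div_lt_iff₀ hr₀] at hk
    linarith
  classical
  obtain ⟨j, hk1, hk2⟩ : ∃ k : ℕ, (∀ x ∈ Gs G, x ∈ HB g (r₀ * 2 ^ (k + 1))) ∧
      ¬ ∀ x ∈ Gs G, x ∈ HB g (r₀ * 2 ^ k) := by
    have hne : Nat.find hex ≠ 0 := by
      intro h0
      have := Nat.find_spec hex
      rw [h0, pow_zero, mul_one] at this
      exact hr₀x (this _ ⟨x₀, hx₀, rfl⟩)
    obtain ⟨k, hk⟩ := Nat.exists_eq_succ_of_ne_zero hne
    refine ⟨k, ?_, ?_⟩
    · have := Nat.find_spec hex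
      rwa [hk] at this
    · exact Nat.find_min hex (by omega)
  have hκ0 : 0 < κ := by linarith
  set t := r₀ * 2 ^ j / κ with ht
  have htpos : 0 < t := by positivity
  have hκt : κ * t = r₀ * 2 ^ j := by rw [ht]; field_simp
  rcases halt H hHG hH k g t htpos with h | ⟨lam, h1, h2, h3⟩
  · rw [hκt] at h
    exact absurd h hk2
  refine ⟨lam, h1, h3, r₀ * 2 ^ (j + 1), by positivity, ?_, ?_⟩
  · have e : r₀ * 2 ^ (j + 1) = 2 * (κ * t) := by rw [hκt, pow_succ]; ring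
    rw [e]
    calc lam * (2 * (κ * t)) ^ 2 = 4 * κ ^ 2 * (lam * t ^ 2) := by ring
      _ ≤ 4 * κ ^ 2 * C := by gcongr
  · intro x hx y hy
    have hx' : (x : Mat N) ∈ Gs G := ⟨x, hx, rfl⟩
    have hy' : (y : Mat N) ∈ Gs G := ⟨y, hy, rfl⟩
    exact hJ N k G H hc hHG hH g _ _ hx' hy' _ (hk1 _ (hG.mul _ (hG.st _ hx') _ hy'))

/-- **The EGS conjecture for homogeneous spaces** (conditional on the interfaces) -/
theorem egsU (hTS : S_TS) (hT : S_T) (hJ : S_J)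
    (hD : Pool.Agent.W544.EG.S_D) (hc : IsClosed (G : Set (unitaryGroup (Fin N) ℂ)))
    (hcn : IsConnected (G : Set (unitaryGroup (Fin N) ℂ))) :
    ∃ C : ℝ, ∀ (H : Subgroup (unitaryGroup (Fin N) ℂ)), H ≤ G →
      IsClosed (H : Set (unitaryGroup (Fin N) ℂ)) →
      ∀ (k : ℕ) (g : InvMetric G H k),
      lambda1 g * diam g ^ 2 ≤ C ∧
      (H ≠ G → ∃ lam : ℝ, 0 < lam ∧ IsEigenvalue g lam ∧ ∃ r : ℝ, 0 ≤ r ∧ lam * r ^ 2 ≤ C ∧
        ∀ x ∈ G, ∀ y ∈ G, ∃ ℓ ≤ r, 0 ≤ ℓ ∧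
          Joined g (x : unitaryGroup (Fin N) ℂ) (y : unitaryGroup (Fin N) ℂ) ℓ) := by
  obtain ⟨C, hC, h⟩ := strongU hTS hT hJ hD hc hcn
  refine ⟨C, fun H hHG hH k g => ⟨?_, h H hHG hH k g⟩⟩
  by_cases hnt : H = G
  · have hd : diam g = 0 := by
      unfold diam
      have hset : {d | ∃ x ∈ G, ∃ y ∈ G, d = dist g (x : unitaryGroup (Fin N) ℂ)
          (y : unitaryGroup (Fin N) ℂ)} = {0} := by
        have hone : ∀ x ∈ G, ∀ y ∈ G, dist g ((x : unitaryGroup (Fin N) ℂ) : Mat N)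
            ((y : unitaryGroup (Fin N) ℂ) : Mat N) = 0 := by
          intro x hx y hy
          have h1 : x⁻¹ * y ∈ H := by rw [hnt]; exact G.mul_mem (G.inv_mem hx) hy
          have h2 := Joined.fibre (g := g) (x : Mat N) (x⁻¹ * y) h1
          have e : (x : Mat N) * ((x⁻¹ * y : unitaryGroup (Fin N) ℂ) : Mat N) = (y : Mat N) := by
            have : x * (x⁻¹ * y) = y := mul_inv_cancel_left x y
            exact congrArg (fun u : unitaryGroup (Fin N) ℂ => (u : Mat N)) this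
          rw [e] at h2
          have h3 := dist_le g ⟨0, le_rfl, le_rfl, h2⟩
          exact le_antisymm h3.2 h3.1
        ext d
        simp only [Set.mem_setOf_eq, Set.mem_singleton_iff]
        constructor
        · rintro ⟨x, hx, y, hy, rfl⟩
          exact hone x hx y hy
        · rintro rfl
          exact ⟨1, G.one_mem, 1, G.one_mem, (hone 1 G.one_mem 1 G.one_mem).symm⟩
      rw [hset, csSup_singleton]
    rw [hd]
    simpa using hC
  · obtain ⟨lam, h1, h2, r, h3, h4, h5⟩ := h H hHG hH k g hnt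
    have hl0 : 0 ≤ lambda1 g := Real.sInf_nonneg fun l hl => hl.1.le
    have hl1 : lambda1 g ≤ lam := csInf_le ⟨0, fun l hl => hl.1.le⟩ ⟨h1, h2⟩
    have hd0 : 0 ≤ diam g := by
      refine Real.sSup_nonneg ?_
      rintro d ⟨x, hx, y, hy, rfl⟩
      exact (dist_le g (h5 x hx y hy)).1
    have hd1 : diam g ≤ r := by
      refine csSup_le ⟨_, 1, G.one_mem, 1, G.one_mem, rfl⟩ ?_
      rintro d ⟨x, hx, y, hy, rfl⟩
      exact (dist_le g (h5 x hx y hy)).2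
    calc lambda1 g * diam g ^ 2 ≤ lam * r ^ 2 := by gcongr
      _ ≤ C := h4

end Pool.Agent.Y896.HS
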