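import Mathlib
import Pool.Agent.Y896.HS.U3

/-!
# Left-invariant metrics on `G` are the invariant metrics on `G/1`
-/

open Matrix Filter Topology
open scoped Matrix.Norms.Frobenius ContDiff

namespace Pool.Agent.Y896.HS

set_option linter.unusedSectionVars false

open Pool.Agent.W544.EG (Mat LieAlg LeftInvMetric)

variable {N m : ℕ} {G : Subgroup (unitaryGroup (Fin N) ℂ)}

theorem lie_bot {X : Mat N} (hX : X ∈ LieAlg (⊥ : Subgroup (unitaryGroup (Fin N) ℂ))) : X = 0 := by
  have h1 : ∀ t : ℝ, NormedSpace.exp (t • X) = 1 := by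
    intro t
    obtain ⟨u, hu, hue⟩ := hX t
    rw [Subgroup.mem_bot] at hu
    rw [← hue, hu]
    rfl
  have h2 := Pool.Agent.W544.EG.hasDerivAt_exp_smul X 0
  have h3 : (fun t : ℝ => NormedSpace.exp (t • X)) = fun _ => (1 : Mat N) := funext h1
  have h4 : HasDerivAt (fun _ : ℝ => (1 : Mat N)) (NormedSpace.exp ((0 : ℝ) • X) * X) 0 := by
    rw [← h3]; exact h2
  have h5 := h4.unique (hasDerivAt_const 0 (1 : Mat N))
  rw [h1, one_mul] at h5
  exact h5

theorem zero_lie (H : Subgroup (unitaryGroup (Fin N) ℂ)) : (0 : Mat N) ∈ LieAlg H := by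
  intro t
  refine ⟨1, H.one_mem, ?_⟩
  rw [smul_zero]
  have h0 : NormedSpace.exp (0 : Mat N) = 1 := Pool.Agent.W544.EG.exp_zero' (𝔸 := Mat N)
  rw [h0]
  rfl

/-- every left-invariant metric on `G` is an invariant metric on `G/1` -/
theorem of_left (g : LeftInvMetric G m) : ∃ g' : InvMetric G ⊥ m, g'.X = g.X := by
  refine ⟨{ X := g.X, mem := ?_, indep := g.indep, disj := ?_, sup := ?_, inv := ?_ }, rfl⟩
  · intro i
    rw [← g.span_eq]
    exact Submodule.subset_span (Set.mem_range_self i)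
  · intro Y _ hY
    exact lie_bot hY
  · intro Z hZ
    refine ⟨Z, ?_, ?_⟩
    · rw [← SetLike.mem_coe, g.span_eq]
      exact hZ
    · rw [sub_self]
      exact zero_lie _
  · intro h hh
    rw [Subgroup.mem_bot] at hh
    subst hh
    refine ⟨1, one_mem _, fun j => ?_⟩
    have e1 : (((1 : unitaryGroup (Fin N) ℂ)) : Mat N) = 1 := rfl
    rw [e1, star_one, mul_one, one_mul]
    simp [Matrix.one_apply]

end Pool.Agent.Y896.HS
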